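import Pool.Agent.Lib.MP_eed79e_coT.Lab

/-!
Symmetries induce automorphisms.
-/

set_option linter.unusedSectionVars false

namespace Pool.Agent.Lib.MP_eed79e_coT

theorem im1_symm (T : H3 ≃ H3) (s : Set H3) : T.symm '' (T '' s) = s := by
  rw [Equiv.symm_image_image]

theorem im2_symm (T : H3 ≃ H3) (s : Set (Set H3)) : (T.symm '' ·) '' ((T '' ·) '' s) = s := by
  rw [Set.image_image]
  simp only [im1_symm]
  exact Set.image_id' s

theorem im3_symm (T : H3 ≃ H3) (s : Set (Set (Set H3))) :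
    ((T.symm '' ·) '' ·) '' (((T '' ·) '' ·) '' s) = s := by
  rw [Set.image_image]
  simp only [im2_symm]
  exact Set.image_id' s

theorem im4_symm (T : H3 ≃ H3) (s : Set (Set (Set (Set H3)))) :
    (((T.symm '' ·) '' ·) '' ·) '' ((((T '' ·) '' ·) '' ·) '' s) = s := by
  rw [Set.image_image]
  simp only [im3_symm]
  exact Set.image_id' s

theorem IsIsom.symm {T : H3 ≃ H3} (h : IsIsom T) : IsIsom T.symm := fun x y => by
  rw [← h, T.apply_symm_apply, T.apply_symm_apply]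

theorem IsIsom.trans {T U : H3 ≃ H3} (h : IsIsom T) (h' : IsIsom U) : IsIsom (T.trans U) :=
  fun x y => by
    rw [Equiv.trans_apply, Equiv.trans_apply, h', h]

section

variable {P : Type} [PartialOrder P] [BoundedOrder P] {rk : P → ℤ} {b : {v : P // rk v = 0} → H3}
  {P' : Type} [PartialOrder P'] [BoundedOrder P'] {rk' : P' → ℤ} {b' : {v : P' // rk' v = 0} → H3}

theorem Maps.symm {T : H3 ≃ H3} (h : Maps rk b rk' T b') : Maps rk' b' rk T.symm b := by
  refine ⟨h.isom.symm, ?_, ?_, ?_, ?_⟩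
  · rw [← h.vertices, im1_symm]
  · rw [← h.edges, im2_symm]
  · rw [← h.twofaces, im3_symm]
  · rw [← h.facets, im4_symm]

/-- The representative of `F` is mapped to the representative of `F'`. -/
structure Rel (b : {v : P // rk v = 0} → H3) (b' : {v : P' // rk' v = 0} → H3) (T : H3 ≃ H3)
    (F : P) (F' : P') : Prop where
  rank : rk' F' = rk F
  r0 : ∀ (h : rk F = 0) (h' : rk' F' = 0), T (b ⟨F, h⟩) = b' ⟨F', h'⟩
  r1 : rk F = 1 → T '' rep1 rk b F = rep1 rk' b' F'
  r2 : rk F = 2 → (T '' ·) '' rep2 rk b F = rep2 rk' b' F'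
  r3 : rk F = 3 → ((T '' ·) '' ·) '' rep3 rk b F = rep3 rk' b' F'

theorem Rel.symm {T : H3 ≃ H3} {F : P} {F' : P'} (h : Rel b b' T F F') :
    Rel b' b T.symm F' F := by
  refine ⟨h.rank.symm, ?_, ?_, ?_, ?_⟩
  · intro h1 h2
    rw [← h.r0 h2 h1, T.symm_apply_apply]
  · intro h1
    rw [h.rank] at h1
    rw [← h.r1 h1, im1_symm]
  · intro h1
    rw [h.rank] at h1
    rw [← h.r2 h1, im2_symm]
  · intro h1
    rw [h.rank] at h1
    rw [← h.r3 h1, im3_symm]

theorem eq_bot_of_rk (hP : IsPolytope 4 rk) {F : P} (h : rk F = -1) : F = ⊥ :=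
  (eq_of_rk hP bot_le (by rw [h, hP.bot])).symm

theorem eq_top_of_rk (hP : IsPolytope 4 rk) {F : P} (h : rk F = 4) : F = ⊤ :=
  eq_of_rk hP le_top (by rw [h, hP.top]; norm_num)

theorem rk_cases (hP : IsPolytope 4 rk) (F : P) :
    rk F = -1 ∨ rk F = 0 ∨ rk F = 1 ∨ rk F = 2 ∨ rk F = 3 ∨ rk F = 4 := by
  have := rk_bounds hP F
  omega

variable (hP : IsPolytope 4 rk) (hP' : IsPolytope 4 rk')

include hP hP' in
theorem exists_rel {T : H3 ≃ H3} (hT : Maps rk b rk' T b') (F : P) : ∃ F', Rel b b' T F F' := by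
  rcases rk_cases hP F with h | h | h | h | h | h
  · refine ⟨⊥, ⟨by rw [h, hP'.bot], ?_, ?_, ?_, ?_⟩⟩
    · intro h1
      omega
    · intro h1
      omega
    · intro h1
      omega
    · intro h1
      omega
  · have h1 : T (b ⟨F, h⟩) ∈ Set.range b' := by
      rw [← hT.vertices]
      exact ⟨_, ⟨_, rfl⟩, rfl⟩
    obtain ⟨⟨F', hF'⟩, h2⟩ := h1
    refine ⟨F', ⟨by rw [h, hF'], ?_, ?_, ?_, ?_⟩⟩
    · intro _ _
      exact h2.symm
    · intro h1
      omega
    · intro h1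
      omega
    · intro h1
      omega
  · have h1 : T '' rep1 rk b F ∈ {s | ∃ e : P', rk' e = 1 ∧ rep1 rk' b' e = s} := by
      rw [← hT.edges]
      exact ⟨_, ⟨F, h, rfl⟩, rfl⟩
    obtain ⟨F', hF', h2⟩ := h1
    refine ⟨F', ⟨by rw [h, hF'], ?_, ?_, ?_, ?_⟩⟩
    · intro h1
      omega
    · intro _
      exact h2.symm
    · intro h1
      omega
    · intro h1
      omega
  · have h1 : (T '' ·) '' rep2 rk b F ∈ {s | ∃ e : P', rk' e = 2 ∧ rep2 rk' b' e = s} := by
      rw [← hT.twofaces]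
      exact ⟨_, ⟨F, h, rfl⟩, rfl⟩
    obtain ⟨F', hF', h2⟩ := h1
    refine ⟨F', ⟨by rw [h, hF'], ?_, ?_, ?_, ?_⟩⟩
    · intro h1
      omega
    · intro h1
      omega
    · intro _
      exact h2.symm
    · intro h1
      omega
  · have h1 : ((T '' ·) '' ·) '' rep3 rk b F ∈ {s | ∃ e : P', rk' e = 3 ∧ rep3 rk' b' e = s} := by
      rw [← hT.facets]
      exact ⟨_, ⟨F, h, rfl⟩, rfl⟩
    obtain ⟨F', hF', h2⟩ := h1
    refine ⟨F', ⟨by rw [h, hF'], ?_, ?_, ?_, ?_⟩⟩
    · intro h1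
      omega
    · intro h1
      omega
    · intro h1
      omega
    · intro _
      exact h2.symm
  · refine ⟨⊤, ⟨by rw [h, hP'.top]; norm_num, ?_, ?_, ?_, ?_⟩⟩
    · intro h1
      omega
    · intro h1
      omega
    · intro h1
      omega
    · intro h1
      omega

include hP' in
theorem Rel.unique (hf : IsFaithful rk' b') {T : H3 ≃ H3} {F : P} {F' F'' : P'}
    (h1 : Rel b b' T F F') (h2 : Rel b b' T F F'') : F' = F'' := by
  have e1 := h1.rank
  have e2 := h2.rank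
  rcases rk_cases hP' F' with h | h | h | h | h | h
  · rw [eq_bot_of_rk hP' h, eq_bot_of_rk hP' (F := F'') (by rw [e2, ← e1, h])]
  · have h3 : rk F = 0 := by rw [← e1, h]
    have h4 : rk' F'' = 0 := by rw [e2, h3]
    have h5 := h1.r0 h3 h
    rw [h2.r0 h3 h4] at h5
    exact (congrArg Subtype.val (hf.vertices h5)).symm
  · have h3 : rk F = 1 := by rw [← e1, h]
    have h4 : rk' F'' = 1 := by rw [e2, h3]
    exact hf.edges _ _ h h4 (by rw [← h1.r1 h3, h2.r1 h3])
  · have h3 : rk F = 2 := by rw [← e1, h]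
    have h4 : rk' F'' = 2 := by rw [e2, h3]
    exact hf.twofaces _ _ h h4 (by rw [← h1.r2 h3, h2.r2 h3])
  · have h3 : rk F = 3 := by rw [← e1, h]
    have h4 : rk' F'' = 3 := by rw [e2, h3]
    exact hf.facets _ _ h h4 (by rw [← h1.r3 h3, h2.r3 h3])
  · rw [eq_top_of_rk hP' h, eq_top_of_rk hP' (F := F'') (by rw [e2, ← e1, h])]

include hP hP' in
theorem Rel.cover (hf : IsFaithful rk' b') {T : H3 ≃ H3} {F H : P} {F' H' : P'}
    (h1 : Rel b b' T F F') (h2 : Rel b b' T H H') (hFH : F ≤ H) (hr : rk H = rk F + 1) :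
    F' ≤ H' := by
  have e1 := h1.rank
  have e2 := h2.rank
  rcases rk_cases hP F with h | h | h | h | h | h
  · rw [eq_bot_of_rk hP' (F := F') (by rw [e1, h])]
    exact bot_le
  · have h3 : rk' F' = 0 := by rw [e1, h]
    have h4 : T (b ⟨F, h⟩) ∈ T '' rep1 rk b H := ⟨_, ⟨⟨F, h⟩, hFH, rfl⟩, rfl⟩
    rw [h2.r1 (by omega), h1.r0 h h3] at h4
    obtain ⟨v, hv, h5⟩ := h4
    have h6 := hf.vertices h5
    rw [h6] at hv
    exact hv
  · have h4 : T '' rep1 rk b F ∈ (T '' ·) '' rep2 rk b H := ⟨_, ⟨F, h, hFH, rfl⟩, rfl⟩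
    rw [h2.r2 (by omega), h1.r1 h] at h4
    obtain ⟨v, hv, h5, h6⟩ := h4
    rw [hf.edges _ _ hv (by rw [e1, h]) h6] at h5
    exact h5
  · have h4 : (T '' ·) '' rep2 rk b F ∈ ((T '' ·) '' ·) '' rep3 rk b H :=
      ⟨_, ⟨F, h, hFH, rfl⟩, rfl⟩
    rw [h2.r3 (by omega), h1.r2 h] at h4
    obtain ⟨v, hv, h5, h6⟩ := h4
    rw [hf.twofaces _ _ hv (by rw [e1, h]) h6] at h5
    exact h5
  · rw [eq_top_of_rk hP' (F := H') (by omega)]
    exact le_top
  · exfalso
    have := rk_bounds hP H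
    omega

include hP hP' in
theorem Rel.mono (hf : IsFaithful rk' b') {T : H3 ≃ H3} (hT : Maps rk b rk' T b') (n : ℕ) :
    ∀ {F G : P} {F' G' : P'}, Rel b b' T F F' → Rel b b' T G G' → F ≤ G → rk G - rk F = n →
      F' ≤ G' := by
  induction n with
  | zero =>
    intro F G F' G' h1 h2 h3 h4
    have h5 : F = G := eq_of_rk hP h3 (by push_cast at h4; omega)
    subst h5
    exact (h1.unique hP' hf h2).le
  | succ n ih =>
    intro F G F' G' h1 h2 h3 h4
    push_cast at h4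
    obtain ⟨H, hFH, hHG, hH⟩ := exists_mid hP h3 (k := rk F + 1) (by omega) (by omega)
    obtain ⟨H', hH'⟩ := exists_rel hP hP' hT H
    exact (h1.cover hP hP' hf hH' hFH hH).trans (ih hH' h2 hHG (by omega))

include hP hP' in
theorem exists_iso (hf : IsFaithful rk b) (hf' : IsFaithful rk' b') {T : H3 ≃ H3}
    (hT : Maps rk b rk' T b') :
    ∃ α : P ≃o P', ∀ F, Rel b b' T F (α F) := by
  have h1 := fun F => exists_rel hP hP' hT F
  have h2 := fun F' => exists_rel hP' hP hT.symm F'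
  choose f hf1 using h1
  choose k hk using h2
  have hle : ∀ {F G : P} {F' G' : P'}, Rel b b' T F F' → Rel b b' T G G' → F ≤ G → F' ≤ G' := by
    intro F G F' G' r1 r2 r3
    have h3 := hP.strictMono.monotone r3
    exact Rel.mono hP hP' hf' hT (rk G - rk F).toNat r1 r2 r3 (by omega)
  have hle' : ∀ {F G : P} {F' G' : P'}, Rel b b' T F F' → Rel b b' T G G' → F' ≤ G' → F ≤ G := by
    intro F G F' G' r1 r2 r3
    have h3 := hP'.strictMono.monotone r3
    exact Rel.mono hP' hP hf hT.symm (rk' G' - rk' F').toNat r1.symm r2.symm r3 (by omega)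
  refine ⟨{ toFun := f, invFun := k, left_inv := ?_, right_inv := ?_, map_rel_iff' := ?_ }, hf1⟩
  · intro F
    exact (hk (f F)).unique hP hf (hf1 F).symm
  · intro F'
    have h3 := (hk F').symm
    rw [Equiv.symm_symm] at h3
    exact (hf1 (k F')).unique hP' hf' h3
  · intro F G
    exact ⟨hle' (hf1 F) (hf1 G), hle (hf1 F) (hf1 G)⟩

end

end Pool.Agent.Lib.MP_eed79e_coT
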