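import Pool.Agent.Lib.MP_eed79e_coT.Norm

/-!
Configurations with a symmetry group of index two are the configurations `bt M`.
-/

namespace Pool.Agent.Lib.MP_eed79e_coT

/-- The permutations of the coordinates as bijections. -/
noncomputable def pE (π : Equiv.Perm (Fin 4)) : Hs ≃ Hs where
  toFun := pH π
  invFun := pH π⁻¹
  left_inv := pH_inv' π
  right_inv := pH_inv π

theorem pE_apply (π : Equiv.Perm (Fin 4)) (x : Hs) : pE π x = pH π x := rfl

theorem pE_iso (π : Equiv.Perm (Fin 4)) : Iso (pE π) := QQ_pH π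

theorem cH_cH' (M : Par) (i : Fin 4) (x : Hs) : cH M i (-1) (cH M i 1 x) = x := by
  have h := cH_cH M i (-1) x
  rwa [neg_neg] at h

/-- The rotatory reflections as bijections. -/
noncomputable def cE (M : Par) (i : Fin 4) : Hs ≃ Hs where
  toFun := cH M i 1
  invFun := cH M i (-1)
  left_inv := cH_cH' M i
  right_inv := cH_cH M i 1

theorem cE_apply (M : Par) (i : Fin 4) (x : Hs) : cE M i x = cH M i 1 x := rfl

theorem cE_iso (M : Par) (i : Fin 4) : Iso (cE M i) := QQ_cH M i 1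

variable {M : Par} {X : N → Hs}

/-- The isometry `C` maps the star of the base vertex onto the star of the vertex `c i`. -/
structure IsC (M : Par) (X : N → Hs) (i : Fin 4) (C : Hs ≃ Hs) : Prop where
  iso : Iso C
  one : C oH = X (c i)
  st : ∀ k, C (vH M k) = X (c i * c k)

theorem exists_C (hX : Cfg X) (hN : Nm M X) (i : Fin 4) : ∃ C, IsC M X i C := by
  by_cases h2 : ∃ τ, Gs X (c i) τ
  · obtain ⟨τ, T, hT, h1⟩ := h2
    refine ⟨(pE τ⁻¹).trans T, (pE_iso _).trans hT, ?_, fun k => ?_⟩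
    · rw [Equiv.trans_apply, pE_apply, pH_oH, ← hN.one, h1, map_one, mul_one]
    · rw [Equiv.trans_apply, pE_apply, pH_vH, ← hN.st, h1, act_c]
      congr 2
      exact congrArg c (τ.apply_symm_apply k)
  · have h3 : ∀ π, Gs X (c i * c (π i)) π := by
      intro π
      have h4 := hX.idx (c i) (c i) π 1 (fun h => h2 ⟨π, h⟩) (fun h => h2 ⟨1, h⟩)
      rwa [inv_one, mul_one, c_inv, act_c] at h4
    have h4 : ∀ π : Equiv.Perm (Fin 4), ∃ T : Hs ≃ Hs, Iso T ∧ T (X (c i)) = X (c i) ∧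
        ∀ k, T (X (c i * c k)) = X (c i * c (π k)) := by
      intro π
      obtain ⟨T, hT, h1⟩ := h3 π
      refine ⟨T, hT, ?_, fun k => ?_⟩
      · rw [h1, act_c, mul_assoc, c_mul_self, mul_one]
      · rw [h1, map_mul, act_c, act_c, mul_assoc, ← mul_assoc (c (π i)), c_mul_self, one_mul]
    have h5 : ∀ k, QQ (X (c i)).1 (X (c i * c k)).1 = -(1 + 2 * M.s ^ 2) := by
      intro k
      obtain ⟨π, -, hπ⟩ := even_tr' i k
      obtain ⟨T, hT, e1, e2⟩ := h4 π
      have h6 := hT (X (c i)) (X (c i * c i))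
      rw [e1, e2, hπ, c_mul_self, hN.one, hN.st] at h6
      rw [hN.st, h6, QQ_vH_oH]
    have hne : X (c i * c 0) ≠ X (c i * c 1) := hX.ne' (c i) 0 1 (by decide)
    obtain ⟨κ, hκd⟩ : ∃ κ, κ = -QQ (X (c i * c 0)).1 (X (c i * c 1)).1 := ⟨_, rfl⟩
    have hκ : 1 < κ := by
      have h1 := QQ_le (X (c i * c 0)) (X (c i * c 1))
      have h2 : QQ (X (c i * c 0)).1 (X (c i * c 1)).1 ≠ -1 := fun h2 => hne (eq_of_QQ h2)
      have h3 : QQ (X (c i * c 0)).1 (X (c i * c 1)).1 < -1 := lt_of_le_of_ne h1 h2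
      linarith
    have h6 : ∀ j k, j ≠ k → QQ (X (c i * c j)).1 (X (c i * c k)).1 = -κ := by
      intro j k hjk
      obtain ⟨π, -, rfl, rfl⟩ := even_tr2 j k hjk
      obtain ⟨T, hT, e1, e2⟩ := h4 π
      have h6 := hT (X (c i * c 0)) (X (c i * c 1))
      rw [e2, e2] at h6
      rw [h6, hκd, neg_neg]
    have h7 := gram_rel (v := fun k => (X (c i * c k)).1) (o := (X (c i)).1) hκ
      (fun k => QQ_self _) h6 h5 (QQ_self _)
    have hκ' : κ = kap M := by
      unfold kap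
      linarith [show 4 * (1 + 2 * M.s ^ 2) ^ 2 - 1 = 3 + 16 * (M.s ^ 2 + M.s ^ 4) by ring]
    have hl : LinearIndependent ℝ fun k => (X (c i * c k)).1 :=
      lin_indep hκ (fun k => QQ_self _) h6
    obtain ⟨C, hC, h8⟩ := exists_iso_of_gram (v := fun k => vH M k)
      (w := fun k => X (c i * c k)) (vH_lin M) hl (fun j k => by
        by_cases hjk : j = k
        · subst hjk
          rw [QQ_self, QQ_self]
        · rw [h6 j k hjk, QQ_vH M hjk, hκ'])
    refine ⟨C, hC, ?_, h8⟩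
    refine pt_ext M (T := C) hC fun k => ?_
    rw [hC, h8 k, h5 k, QQ_comm oH.1, QQ_vH_oH]

/-- Conjugation by permutations which are symmetries. -/
theorem IsC.conj (hN : Nm M X) {i j : Fin 4} {C C' : Hs ≃ Hs} (hC : IsC M X i C)
    (hC' : IsC M X j C') {ρ : Equiv.Perm (Fin 4)} (hρ : Gs X 1 ρ) (hij : ρ i = j) (x : Hs) :
    C' x = pH ρ (C (pH ρ⁻¹ x)) := by
  subst hij
  refine iso_ext M (T := C') (U := fun x => pH ρ (C (pH ρ⁻¹ x))) hC'.iso (fun x y => ?_)
    (fun k => ?_) x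
  · rw [QQ_pH, hC.iso, QQ_pH]
  · show C' (vH M k) = pH ρ (C (pH ρ⁻¹ (vH M k)))
    rw [hC'.st, pH_vH, hC.st, ← hN.perm hρ, map_mul, act_c, act_c]
    congr 2
    exact congrArg c (ρ.apply_symm_apply k).symm

theorem fix0 : ∀ k : Fin 4, k ≠ 0 →
    ∃ ρ : Equiv.Perm (Fin 4), Equiv.Perm.sign ρ = 1 ∧ ρ 0 = 0 ∧ ρ 1 = k := by
  decide

/-- The coefficients. -/
theorem exists_M (hX : Cfg X) (hN : Nm M X) (ha : M.a = 1) (hb : M.b = 0) (hc : M.c = 0) :
    ∃ (M' : Par), Nm M' X ∧ M'.s = M.s ∧ ∀ i C, IsC M' X i C → ∀ x, C x = cH M' i 1 x := by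
  obtain ⟨C, hC⟩ := exists_C hX hN 0
  have hC0 : C (vH M 0) = oH := by rw [hC.st, c_mul_self, hN.one]
  have hC1 : C oH = vH M 0 := by rw [hC.one, hN.st]
  have hz1 : QQ (C (vH M 1)).1 oo = QQ (vH M 1).1 (vH M 0).1 := by
    have h := hC.iso (vH M 1) (vH M 0)
    rwa [hC0] at h
  have hw1 : QQ (cv M 0 1 (vH M 1).1) oo = QQ (vH M 1).1 (vH M 0).1 := by
    have h := QQ_cH M 0 1 (vH M 1) (vH M 0)
    have h1 : cH M 0 1 (vH M 0) = oH := by
      rw [← cH_oH M 0 (-1)]
      exact cH_cH M 0 1 oH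
    rwa [h1] at h
  have hz2 : QQ (C (vH M 1)).1 (vH M 0).1 = QQ (vH M 1).1 oo := by
    have h := hC.iso (vH M 1) oH
    rwa [hC1] at h
  have hw2 : QQ (cv M 0 1 (vH M 1).1) (vH M 0).1 = QQ (vH M 1).1 oo := QQ_cH M 0 1 (vH M 1) oH
  have hv : ∀ y : Fin 4 → ℝ, QQ y (vH M 0).1 = QQ y oo + 2 * M.s * ht M 0 y := by
    intro y
    rw [← QQ_nn, vH_val, QQ_comm, QQ_eq, QQ_eq, QQ_eq]
    ring
  have hs := M.hs
  obtain ⟨a, b, c', h, h', hz⟩ := exists_coeff ha hb hc (z := (C (vH M 1)).1) (QQ_self _)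
    (by
      rw [QQ_oo] at hz1 hw1
      linarith)
    (by
      have e1 := hv (C (vH M 1)).1
      have e2 := hv (cv M 0 1 (vH M 1).1)
      rw [hz1, hz2] at e1
      rw [hw1, hw2] at e2
      have e3 : 2 * M.s * ht M 0 (C (vH M 1)).1 =
          2 * M.s * ht M 0 (cv M 0 1 (vH M 1).1) := by linarith
      exact mul_left_cancel₀ (by positivity) e3)
  obtain ⟨M', hM'⟩ : ∃ M', M' = M.upd a b c' h h' := ⟨_, rfl⟩
  rw [← hM'] at hz
  have hvM : ∀ i, vH M' i = vH M i := fun i => by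
    rw [hM']
    exact vH_upd M a b c' h h' i
  have hN' : Nm M' X := ⟨hN.one, fun i => by rw [hN.st, hvM]⟩
  have hC' : IsC M' X 0 C := ⟨hC.iso, hC.one, fun k => by rw [hvM, hC.st]⟩
  have hCv1 : C (vH M' 1) = cH M' 0 1 (vH M' 1) := by
    rw [hvM]
    exact Subtype.ext hz
  have hC00 : ∀ x, C x = cH M' 0 1 x := by
    refine iso_ext M' hC.iso (QQ_cH M' 0 1) fun k => ?_
    by_cases hk : k = 0
    · subst hk
      rw [hvM, hC0, ← hvM, ← cH_oH M' 0 (-1)]
      exact (cH_cH M' 0 1 oH).symm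
    · obtain ⟨ρ, hρ, h0, h1⟩ := fix0 k hk
      have e1 := hC'.conj hN' hC' (hX.even hρ) h0 (vH M' k)
      have e2 : pH ρ⁻¹ (vH M' k) = vH M' 1 := by
        rw [← h1, ← pH_vH, pH_inv']
      rw [e1, e2, hCv1, cH_pH, pH_vH, h0, h1, hρ, one_mul]
  refine ⟨M', hN', by rw [hM']; rfl, fun i D hD x => ?_⟩
  obtain ⟨ρ, hρ, rfl⟩ := even_tr i
  rw [hC'.conj hN' hD (hX.even hρ) rfl x, hC00, cH_pH, pH_inv, hρ, one_mul]

/-- If the two coefficients are equal the sign is irrelevant. -/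
theorem cH_eq_of_bc (hbc : M.b = M.c) (i : Fin 4) (ε : ℤˣ) (x : Hs) : cH M i ε x = cH M i 1 x := by
  have h1 : cf M ε = cf M 1 := by
    rcases Int.units_eq_one_or ε with rfl | rfl
    · rfl
    · rw [cf_neg_one, cf_one, hbc]
  have h2 : cf M (-ε) = cf M (-1) := by
    rcases Int.units_eq_one_or ε with rfl | rfl
    · rfl
    · rw [neg_neg, cf_neg_one, cf_one, hbc]
  refine Subtype.ext ?_
  show cv M i ε x.1 = cv M i 1 x.1
  ext j
  unfold cv rot
  rw [h1, h2]

/-- The coefficients are equal if the rotatory reflection is an involution on one vertex. -/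
theorem bc_of_eq (h : cH M 0 1 (vH M 1) = cH M 0 (-1) (vH M 1)) : M.b = M.c := by
  obtain ⟨_, _, e3, _⟩ := cv_vH_coord M 1
  obtain ⟨_, _, f3, _⟩ := cv_vH_coord M (-1)
  have h1 : cv M 0 1 (vH M 1).1 = cv M 0 (-1) (vH M 1).1 := congrArg Subtype.val h
  rw [h1, f3, cf_one, cf_neg_one] at e3
  have hs := M.hs
  have hp := M.hp
  have h2 : 4 * M.s * M.p * M.b = 4 * M.s * M.p * M.c := by linarith
  exact mul_left_cancel₀ (by positivity) h2

/-- If the vertices are given by reflections with equal coefficients all pairs are symmetries. -/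
theorem all_of_bc (hX : Cfg X) (hN : Nm M X) (hbc : M.b = M.c)
    (h : ∀ i r, X (c i * r) = cH M i 1 (X r)) : False := by
  have h1 : ∀ i, Gs X (c i) 1 := fun i =>
    ⟨cE M i, cE_iso M i, fun r => by rw [act_one, h, cE_apply]⟩
  have h2 : ∀ τ : Equiv.Perm (Fin 4), Gs X 1 τ := by
    intro τ
    refine ⟨pE τ, pE_iso τ, fun r => ?_⟩
    rw [one_mul, pE_apply]
    refine ind (p := fun r => pH τ (X r) = X (act τ r)) r ?_ ?_
    · rw [map_one, hN.one, pH_oH]
    · intro i r ih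
      rw [h, cH_pH, ih, map_mul, act_c, h]
      exact cH_eq_of_bc hbc _ _ _
  obtain ⟨x, π, hx⟩ := hX.ex
  apply hx
  refine ind (p := fun x => Gs X x π) x (h2 π) fun i x ih => ?_
  have h3 := (h1 i).mul ih
  rwa [act_one, one_mul] at h3

theorem g_eq_of_bc (hbc : M.b = M.c) (ε : ℤˣ) (r : N) (x : Hs) : g M ε r x = g M 1 r x := by
  refine ind (p := fun r => ∀ ε : ℤˣ, g M ε r x = g M 1 r x) r ?_ ?_ ε
  · intro ε
    rw [g_one, g_one]
  · intro i r ih ε
    rw [g_c_mul, g_c_mul, cH_eq_of_bc hbc, ih, ih (-1)]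

theorem exists_odd : ∀ ρ : Equiv.Perm (Fin 4), Equiv.Perm.sign ρ ≠ 1 →
    Equiv.Perm.sign ρ = -1 := by
  intro ρ h
  rcases Int.units_eq_one_or (Equiv.Perm.sign ρ) with h1 | h1
  · exact absurd h1 h
  · exact h1

/-- The classification of the configurations. -/
theorem Cfg.classify (hX : Cfg X) : ∃ (M : Par) (U : Hs ≃ Hs), Iso U ∧ M.b ≠ M.c ∧
    ∀ r, U (X r) = bt M r := by
  obtain ⟨M₀, U, ha, hb, hc, hU, hN₀⟩ := hX.norm
  have hY := hX.conj hU
  obtain ⟨Y, hYd⟩ : ∃ Y : N → Hs, Y = fun r => U (X r) := ⟨_, rfl⟩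
  rw [← hYd] at hN₀ hY
  obtain ⟨M, hN, -, hM⟩ := exists_M hY hN₀ ha hb hc
  have hCi : ∀ i, IsC M Y i (cE M i) := by
    intro i
    obtain ⟨C, hC⟩ := exists_C hY hN i
    have h1 : C = cE M i := Equiv.ext fun x => hM i C hC x
    rw [← h1]
    exact hC
  suffices h : M.b ≠ M.c ∧ ∀ r, Y r = bt M r by
    refine ⟨M, U, hU, h.1, fun r => ?_⟩
    rw [← h.2, hYd]
  by_cases h1 : ∃ i, Gs Y (c i) 1
  · exfalso
    have h2 : ∀ i r, Y (c i * r) = cH M i 1 (Y r) := by
      intro j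
      have h3 : Gs Y (c j) 1 := by
        obtain ⟨i, hi⟩ := h1
        obtain ⟨ρ, hρ, rfl⟩ := even_tr' i j
        have h4 := ((hY.even hρ).mul hi).mul (hY.even hρ).inv1
        rwa [map_one, mul_one, mul_one, mul_inv_cancel, one_mul, act_c] at h4
      obtain ⟨T, hT, h4⟩ := h3
      have h5 : IsC M Y j T := ⟨hT, by rw [← hN.one, h4, act_one, mul_one], fun k => by
        rw [← hN.st, h4, act_one]⟩
      intro r
      rw [← hM j T h5, h4, act_one]
    refine all_of_bc hY hN (bc_of_eq ?_) h2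
    have h3 : cH M 0 1 (cH M 0 1 (vH M 1)) = vH M 1 := by
      rw [← hN.st, ← h2, ← h2, ← mul_assoc, c_mul_self, one_mul]
    have h4 := congrArg (cH M 0 (-1)) h3
    rwa [cH_cH'] at h4
  · have h1' : ∀ i, ¬ Gs Y (c i) 1 := fun i hi => h1 ⟨i, hi⟩
    by_cases h2 : ∃ τ : Equiv.Perm (Fin 4), Equiv.Perm.sign τ = -1 ∧ Gs Y 1 τ
    · exfalso
      obtain ⟨τ, hτ, hτ1⟩ := h2
      have h3 : ∀ π : Equiv.Perm (Fin 4), Gs Y 1 π := by
        intro π
        rcases Int.units_eq_one_or (Equiv.Perm.sign π) with hπ | hπ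
        · exact hY.even hπ
        · have h4 : Equiv.Perm.sign (τ⁻¹ * π) = 1 := by
            rw [map_mul, map_inv, hτ, hπ]
            decide
          have h5 := hτ1.mul1 (hY.even h4)
          rwa [mul_inv_cancel_left] at h5
      -- the coefficients are equal
      have hbc : M.b = M.c := by
        have h0 : (Equiv.swap (2 : Fin 4) 3) 0 = 0 := by decide
        have h11 : (Equiv.swap (2 : Fin 4) 3) 1 = 1 := by decide
        have hsg : Equiv.Perm.sign (Equiv.swap (2 : Fin 4) 3) = -1 := by decide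
        have h4 := (hCi 0).conj hN (hCi 0) (h3 (Equiv.swap 2 3)) h0 (vH M 1)
        have e2 : pH (Equiv.swap 2 3)⁻¹ (vH M 1) = vH M 1 := by
          have h6 : vH M 1 = pH (Equiv.swap 2 3) (vH M 1) := by rw [pH_vH, h11]
          conv_lhs => rw [h6]
          rw [pH_inv']
        rw [e2, cE_apply, cH_pH, pH_vH, h0, h11, hsg, one_mul] at h4
        exact bc_of_eq h4
      -- products of two generators
      have h5 : ∀ i j r, Y (c i * (c j * r)) = cH M i 1 (cH M j 1 (Y r)) := by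
        intro i j r
        have h6 : Gs Y (c i * c j) 1 := by
          have h7 := hY.idx (c i) (c j) 1 1 (h1' i) (h1' j)
          rwa [inv_one, mul_one, act_one, c_inv] at h7
        obtain ⟨T, hT, h7⟩ := h6
        obtain ⟨ρ, hρ, rfl⟩ := even_tr' i j
        have h8 : ∀ y, T (pH ρ (cH M i 1 y)) = cH M i 1 (pH ρ y) := by
          refine iso_ext M (T := fun y => T (pH ρ (cH M i 1 y)))
            (U := fun y => cH M i 1 (pH ρ y)) (fun x y => ?_) (fun x y => ?_) fun k => ?_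
          · rw [hT, QQ_pH, QQ_cH]
          · rw [QQ_cH, QQ_pH]
          · have e1 := (hCi i).st k
            have e2 := (hCi i).st (ρ k)
            rw [cE_apply] at e1 e2
            show T (pH ρ (cH M i 1 (vH M k))) = cH M i 1 (pH ρ (vH M k))
            rw [pH_vH, e1, e2, ← hN.perm (hY.even hρ), h7, act_one, map_mul, act_c, act_c,
              mul_assoc, ← mul_assoc (c (ρ i)) (c (ρ i)), c_mul_self, one_mul]
        have h9 := h8 (cH M i (-1) (pH ρ⁻¹ (Y r)))
        rw [cH_cH, pH_inv, h7, act_one, cH_pH, pH_inv, hρ, mul_one, cH_eq_of_bc hbc,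
          mul_assoc] at h9
        rw [h9, cH_eq_of_bc hbc (ρ i) (-1)]
      refine all_of_bc hY hN hbc fun i r => ?_
      refine ind (p := fun r => ∀ i, Y (c i * r) = cH M i 1 (Y r)) r ?_ ?_ i
      · intro i
        rw [mul_one, hN.st, hN.one, cH_oH]
      · intro j r ih i
        rw [h5, ih]
    · have h2' : ∀ τ : Equiv.Perm (Fin 4), Equiv.Perm.sign τ = -1 → ¬ Gs Y 1 τ :=
        fun τ hτ h => h2 ⟨τ, hτ, h⟩
      have h3 : ∀ i (τ : Equiv.Perm (Fin 4)), Equiv.Perm.sign τ = -1 → Gs Y (c i) τ := by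
        intro i τ hτ
        have h4 := hY.idx (c i) 1 1 τ⁻¹ (h1' i) (h2' τ⁻¹ (by rw [map_inv, hτ]; decide))
        rwa [inv_inv, one_mul, inv_one, map_one, mul_one] at h4
      have h4 : ∀ i (τ : Equiv.Perm (Fin 4)), Equiv.Perm.sign τ = -1 → ∀ r,
          Y (c i * r) = cH M i 1 (pH τ (Y (act τ⁻¹ r))) := by
        intro i τ hτ r
        obtain ⟨T, hT, h5⟩ := h3 i τ hτ
        have h6 : ∀ y, T y = cH M i 1 (pH τ y) := by
          refine iso_ext M (T := T) (U := fun y => cH M i 1 (pH τ y)) hT (fun x y => ?_)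
            fun k => ?_
          · rw [QQ_cH, QQ_pH]
          · have e2 := (hCi i).st (τ k)
            rw [cE_apply] at e2
            show T (vH M k) = cH M i 1 (pH τ (vH M k))
            rw [pH_vH, e2, ← hN.st, h5, act_c]
        rw [← h6, h5, act_act_inv]
      have key : ∀ r, ∀ π : Equiv.Perm (Fin 4), Y (act π r) = bt M (act π r) := by
        intro r
        refine ind (p := fun r => ∀ π : Equiv.Perm (Fin 4), Y (act π r) = bt M (act π r)) r ?_ ?_
        · intro π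
          rw [map_one, hN.one, bt_one]
        · intro i r ih π
          have hsg : Equiv.Perm.sign (Equiv.swap (2 : Fin 4) 3) = -1 := by decide
          rw [map_mul, act_c, h4 (π i) _ hsg, ← act_mul, ih, bt, g_pH, pH_oH, one_mul, hsg,
            act_mul, act_act_inv, bt, g_c_mul]
      have hYb : ∀ r, Y r = bt M r := by
        intro r
        have h5 := key r 1
        rwa [act_one] at h5
      refine ⟨fun hbc => ?_, hYb⟩
      have hsg : Equiv.Perm.sign (Equiv.swap (2 : Fin 4) 3) = -1 := by decide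
      apply h2' _ hsg
      refine ⟨pE (Equiv.swap 2 3), pE_iso _, fun r => ?_⟩
      rw [one_mul, pE_apply, hYb, hYb, bt, g_pH, pH_oH, g_eq_of_bc hbc]
      rfl

end Pool.Agent.Lib.MP_eed79e_coT
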