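import Mathlib

/-!
Hyperbolic 3-space, abstract polytopes, geometric 4-polytopes in hyperbolic 3-space and their
symmetries.
-/

namespace Pool.Agent.Lib.MP_eed79e_coT

/-- The Lorentz form on `ℝ⁴`. -/
def lor (x y : Fin 4 → ℝ) : ℝ := -(x 0 * y 0) + x 1 * y 1 + x 2 * y 2 + x 3 * y 3

/-- Hyperbolic 3-space, as the upper sheet of the hyperboloid `lor x x = -1`. -/
def H3 : Type := {x : Fin 4 → ℝ // lor x x = -1 ∧ 0 < x 0}

/-- The hyperbolic distance: `cosh (hdist x y) = - lor x y`. -/
noncomputable def hdist (x y : H3) : ℝ := Real.arcosh (-lor x.1 y.1)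

/-- Isometries of hyperbolic space. -/
def IsIsom (T : H3 ≃ H3) : Prop := ∀ x y, hdist (T x) (T y) = hdist x y

section

variable {P : Type} [PartialOrder P]

/-- The faces strictly between `F` and `G`. -/
def Between (F G : P) : Set P := {H | F < H ∧ H < G}

/-- Any two faces strictly between `F` and `G` are joined by a sequence of such faces in which
consecutive faces are incident. -/
def Connected (F G : P) : Prop :=
  ∀ H ∈ Between F G, ∀ H' ∈ Between F G,
    Relation.ReflTransGen (fun A B => A ∈ Between F G ∧ B ∈ Between F G ∧ (A ≤ B ∨ B ≤ A)) H H'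

/-- `P` with the rank function `rk` is an abstract `n`-polytope: least face of rank `-1`, greatest
face of rank `n`, every maximal chain has `n + 2` elements, diamond condition, connected sections. -/
structure IsPolytope (n : ℕ) [BoundedOrder P] (rk : P → ℤ) : Prop where
  strictMono : StrictMono rk
  bot : rk ⊥ = -1
  top : rk ⊤ = n
  chains : ∀ C : Set P, IsMaxChain (· ≤ ·) C → C.ncard = n + 2
  diamond : ∀ F G : P, F < G → rk G - rk F = 2 → (Between F G).ncard = 2
  connected : ∀ F G : P, F < G → 3 ≤ rk G - rk F → Connected F G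

/-- A flag of a 4-polytope, given by its faces of rank 0, 1, 2, 3. -/
structure Flag4 (rk : P → ℤ) where
  face : Fin 4 → P
  rank : ∀ i, rk (face i) = ((i : ℕ) : ℤ)
  mono : StrictMono face

/-- Combinatorially regular: the automorphisms are transitive on the flags. -/
def IsCombRegular (rk : P → ℤ) : Prop :=
  ∀ Φ Ψ : Flag4 rk, ∃ α : P ≃o P, ∀ i, α (Φ.face i) = Ψ.face i

/-- All vertex-figures are tetrahedra: the faces above a vertex are ordered as the subsets of a set
with four elements. -/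
def HasTetrahedralVertexFigures (rk : P → ℤ) : Prop :=
  ∀ v : P, rk v = 0 → Nonempty (Finset (Fin 4) ≃o Set.Ici v)

variable (rk : P → ℤ) (b : {v : P // rk v = 0} → H3)

/-- The representative of the edge `e`. -/
def rep1 (e : P) : Set H3 := {x | ∃ v : {v : P // rk v = 0}, v.1 ≤ e ∧ b v = x}

/-- The representative of the 2-face `f`. -/
def rep2 (f : P) : Set (Set H3) := {s | ∃ e : P, rk e = 1 ∧ e ≤ f ∧ rep1 rk b e = s}

/-- The representative of the 3-face `g`. -/
def rep3 (g : P) : Set (Set (Set H3)) := {s | ∃ f : P, rk f = 2 ∧ f ≤ g ∧ rep2 rk b f = s}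

/-- The realization is faithful. -/
structure IsFaithful : Prop where
  vertices : Function.Injective b
  edges : ∀ e e' : P, rk e = 1 → rk e' = 1 → rep1 rk b e = rep1 rk b e' → e = e'
  twofaces : ∀ f f' : P, rk f = 2 → rk f' = 2 → rep2 rk b f = rep2 rk b f' → f = f'
  facets : ∀ g g' : P, rk g = 3 → rk g' = 3 → rep3 rk b g = rep3 rk b g' → g = g'

/-- The set of the vertices is (closed and) discrete: it meets every ball in a finite set. -/
def IsDiscreteSet : Prop := ∀ (x : H3) (R : ℝ), {y | y ∈ Set.range b ∧ hdist x y ≤ R}.Finite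

/-- The isometry `T` maps the polytope realized by `b` onto the polytope realized by `b'`: for every
rank, the representatives of the faces onto the representatives of the faces. -/
structure Maps {P' : Type} [PartialOrder P'] (rk' : P' → ℤ) (T : H3 ≃ H3)
    (b' : {v : P' // rk' v = 0} → H3) : Prop where
  isom : IsIsom T
  vertices : T '' Set.range b = Set.range b'
  edges : (T '' ·) '' {s | ∃ e : P, rk e = 1 ∧ rep1 rk b e = s} =
    {s | ∃ e : P', rk' e = 1 ∧ rep1 rk' b' e = s}
  twofaces : ((T '' ·) '' ·) '' {s | ∃ f : P, rk f = 2 ∧ rep2 rk b f = s} =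
    {s | ∃ f : P', rk' f = 2 ∧ rep2 rk' b' f = s}
  facets : (((T '' ·) '' ·) '' ·) '' {s | ∃ g : P, rk g = 3 ∧ rep3 rk b g = s} =
    {s | ∃ g : P', rk' g = 3 ∧ rep3 rk' b' g = s}

/-- Some symmetry of the polytope realized by `b` maps the flag `Φ` to the flag `Ψ`. -/
def SameOrbit (Φ Ψ : Flag4 rk) : Prop :=
  ∃ T : H3 ≃ H3, Maps rk b rk T b ∧
    T (b ⟨Φ.face 0, Φ.rank 0⟩) = b ⟨Ψ.face 0, Ψ.rank 0⟩ ∧
    T '' rep1 rk b (Φ.face 1) = rep1 rk b (Ψ.face 1) ∧
    (T '' ·) '' rep2 rk b (Φ.face 2) = rep2 rk b (Ψ.face 2) ∧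
    ((T '' ·) '' ·) '' rep3 rk b (Φ.face 3) = rep3 rk b (Ψ.face 3)

/-- Geometrically two-orbit: the symmetries have exactly two orbits on the flags. -/
def IsTwoOrbit : Prop :=
  ∃ Φ Ψ : Flag4 rk, ¬ SameOrbit rk b Φ Ψ ∧ ∀ Θ, SameOrbit rk b Φ Θ ∨ SameOrbit rk b Ψ Θ

/-- Geometrically chiral: flags that differ in one face are in different orbits. -/
def IsChiral : Prop :=
  ∀ Φ Ψ : Flag4 rk, (∃ i, Φ.face i ≠ Ψ.face i ∧ ∀ j, j ≠ i → Φ.face j = Ψ.face j) →
    ¬ SameOrbit rk b Φ Ψ

end

end Pool.Agent.Lib.MP_eed79e_coT
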