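import Pool.Agent.Lib.MP_eed79e_coT.Poly

/-!
Permutations and subsets of `Fin 4`.
-/

namespace Pool.Agent.Lib.MP_eed79e_coT

theorem finset_map_mul (π σ : Equiv.Perm (Fin 4)) (S : Finset (Fin 4)) :
    (S.map σ.toEmbedding).map π.toEmbedding = S.map (π * σ).toEmbedding := by
  rw [Finset.map_map]
  rfl

theorem map_inv_map (π : Equiv.Perm (Fin 4)) (S : Finset (Fin 4)) :
    (S.map π.toEmbedding).map π⁻¹.toEmbedding = S := by
  rw [finset_map_mul, inv_mul_cancel]
  exact Finset.map_refl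

theorem act_mem_NS_iff (π : Equiv.Perm (Fin 4)) {S : Finset (Fin 4)} {x : N} :
    act π x ∈ NS (S.map π.toEmbedding) ↔ x ∈ NS S := by
  refine ⟨fun h => ?_, act_mem_NS π⟩
  have h1 := act_mem_NS π⁻¹ h
  rwa [map_inv_map, act_inv_act] at h1

/-- The numbers less than `i`. -/
def J (i : Fin 4) : Finset (Fin 4) := Finset.univ.filter fun j => (j : ℕ) < (i : ℕ)

theorem card_J (i : Fin 4) : (J i).card = (i : ℕ) := by
  revert i
  decide

theorem J_ssubset {i j : Fin 4} (h : i < j) : J i ⊂ J j := by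
  revert i j
  decide

theorem Flag4.ext' {P : Type} [PartialOrder P] {rk : P → ℤ} {Φ Ψ : Flag4 rk}
    (h : ∀ i, Φ.face i = Ψ.face i) : Φ = Ψ := by
  cases Φ
  cases Ψ
  have : _ = _ := funext h
  subst this
  rfl

theorem exists_perm {S1 S2 S3 : Finset (Fin 4)} (h1 : S1.card = 1) (h2 : S2.card = 2)
    (h3 : S3.card = 3) (h12 : S1 ⊆ S2) (h23 : S2 ⊆ S3) :
    ∃ σ : Equiv.Perm (Fin 4), (J 1).map σ.toEmbedding = S1 ∧ (J 2).map σ.toEmbedding = S2 ∧
      (J 3).map σ.toEmbedding = S3 := by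
  revert S1 S2 S3
  decide

theorem perm_one : ∀ π : Equiv.Perm (Fin 4), (∀ j, (J j).map π.toEmbedding = J j) → π = 1 := by
  decide

theorem perm_sign : ∀ (i : Fin 4) (π : Equiv.Perm (Fin 4)),
    (∀ j, j ≠ i → (J j).map π.toEmbedding = J j) → (J i).map π.toEmbedding ≠ J i →
      Equiv.Perm.sign π = -1 := by
  decide

theorem map_inv_mul {σ τ : Equiv.Perm (Fin 4)} {S : Finset (Fin 4)} :
    S.map (σ⁻¹ * τ).toEmbedding = S ↔ S.map σ.toEmbedding = S.map τ.toEmbedding := by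
  constructor
  · intro h
    rw [← h, finset_map_mul, mul_inv_cancel_left, h]
  · intro h
    rw [← finset_map_mul, ← h, map_inv_map]

end Pool.Agent.Lib.MP_eed79e_coT
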