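import Pool.Agent.Lib.MP_eed79e_coT.Flags

/-!
Frames and labellings of a polytope with tetrahedral vertex-figures.
-/

set_option linter.unusedSectionVars false

namespace Pool.Agent.Lib.MP_eed79e_coT

variable {P : Type} [PartialOrder P] [BoundedOrder P] {rk : P → ℤ}

/-- A labelling of the faces above a vertex by the subsets of `Fin 4`. -/
structure IsFr (rk : P → ℤ) (lam : Finset (Fin 4) → P) : Prop where
  le : ∀ S T, lam S ≤ lam T ↔ S ⊆ T
  surj : ∀ F, lam ∅ ≤ F → ∃ S, lam S = F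
  rank : rk (lam ∅) = 0

theorem exists_isFr (hT : HasTetrahedralVertexFigures rk) {v : P} (hv : rk v = 0) :
    ∃ lam, IsFr rk lam ∧ lam ∅ = v := by
  obtain ⟨e⟩ := hT v hv
  have h0 : (e ∅).1 = v := by
    refine le_antisymm ?_ (e ∅).2
    have h1 : e ∅ ≤ e (e.symm ⟨v, le_refl v⟩) := e.le_iff_le.2 (Finset.empty_subset _)
    rw [e.apply_symm_apply] at h1
    exact h1
  refine ⟨fun S => (e S).1, ⟨?_, ?_, ?_⟩, h0⟩
  · intro S T
    exact e.le_iff_le
  · intro F hF
    rw [h0] at hF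
    refine ⟨e.symm ⟨F, hF⟩, ?_⟩
    rw [e.apply_symm_apply]
  · show rk (e ∅).1 = 0
    rw [h0]
    exact hv

variable {lam lam' lam'' : Finset (Fin 4) → P}

theorem IsFr.inj (h : IsFr rk lam) {S T : Finset (Fin 4)} (hST : lam S = lam T) : S = T :=
  Finset.Subset.antisymm ((h.le S T).1 hST.le) ((h.le T S).1 hST.ge)

theorem IsFr.lt (h : IsFr rk lam) {S T : Finset (Fin 4)} : lam S < lam T ↔ S ⊂ T := by
  rw [lt_iff_le_and_ne, h.le, Finset.ssubset_iff_subset_ne]
  constructor
  · rintro ⟨h1, h2⟩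
    exact ⟨h1, fun h3 => h2 (by rw [h3])⟩
  · rintro ⟨h1, h2⟩
    exact ⟨h1, fun h3 => h2 (h.inj h3)⟩

theorem IsFr.univ (h : IsFr rk lam) : lam Finset.univ = ⊤ := by
  obtain ⟨S, hS⟩ := h.surj ⊤ le_top
  refine top_le_iff.1 ?_
  rw [← hS, h.le]
  exact Finset.subset_univ S

theorem IsFr.card (hP : IsPolytope 4 rk) (h : IsFr rk lam) (S : Finset (Fin 4)) :
    rk (lam S) = S.card := by
  have h1 : ∀ S : Finset (Fin 4), (S.card : ℤ) ≤ rk (lam S) := by
    intro S
    induction S using Finset.induction_on with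
    | empty => rw [h.rank, Finset.card_empty]; rfl
    | insert a S ha ih =>
      have h2 := hP.strictMono (h.lt.2 (Finset.ssubset_insert ha))
      rw [Finset.card_insert_of_notMem ha]
      push_cast
      omega
  have h2 : ∀ S : Finset (Fin 4), rk (lam Sᶜ) ≤ 4 - (S.card : ℤ) := by
    intro S
    induction S using Finset.induction_on with
    | empty =>
      rw [Finset.compl_empty, h.univ, hP.top, Finset.card_empty]
      norm_num
    | insert a S ha ih =>
      have h3 : (insert a S)ᶜ ⊂ Sᶜ := by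
        rw [Finset.ssubset_iff_subset_ne]
        refine ⟨Finset.compl_subset_compl.2 (Finset.subset_insert a S), fun h4 => ?_⟩
        have h5 : a ∈ (insert a S)ᶜ := by
          rw [h4, Finset.mem_compl]
          exact ha
        rw [Finset.mem_compl] at h5
        exact h5 (Finset.mem_insert_self a S)
      have h4 := hP.strictMono (h.lt.2 h3)
      rw [Finset.card_insert_of_notMem ha]
      push_cast
      omega
  have h3 := h2 Sᶜ
  rw [compl_compl] at h3
  have h4 := h1 S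
  have h5 : S.card + Sᶜ.card = 4 := by
    have := Finset.card_add_card_compl S
    rw [Fintype.card_fin] at this
    exact this
  omega

theorem map_singleton' (π : Equiv.Perm (Fin 4)) (j : Fin 4) :
    ({j} : Finset (Fin 4)).map π.toEmbedding = {π j} := by
  rw [Finset.map_singleton]
  rfl

theorem mem_map' (π : Equiv.Perm (Fin 4)) {S : Finset (Fin 4)} {j : Fin 4} :
    π j ∈ S.map π.toEmbedding ↔ j ∈ S := by
  rw [Finset.mem_map]
  constructor
  · rintro ⟨k, hk, h⟩
    have : k = j := π.injective h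
    rwa [← this]
  · intro h
    exact ⟨j, h, rfl⟩

theorem map_pair' (π : Equiv.Perm (Fin 4)) (i j : Fin 4) :
    ({i, j} : Finset (Fin 4)).map π.toEmbedding = {π i, π j} := by
  ext k
  obtain ⟨m, rfl⟩ := π.surjective k
  rw [mem_map', Finset.mem_insert, Finset.mem_singleton, Finset.mem_insert, Finset.mem_singleton,
    Equiv.apply_eq_iff_eq, Equiv.apply_eq_iff_eq]

/-- Two labellings at the same vertex differ by a permutation. -/
theorem fr_perm (hP : IsPolytope 4 rk) (h : IsFr rk lam) (h' : IsFr rk lam')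
    (h0 : lam ∅ = lam' ∅) :
    ∃ π : Equiv.Perm (Fin 4), ∀ S, lam' S = lam (S.map π.toEmbedding) := by
  have key : ∀ S, ∃ T, lam T = lam' S := fun S => by
    refine h.surj _ ?_
    rw [h0, h'.le]
    exact Finset.empty_subset S
  have hf : ∀ j : Fin 4, ∃ m, lam {m} = lam' {j} := by
    intro j
    obtain ⟨T, hT⟩ := key {j}
    have h1 := h.card hP T
    rw [hT, h'.card hP, Finset.card_singleton] at h1
    obtain ⟨m, rfl⟩ := Finset.card_eq_one.1 (show T.card = 1 by exact_mod_cast h1.symm)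
    exact ⟨m, hT⟩
  choose f hf using hf
  have hinj : Function.Injective f := by
    intro j j' hj
    have h1 := hf j
    rw [hj, hf j'] at h1
    exact (Finset.singleton_injective (h'.inj h1)).symm
  refine ⟨Equiv.ofBijective f (Finite.injective_iff_bijective.1 hinj), fun S => ?_⟩
  set π : Equiv.Perm (Fin 4) := Equiv.ofBijective f (Finite.injective_iff_bijective.1 hinj) with hπ
  obtain ⟨T, hT⟩ := key S
  rw [← hT]
  congr 1
  ext k
  obtain ⟨j, rfl⟩ := π.surjective k
  rw [mem_map', ← Finset.singleton_subset_iff, ← h.le, hT,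
    show lam {π j} = lam' {j} from hf j, h'.le, Finset.singleton_subset_iff]

/-- The labelling `lam'` at the other end of the edge `i`. -/
structure Cr (rk : P → ℤ) (i : Fin 4) (lam lam' : Finset (Fin 4) → P) : Prop where
  fr : IsFr rk lam'
  ne : lam' ∅ ≠ lam ∅
  eq : ∀ S, i ∈ S → lam' S = lam S

theorem mem_between_bot (hP : IsPolytope 4 rk) {e w : P} (he : rk e = 1) :
    w ∈ Between ⊥ e ↔ rk w = 0 ∧ w ≤ e := by
  constructor
  · rintro ⟨h1, h2⟩
    have h3 := hP.strictMono h1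
    have h4 := hP.strictMono h2
    rw [hP.bot] at h3
    exact ⟨by omega, h2.le⟩
  · rintro ⟨h1, h2⟩
    refine ⟨lt_of_le_of_ne bot_le ?_, lt_of_le_of_ne h2 ?_⟩
    · rintro rfl
      rw [hP.bot] at h1
      omega
    · rintro rfl
      omega

theorem two_vertices (hP : IsPolytope 4 rk) {e : P} (he : rk e = 1) {v w w' : P}
    (hv : rk v = 0) (hve : v ≤ e) (hw : rk w = 0) (hwe : w ≤ e) (hw' : rk w' = 0) (hwe' : w' ≤ e)
    (h1 : w ≠ v) (h2 : w' ≠ v) : w = w' := by
  have hlt : (⊥ : P) < e := by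
    refine lt_of_le_of_ne bot_le ?_
    rintro rfl
    rw [hP.bot] at he
    omega
  have hd := hP.diamond ⊥ e hlt (by rw [he, hP.bot]; norm_num)
  obtain ⟨x, y, hxy, hB⟩ := Set.ncard_eq_two.1 hd
  have m1 : v ∈ Between ⊥ e := (mem_between_bot hP he).2 ⟨hv, hve⟩
  have m2 : w ∈ Between ⊥ e := (mem_between_bot hP he).2 ⟨hw, hwe⟩
  have m3 : w' ∈ Between ⊥ e := (mem_between_bot hP he).2 ⟨hw', hwe'⟩
  rw [hB] at m1 m2 m3
  rcases m1 with rfl | m1 <;> rcases m2 with rfl | m2 <;> rcases m3 with rfl | m3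
  · rfl
  · exact absurd rfl h1
  · exact absurd rfl h2
  · rw [Set.mem_singleton_iff.1 m2, Set.mem_singleton_iff.1 m3]
  · rfl
  · exact absurd (Set.mem_singleton_iff.1 m3 |>.trans (Set.mem_singleton_iff.1 m1).symm) h2
  · exact absurd (Set.mem_singleton_iff.1 m2 |>.trans (Set.mem_singleton_iff.1 m1).symm) h1
  · rw [Set.mem_singleton_iff.1 m2, Set.mem_singleton_iff.1 m3]

theorem exists_other (hP : IsPolytope 4 rk) {e : P} (he : rk e = 1) (v : P) :
    ∃ w, rk w = 0 ∧ w ≤ e ∧ w ≠ v := by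
  have hlt : (⊥ : P) < e := by
    refine lt_of_le_of_ne bot_le ?_
    rintro rfl
    rw [hP.bot] at he
    omega
  have hd := hP.diamond ⊥ e hlt (by rw [he, hP.bot]; norm_num)
  obtain ⟨x, y, hxy, hB⟩ := Set.ncard_eq_two.1 hd
  have m2 : x ∈ Between ⊥ e := by rw [hB]; exact Or.inl rfl
  have m3 : y ∈ Between ⊥ e := by rw [hB]; exact Or.inr rfl
  rw [mem_between_bot hP he] at m2 m3
  by_cases h : x = v
  · refine ⟨y, m3.1, m3.2, ?_⟩
    rintro rfl
    exact hxy h
  · exact ⟨x, m2.1, m2.2, h⟩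

theorem exists_cr (hP : IsPolytope 4 rk) (hT : HasTetrahedralVertexFigures rk) (h : IsFr rk lam)
    (i : Fin 4) : ∃ lam', Cr rk i lam lam' := by
  have he : rk (lam {i}) = 1 := by
    rw [h.card hP, Finset.card_singleton]
    rfl
  obtain ⟨w, hw, hwe, hwv⟩ := exists_other hP he (lam ∅)
  obtain ⟨μ, hμ, hμw⟩ := exists_isFr hT hw
  obtain ⟨K, hK⟩ := hμ.surj (lam {i}) (by rw [hμw]; exact hwe)
  have hKc : K.card = 1 := by
    have h1 := hμ.card hP K
    rw [hK, he] at h1
    exact_mod_cast h1.symm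
  obtain ⟨k, rfl⟩ := Finset.card_eq_one.1 hKc
  have key : ∀ S, i ∈ S → ∃ T, μ T = lam S ∧ k ∈ T := by
    intro S hS
    have h1 : lam {i} ≤ lam S := (h.le _ _).2 (Finset.singleton_subset_iff.2 hS)
    obtain ⟨T, hT'⟩ := hμ.surj (lam S) (by rw [hμw]; exact hwe.trans h1)
    refine ⟨T, hT', ?_⟩
    rw [← hK, ← hT', hμ.le, Finset.singleton_subset_iff] at h1
    exact h1
  have hf : ∀ j : Fin 4, ∃ m, μ {k, m} = lam {i, j} := by
    intro j
    obtain ⟨T, hT', hkT⟩ := key {i, j} (Finset.mem_insert_self _ _)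
    by_cases hji : j = i
    · refine ⟨k, ?_⟩
      rw [hji, Finset.pair_eq_singleton, Finset.pair_eq_singleton]
      exact hK
    · have h1 := hμ.card hP T
      rw [hT', h.card hP, Finset.card_pair (Ne.symm hji)] at h1
      have h2 : T.card = 2 := by exact_mod_cast h1.symm
      have h3 : (T.erase k).card = 1 := by rw [Finset.card_erase_of_mem hkT, h2]
      obtain ⟨m, hm⟩ := Finset.card_eq_one.1 h3
      refine ⟨m, ?_⟩
      rw [← hT', ← Finset.insert_erase hkT, hm]
  choose f hf using hf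
  have hfi : f i = k := by
    have h1 := hf i
    rw [Finset.pair_eq_singleton, ← hK] at h1
    have h2 := hμ.inj h1
    have h3 : f i ∈ ({k} : Finset (Fin 4)) := by
      rw [← h2]
      exact Finset.mem_insert_of_mem (Finset.mem_singleton_self _)
    exact Finset.mem_singleton.1 h3
  have hinj : Function.Injective f := by
    intro j j' hj
    have h1 := hf j
    rw [hj, hf j'] at h1
    have h2 := h.inj h1
    have h3 : j ∈ ({i, j'} : Finset (Fin 4)) := by
      rw [h2]
      exact Finset.mem_insert_of_mem (Finset.mem_singleton_self _)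
    have h4 : j' ∈ ({i, j} : Finset (Fin 4)) := by
      rw [← h2]
      exact Finset.mem_insert_of_mem (Finset.mem_singleton_self _)
    rw [Finset.mem_insert, Finset.mem_singleton] at h3 h4
    rcases h3 with h3 | h3
    · rcases h4 with h4 | h4
      · rw [h3, h4]
      · exact h4.symm
    · exact h3
  set π : Equiv.Perm (Fin 4) := Equiv.ofBijective f (Finite.injective_iff_bijective.1 hinj) with hπ
  refine ⟨fun S => μ (S.map π.toEmbedding), ⟨?_, ?_, ?_⟩, ?_, ?_⟩
  · intro S T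
    rw [hμ.le, Finset.map_subset_map]
  · intro F hF
    rw [Finset.map_empty] at hF
    obtain ⟨T, hT'⟩ := hμ.surj F hF
    refine ⟨T.map π⁻¹.toEmbedding, ?_⟩
    rw [← hT']
    congr 1
    ext k
    obtain ⟨j, rfl⟩ := π.surjective k
    rw [mem_map']
    have h5 : j = π⁻¹ (π j) := (Equiv.symm_apply_apply π j).symm
    rw [h5, mem_map']
    rw [← h5]
  · rw [Finset.map_empty, hμw]
    exact hw
  · rw [Finset.map_empty, hμw]
    exact hwv
  · intro S hS
    obtain ⟨T, hT', hkT⟩ := key S hS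
    rw [← hT']
    congr 1
    ext m
    obtain ⟨j, rfl⟩ := π.surjective m
    have h6 : π j ∈ T ↔ ({k, f j} : Finset (Fin 4)) ⊆ T := by
      rw [Finset.insert_subset_iff, Finset.singleton_subset_iff]
      exact ⟨fun h => ⟨hkT, h⟩, fun h => h.2⟩
    rw [mem_map', h6, ← hμ.le, hT', hf j, h.le, Finset.insert_subset_iff,
      Finset.singleton_subset_iff]
    exact ⟨fun h => ⟨hS, h⟩, fun h => h.2⟩

theorem cr_unique (hP : IsPolytope 4 rk) (h : IsFr rk lam) {i : Fin 4} (h1 : Cr rk i lam lam')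
    (h2 : Cr rk i lam lam'') : lam' = lam'' := by
  have he : rk (lam {i}) = 1 := by
    rw [h.card hP, Finset.card_singleton]
    rfl
  have hle : ∀ μ, Cr rk i lam μ → μ ∅ ≤ lam {i} := fun μ hμ => by
    rw [← hμ.eq {i} (Finset.mem_singleton_self i), hμ.fr.le]
    exact Finset.empty_subset _
  have h0 : lam' ∅ = lam'' ∅ := two_vertices hP he h.rank
    ((h.le _ _).2 (Finset.empty_subset _)) h1.fr.rank (hle _ h1) h2.fr.rank (hle _ h2) h1.ne h2.ne
  obtain ⟨π, hπ⟩ := fr_perm hP h1.fr h2.fr h0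
  have h3 : ∀ S : Finset (Fin 4), i ∈ S → S.map π.toEmbedding = S := by
    intro S hS
    apply h1.fr.inj
    rw [← hπ, h1.eq S hS, h2.eq S hS]
  have h4 : π i = i := by
    have h5 := h3 {i} (Finset.mem_singleton_self i)
    rw [map_singleton'] at h5
    exact Finset.singleton_injective h5
  have h5 : π = 1 := by
    ext1 j
    rw [Equiv.Perm.one_apply]
    by_cases hj : j = i
    · rw [hj, h4]
    · have h6 := h3 {i, j} (Finset.mem_insert_self _ _)
      have h7 : π j ∈ ({i, j} : Finset (Fin 4)) := by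
        rw [← h6, mem_map']
        exact Finset.mem_insert_of_mem (Finset.mem_singleton_self _)
      rw [Finset.mem_insert, Finset.mem_singleton] at h7
      rcases h7 with h7 | h7
      · rw [← h4] at h7
        exact absurd (π.injective h7) hj
      · exact h7
  funext S
  rw [hπ, h5]
  congr 1
  exact Finset.map_refl.symm

theorem Cr.symm {i : Fin 4} (h : IsFr rk lam) (h1 : Cr rk i lam lam') : Cr rk i lam' lam :=
  ⟨h, h1.ne.symm, fun S hS => (h1.eq S hS).symm⟩

/-- Labellings of the whole polytope. -/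
structure Lab (rk : P → ℤ) (L : N → Finset (Fin 4) → P) : Prop where
  fr : ∀ r, IsFr rk (L r)
  step : ∀ r i S, i ∈ S → L (r * c i) S = L r S
  ne : ∀ r i, L (r * c i) ∅ ≠ L r ∅

theorem Lab.cr {L : N → Finset (Fin 4) → P} (h : Lab rk L) (r : N) (i : Fin 4) :
    Cr rk i (L r) (L (r * c i)) := ⟨h.fr _, h.ne r i, h.step r i⟩

theorem exists_lab (hP : IsPolytope 4 rk) (hT : HasTetrahedralVertexFigures rk) (h : IsFr rk lam) :
    ∃ L : N → Finset (Fin 4) → P, Lab rk L ∧ L 1 = lam := by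
  classical
  have hex : ∀ (i : Fin 4) (μ : {μ : Finset (Fin 4) → P // IsFr rk μ}),
      ∃ μ' : {μ : Finset (Fin 4) → P // IsFr rk μ}, Cr rk i μ.1 μ'.1 := by
    intro i μ
    obtain ⟨μ', h1⟩ := exists_cr hP hT μ.2 i
    exact ⟨⟨μ', h1.fr⟩, h1⟩
  choose κ hκ using hex
  have hinv : ∀ i μ, κ i (κ i μ) = μ := by
    intro i μ
    exact Subtype.ext (cr_unique hP (κ i μ).2 (hκ i (κ i μ)) ((hκ i μ).symm μ.2))
  let κE : Fin 4 → Equiv.Perm {μ : Finset (Fin 4) → P // IsFr rk μ} := fun i =>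
    ⟨κ i, κ i, hinv i, hinv i⟩
  have hκE : ∀ i, κE i * κE i = 1 := by
    intro i
    ext1 μ
    exact hinv i μ
  let ρ := lift κE hκE
  refine ⟨fun r => (ρ r⁻¹ ⟨lam, h⟩).1, ⟨fun r => (ρ r⁻¹ ⟨lam, h⟩).2, ?_, ?_⟩, ?_⟩
  · intro r i S hS
    have h1 : ρ (r * c i)⁻¹ ⟨lam, h⟩ = κ i (ρ r⁻¹ ⟨lam, h⟩) := by
      rw [mul_inv_rev, c_inv, map_mul, Equiv.Perm.mul_apply]
      show (lift κE hκE (c i)) _ = _
      rw [lift_c]
      rfl
    show (ρ (r * c i)⁻¹ ⟨lam, h⟩).1 S = _
    rw [h1]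
    exact (hκ i _).eq S hS
  · intro r i
    have h1 : ρ (r * c i)⁻¹ ⟨lam, h⟩ = κ i (ρ r⁻¹ ⟨lam, h⟩) := by
      rw [mul_inv_rev, c_inv, map_mul, Equiv.Perm.mul_apply]
      show (lift κE hκE (c i)) _ = _
      rw [lift_c]
      rfl
    show (ρ (r * c i)⁻¹ ⟨lam, h⟩).1 ∅ ≠ _
    rw [h1]
    exact (hκ i _).ne
  · show (ρ (1 : N)⁻¹ ⟨lam, h⟩).1 = lam
    rw [inv_one, map_one]
    rfl

end Pool.Agent.Lib.MP_eed79e_coT
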