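import Mathlib

/-!
The free product `N` of four groups of order two, generated by the involutions `c i`, `i < 4`.
-/

namespace Pool.Agent.Lib.MP_eed79e_coT

/-- The Coxeter matrix with all products of two different generators of infinite order. -/
def cm : CoxeterMatrix (Fin 4) where
  M := Matrix.of fun i j => if i = j then 1 else 0
  isSymm := by
    ext i j
    simp [Matrix.transpose_apply, eq_comm]
  diagonal i := by simp
  off_diagonal i j h := by simp [h]

/-- The free product of four groups of order two. -/
abbrev N : Type := cm.Group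

/-- The Coxeter system of `N`. -/
noncomputable def cs : CoxeterSystem cm N := cm.toCoxeterSystem

/-- The generators. -/
noncomputable def c (i : Fin 4) : N := cs.simple i

theorem c_mul_self (i : Fin 4) : c i * c i = 1 := cs.simple_mul_simple_self i

theorem c_inv (i : Fin 4) : (c i)⁻¹ = c i := inv_eq_of_mul_eq_one_left (c_mul_self i)

theorem isLiftable {G : Type*} [Monoid G] (f : Fin 4 → G) (hf : ∀ i, f i * f i = 1) :
    cm.IsLiftable f := by
  intro i j
  by_cases h : i = j
  · subst h
    rw [cm.diagonal, pow_one, hf]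
  · have h1 : cm.M i j = 0 := by simp [cm, h]
    have h2 : cm i j = 0 := h1
    rw [h2, pow_zero]

/-- The universal property. -/
noncomputable def lift {G : Type*} [Monoid G] (f : Fin 4 → G) (hf : ∀ i, f i * f i = 1) : N →* G :=
  cs.lift ⟨f, isLiftable f hf⟩

theorem lift_c {G : Type*} [Monoid G] (f : Fin 4 → G) (hf : ∀ i, f i * f i = 1) (i : Fin 4) :
    lift f hf (c i) = f i := cs.lift_apply_simple (isLiftable f hf) i

theorem ind {p : N → Prop} (x : N) (one : p 1) (mul : ∀ i x, p x → p (c i * x)) : p x :=
  cs.simple_induction_left x one (fun w i h => mul i w h)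

theorem hom_ext {G : Type*} [Monoid G] {f g : N →* G} (h : ∀ i, f (c i) = g (c i)) : f = g := by
  ext x
  refine ind (p := fun x => f x = g x) x ?_ ?_
  · rw [map_one, map_one]
  · intro i x hx
    rw [map_mul, map_mul, h, hx]

/-- The parity. -/
noncomputable def sg : N →* ℤˣ := lift (fun _ => -1) (fun _ => by decide)

theorem sg_c (i : Fin 4) : sg (c i) = -1 := lift_c _ _ i

/-- The parity of the number of the generators `c i`. -/
noncomputable def chi (i : Fin 4) : N →* ℤˣ :=
  lift (fun j => if j = i then -1 else 1) (fun j => by split_ifs <;> decide)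

theorem chi_c (i j : Fin 4) : chi i (c j) = if j = i then -1 else 1 := lift_c _ _ j

theorem c_ne_one (i : Fin 4) : c i ≠ 1 := by
  intro h
  have h1 := congrArg sg h
  rw [sg_c, map_one] at h1
  exact absurd h1 (by decide)

/-- The action of the permutations of the generators. -/
noncomputable def act (π : Equiv.Perm (Fin 4)) : N →* N :=
  lift (fun i => c (π i)) (fun i => c_mul_self (π i))

theorem act_c (π : Equiv.Perm (Fin 4)) (i : Fin 4) : act π (c i) = c (π i) := lift_c _ _ i

theorem act_one (x : N) : act 1 x = x := by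
  have h : act 1 = MonoidHom.id N := hom_ext fun i => by rw [act_c]; rfl
  rw [h]
  rfl

theorem act_mul (π σ : Equiv.Perm (Fin 4)) (x : N) : act (π * σ) x = act π (act σ x) := by
  have h : act (π * σ) = (act π).comp (act σ) := hom_ext fun i => by
    rw [act_c, MonoidHom.comp_apply, act_c, act_c]
    rfl
  rw [h]
  rfl

theorem act_inv_act (π : Equiv.Perm (Fin 4)) (x : N) : act π⁻¹ (act π x) = x := by
  rw [← act_mul, inv_mul_cancel, act_one]

theorem act_act_inv (π : Equiv.Perm (Fin 4)) (x : N) : act π (act π⁻¹ x) = x := by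
  rw [← act_mul, mul_inv_cancel, act_one]

theorem sg_act (π : Equiv.Perm (Fin 4)) (x : N) : sg (act π x) = sg x := by
  have h : sg.comp (act π) = sg := hom_ext fun i => by
    rw [MonoidHom.comp_apply, act_c, sg_c, sg_c]
  exact DFunLike.congr_fun h x

/-- The subgroup generated by the `c i`, `i ∈ S`. -/
noncomputable def NS (S : Finset (Fin 4)) : Subgroup N := Subgroup.closure (c '' S)

theorem c_mem {S : Finset (Fin 4)} {i : Fin 4} (h : i ∈ S) : c i ∈ NS S :=
  Subgroup.subset_closure ⟨i, h, rfl⟩

theorem NS_mono {S T : Finset (Fin 4)} (h : S ⊆ T) : NS S ≤ NS T :=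
  Subgroup.closure_mono (Set.image_mono (Finset.coe_subset.2 h))

theorem c_mem_iff {S : Finset (Fin 4)} {i : Fin 4} : c i ∈ NS S ↔ i ∈ S := by
  refine ⟨fun h => ?_, c_mem⟩
  by_contra hi
  have h1 : NS S ≤ (chi i).ker := by
    refine (Subgroup.closure_le _).2 ?_
    rintro _ ⟨j, hj, rfl⟩
    show chi i (c j) = 1
    have hji : j ≠ i := fun h2 => hi (by rw [← h2]; exact hj)
    rw [chi_c, if_neg hji]
  have h2 : chi i (c i) = 1 := h1 h
  rw [chi_c, if_pos rfl] at h2
  exact absurd h2 (by decide)

theorem NS_univ : NS Finset.univ = ⊤ := by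
  rw [eq_top_iff]
  intro x _
  refine ind (p := fun x => x ∈ NS Finset.univ) x (Subgroup.one_mem _) fun i x hx => ?_
  exact Subgroup.mul_mem _ (c_mem (Finset.mem_univ i)) hx

theorem NS_empty : NS ∅ = ⊥ := by
  unfold NS
  rw [Finset.coe_empty, Set.image_empty, Subgroup.closure_empty]

theorem mem_NS_singleton {i : Fin 4} {x : N} : x ∈ NS {i} ↔ x = 1 ∨ x = c i := by
  constructor
  · intro h
    unfold NS at h
    rw [Finset.coe_singleton, Set.image_singleton] at h
    refine Subgroup.closure_induction (p := fun x _ => x = 1 ∨ x = c i) ?_ ?_ ?_ ?_ h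
    · intro y hy
      exact Or.inr hy
    · exact Or.inl rfl
    · rintro y z _ _ (rfl | rfl) (rfl | rfl)
      · left
        rw [mul_one]
      · right
        rw [one_mul]
      · right
        rw [mul_one]
      · left
        rw [c_mul_self]
    · rintro y _ (rfl | rfl)
      · left
        rw [inv_one]
      · right
        rw [c_inv]
  · rintro (rfl | rfl)
    · exact Subgroup.one_mem _
    · exact c_mem (Finset.mem_singleton_self i)

theorem act_mem_NS (π : Equiv.Perm (Fin 4)) {S : Finset (Fin 4)} {x : N} (h : x ∈ NS S) :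
    act π x ∈ NS (S.map π.toEmbedding) := by
  have h1 : NS S ≤ (NS (S.map π.toEmbedding)).comap (act π) := by
    refine (Subgroup.closure_le _).2 ?_
    rintro _ ⟨j, hj, rfl⟩
    show act π (c j) ∈ NS _
    rw [act_c]
    exact c_mem (Finset.mem_map.2 ⟨j, hj, rfl⟩)
  exact h1 h

/-- Elements are products of reduced words. -/
theorem exists_reduced (x : N) : ∃ l : List (Fin 4), l.IsChain (· ≠ ·) ∧ x = (l.map c).prod := by
  refine ind (p := fun x => ∃ l : List (Fin 4), l.IsChain (· ≠ ·) ∧ x = (l.map c).prod) x
    ⟨[], by simp, by simp⟩ ?_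
  rintro i x ⟨l, hl, rfl⟩
  cases l with
  | nil => exact ⟨[i], by simp, by simp⟩
  | cons j l =>
    by_cases h : i = j
    · subst h
      refine ⟨l, ?_, ?_⟩
      · cases l with
        | nil => simp
        | cons k l => exact (List.isChain_cons_cons.1 hl).2
      · rw [List.map_cons, List.prod_cons, ← mul_assoc, c_mul_self, one_mul]
    · refine ⟨i :: j :: l, List.isChain_cons_cons.2 ⟨h, hl⟩, ?_⟩
      simp only [List.map_cons, List.prod_cons]

end Pool.Agent.Lib.MP_eed79e_coT
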