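import Pool.Agent.Lib.MP_eed79e_coT.Defs
import Pool.Agent.Lib.MP_eed79e_coT.Vec

/-!
Hyperbolic space in the tetrahedral coordinates.
-/

namespace Pool.Agent.Lib.MP_eed79e_coT

/-- The change of coordinates. -/
noncomputable def had (v : Fin 4 → ℝ) : Fin 4 → ℝ :=
  ![(v 0 + v 1 + v 2 + v 3) / 2, (v 0 + v 1 - v 2 - v 3) / 2, (v 0 - v 1 + v 2 - v 3) / 2,
    (v 0 - v 1 - v 2 + v 3) / 2]

theorem had_apply (v : Fin 4 → ℝ) : had v 0 = (v 0 + v 1 + v 2 + v 3) / 2 ∧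
    had v 1 = (v 0 + v 1 - v 2 - v 3) / 2 ∧ had v 2 = (v 0 - v 1 + v 2 - v 3) / 2 ∧
    had v 3 = (v 0 - v 1 - v 2 + v 3) / 2 := ⟨rfl, rfl, rfl, rfl⟩

theorem had_had (v : Fin 4 → ℝ) : had (had v) = v := by
  obtain ⟨h0, h1, h2, h3⟩ := had_apply v
  obtain ⟨k0, k1, k2, k3⟩ := had_apply (had v)
  ext j
  fin_cases j
  · show had (had v) 0 = v 0
    rw [k0, h0, h1, h2, h3]
    ring
  · show had (had v) 1 = v 1
    rw [k1, h0, h1, h2, h3]
    ring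
  · show had (had v) 2 = v 2
    rw [k2, h0, h1, h2, h3]
    ring
  · show had (had v) 3 = v 3
    rw [k3, h0, h1, h2, h3]
    ring

theorem lor_had (x y : Fin 4 → ℝ) : lor (had x) (had y) = QQ x y := by
  obtain ⟨h0, h1, h2, h3⟩ := had_apply x
  obtain ⟨k0, k1, k2, k3⟩ := had_apply y
  unfold lor
  rw [h0, h1, h2, h3, k0, k1, k2, k3, QQ_eq]
  ring

theorem QQ_had (x y : Fin 4 → ℝ) : QQ (had x) (had y) = lor x y := by
  rw [← lor_had, had_had, had_had]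

theorem had_zero (x : Fin 4 → ℝ) : had x 0 = sm x / 2 := by
  rw [(had_apply x).1, sm_eq]

theorem sm_had (x : Fin 4 → ℝ) : sm (had x) = 2 * x 0 := by
  have h := had_zero (had x)
  rw [had_had] at h
  linarith

/-- Hyperbolic space in the new coordinates. -/
def Hs : Type := {x : Fin 4 → ℝ // QQ x x = -1 ∧ 0 < sm x}

/-- The change of coordinates. -/
noncomputable def eH : Hs ≃ H3 where
  toFun x := ⟨had x.1, by rw [lor_had]; exact x.2.1, by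
    rw [had_zero]
    have := x.2.2
    linarith⟩
  invFun x := ⟨had x.1, by rw [QQ_had]; exact x.2.1, by
    rw [sm_had]
    have := x.2.2
    linarith⟩
  left_inv x := Subtype.ext (had_had x.1)
  right_inv x := Subtype.ext (had_had x.1)

theorem lor_eH (x y : Hs) : lor (eH x).1 (eH y).1 = QQ x.1 y.1 := lor_had x.1 y.1

theorem QQ_eH_symm (x y : H3) : QQ (eH.symm x).1 (eH.symm y).1 = lor x.1 y.1 := QQ_had x.1 y.1

theorem lor_le (x y : H3) : lor x.1 y.1 ≤ -1 := by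
  obtain ⟨x, hx, hx0⟩ := x
  obtain ⟨y, hy, hy0⟩ := y
  show lor x y ≤ -1
  unfold lor at hx hy ⊢
  have h1 : (x 1 * y 1 + x 2 * y 2 + x 3 * y 3) ^ 2 ≤
      (x 1 ^ 2 + x 2 ^ 2 + x 3 ^ 2) * (y 1 ^ 2 + y 2 ^ 2 + y 3 ^ 2) := by
    nlinarith [sq_nonneg (x 1 * y 2 - x 2 * y 1), sq_nonneg (x 1 * y 3 - x 3 * y 1),
      sq_nonneg (x 2 * y 3 - x 3 * y 2)]
  have h2 : x 1 ^ 2 + x 2 ^ 2 + x 3 ^ 2 = x 0 ^ 2 - 1 := by nlinarith
  have h3 : y 1 ^ 2 + y 2 ^ 2 + y 3 ^ 2 = y 0 ^ 2 - 1 := by nlinarith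
  have h4 : 1 ≤ x 0 := by nlinarith [sq_nonneg (x 1), sq_nonneg (x 2), sq_nonneg (x 3)]
  have h5 : 1 ≤ y 0 := by nlinarith [sq_nonneg (y 1), sq_nonneg (y 2), sq_nonneg (y 3)]
  rw [h2, h3] at h1
  have h6 : 0 ≤ x 0 * y 0 - 1 := by nlinarith
  have h7 : (x 1 * y 1 + x 2 * y 2 + x 3 * y 3) ^ 2 ≤ (x 0 * y 0 - 1) ^ 2 := by
    nlinarith [sq_nonneg (x 0 - y 0)]
  have h8 := abs_le_of_sq_le_sq h7 h6
  linarith [le_abs_self (x 1 * y 1 + x 2 * y 2 + x 3 * y 3)]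

theorem QQ_le (x y : Hs) : QQ x.1 y.1 ≤ -1 := by
  rw [← lor_eH]
  exact lor_le _ _

/-- The base vertex. -/
noncomputable def oH : Hs := ⟨oo, by rw [QQ_oo, sm_oo]; norm_num, by rw [sm_oo]; norm_num⟩

theorem two_le_sm (x : Hs) : 2 ≤ sm x.1 := by
  have h1 := QQ_le x oH
  have h2 : QQ x.1 oH.1 = -(sm x.1 / 2) := QQ_oo x.1
  linarith

theorem hdist_eq_iff (x y z w : H3) : hdist x y = hdist z w ↔ lor x.1 y.1 = lor z.1 w.1 := by
  unfold hdist
  constructor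
  · intro h
    have h1 : (1 : ℝ) ≤ -lor x.1 y.1 := by have := lor_le x y; linarith
    have h2 : (1 : ℝ) ≤ -lor z.1 w.1 := by have := lor_le z w; linarith
    have h3 := congrArg Real.cosh h
    rw [Real.cosh_arcosh h1, Real.cosh_arcosh h2] at h3
    linarith
  · intro h
    rw [h]

theorem isIsom_iff (T : H3 ≃ H3) : IsIsom T ↔ ∀ x y, lor (T x).1 (T y).1 = lor x.1 y.1 := by
  unfold IsIsom
  exact forall₂_congr fun x y => hdist_eq_iff _ _ _ _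

theorem neg_lor_le {x y : H3} {R : ℝ} (h : hdist x y ≤ R) : -lor x.1 y.1 ≤ Real.cosh R := by
  have h1 : (1 : ℝ) ≤ -lor x.1 y.1 := by have := lor_le x y; linarith
  have h2 : 0 ≤ hdist x y := Real.arcosh_nonneg h1
  have h3 : Real.cosh (hdist x y) = -lor x.1 y.1 := Real.cosh_arcosh h1
  rw [← h3, Real.cosh_le_cosh, abs_of_nonneg h2, abs_of_nonneg (h2.trans h)]
  exact h

theorem pos_pair (x : Hs) {k l : Fin 4} (h : k ≠ l) : 0 < x.1 k + x.1 l := by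
  obtain ⟨x, hx, hx0⟩ := x
  show 0 < x k + x l
  rw [QQ_eq] at hx
  rw [sm_eq] at hx0
  have key : ∀ A B : ℝ, 0 < A + B → 0 < A * B → 0 < A := by
    intro A B h1 h2
    by_contra h3
    push Not at h3
    have h4 : 0 < B := by linarith
    nlinarith
  have h01 : 0 < (x 0 + x 1) * (x 2 + x 3) := by
    nlinarith [sq_nonneg (x 0 - x 1), sq_nonneg (x 2 - x 3)]
  have h02 : 0 < (x 0 + x 2) * (x 1 + x 3) := by
    nlinarith [sq_nonneg (x 0 - x 2), sq_nonneg (x 1 - x 3)]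
  have h03 : 0 < (x 0 + x 3) * (x 1 + x 2) := by
    nlinarith [sq_nonneg (x 0 - x 3), sq_nonneg (x 1 - x 2)]
  have a01 := key _ _ (by linarith : 0 < (x 0 + x 1) + (x 2 + x 3)) h01
  have a23 := key _ _ (by linarith : 0 < (x 2 + x 3) + (x 0 + x 1)) (by linarith [mul_comm (x 0 + x 1) (x 2 + x 3)])
  have a02 := key _ _ (by linarith : 0 < (x 0 + x 2) + (x 1 + x 3)) h02
  have a13 := key _ _ (by linarith : 0 < (x 1 + x 3) + (x 0 + x 2)) (by linarith [mul_comm (x 0 + x 2) (x 1 + x 3)])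
  have a03 := key _ _ (by linarith : 0 < (x 0 + x 3) + (x 1 + x 2)) h03
  have a12 := key _ _ (by linarith : 0 < (x 1 + x 2) + (x 0 + x 3)) (by linarith [mul_comm (x 0 + x 3) (x 1 + x 2)])
  fin_cases k <;> fin_cases l <;> first | exact absurd rfl h | skip
  · exact a01
  · exact a02
  · exact a03
  · rw [add_comm]; exact a01
  · exact a12
  · exact a13
  · rw [add_comm]; exact a02
  · rw [add_comm]; exact a12
  · exact a23
  · rw [add_comm]; exact a03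
  · rw [add_comm]; exact a13
  · rw [add_comm]; exact a23

theorem exists_others : ∀ i j : Fin 4, i ≠ j → ∃ k l : Fin 4, k ≠ l ∧
    (∀ u : Fin 4, u = i ∨ u = j ∨ u = k ∨ u = l) ∧ k ≠ i ∧ k ≠ j ∧ l ≠ i ∧ l ≠ j := by
  decide

theorem sm_split {i j k l : Fin 4} (hij : i ≠ j) (hkl : k ≠ l) (hki : k ≠ i) (hkj : k ≠ j)
    (hli : l ≠ i) (hlj : l ≠ j) (x : Fin 4 → ℝ) : sm x = x i + x j + (x k + x l) := by
  have h1 : (Finset.univ : Finset (Fin 4)) = {i, j, k, l} := by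
    revert i j k l
    decide
  unfold sm
  rw [h1, Finset.sum_insert, Finset.sum_insert, Finset.sum_insert, Finset.sum_singleton]
  · ring
  · rw [Finset.mem_singleton]
    exact hkl
  · rw [Finset.mem_insert, Finset.mem_singleton, not_or]
    exact ⟨hkj.symm, hlj.symm⟩
  · rw [Finset.mem_insert, Finset.mem_insert, Finset.mem_singleton, not_or, not_or]
    exact ⟨hij, hki.symm, hli.symm⟩

variable (M : Par)

theorem ht_add (hlt : M.p < M.s) (x : Hs) {i j : Fin 4} (h : i ≠ j) :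
    ht M i x.1 + ht M j x.1 ≤ -(2 * (M.s - M.p)) := by
  obtain ⟨k, l, hkl, _, hki, hkj, hli, hlj⟩ := exists_others i j h
  have h1 := sm_split h hkl hki hkj hli hlj x.1
  have h2 := pos_pair x h
  have h3 := pos_pair x hkl
  have h4 := two_le_sm x
  have h5 := hlt
  have h6 := M.hp
  unfold ht
  rw [h1] at h4 ⊢
  nlinarith

theorem sm_le (x y : Hs) : sm y.1 ≤ 2 * sm x.1 * -(QQ x.1 y.1) := by
  have h1 : ∀ x y : H3, y.1 0 ≤ 2 * x.1 0 * -(lor x.1 y.1) := by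
    rintro ⟨x, hx, hx0⟩ ⟨y, hy, hy0⟩
    show y 0 ≤ 2 * x 0 * -(lor x y)
    unfold lor at hx hy ⊢
    have h1 : (x 1 * y 1 + x 2 * y 2 + x 3 * y 3) ^ 2 ≤
        (x 1 ^ 2 + x 2 ^ 2 + x 3 ^ 2) * (y 1 ^ 2 + y 2 ^ 2 + y 3 ^ 2) := by
      nlinarith [sq_nonneg (x 1 * y 2 - x 2 * y 1), sq_nonneg (x 1 * y 3 - x 3 * y 1),
        sq_nonneg (x 2 * y 3 - x 3 * y 2)]
    have h2 : x 1 ^ 2 + x 2 ^ 2 + x 3 ^ 2 = x 0 ^ 2 - 1 := by nlinarith
    have h3 : y 1 ^ 2 + y 2 ^ 2 + y 3 ^ 2 = y 0 ^ 2 - 1 := by nlinarith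
    have h4 : 1 ≤ x 0 := by nlinarith [sq_nonneg (x 1), sq_nonneg (x 2), sq_nonneg (x 3)]
    rw [h2, h3] at h1
    -- it suffices to bound the inner product
    set W := x 1 * y 1 + x 2 * y 2 + x 3 * y 3 with hW
    have h5 : 0 ≤ y 0 * (x 0 - 1 / (2 * x 0)) := by
      have : 1 / (2 * x 0) ≤ x 0 := by
        rw [div_le_iff₀ (by linarith)]
        nlinarith
      exact mul_nonneg hy0.le (by linarith)
    have h6 : W ^ 2 ≤ (y 0 * (x 0 - 1 / (2 * x 0))) ^ 2 := by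
      have h7 : (x 0 - 1 / (2 * x 0)) ^ 2 = x 0 ^ 2 - 1 + (1 / (2 * x 0)) ^ 2 := by
        field_simp
        ring
      rw [mul_pow, h7]
      have h8 : 0 ≤ (1 / (2 * x 0)) ^ 2 := sq_nonneg _
      have h9 : 0 ≤ x 0 ^ 2 - 1 := by nlinarith
      nlinarith [mul_nonneg (sq_nonneg (y 0)) h8]
    have h10 := (le_abs_self W).trans (abs_le_of_sq_le_sq h6 h5)
    have h11 : 2 * x 0 * W ≤ 2 * x 0 * (y 0 * (x 0 - 1 / (2 * x 0))) :=
      mul_le_mul_of_nonneg_left h10 (by linarith)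
    have h12 : 2 * x 0 * (y 0 * (x 0 - 1 / (2 * x 0))) = 2 * x 0 * (x 0 * y 0) - y 0 := by
      field_simp
    have h13 : 2 * x 0 * -(-(x 0 * y 0) + x 1 * y 1 + x 2 * y 2 + x 3 * y 3) =
        2 * x 0 * (x 0 * y 0) - 2 * x 0 * W := by
      rw [hW]
      ring
    rw [h13]
    linarith
  have h2 := h1 (eH x) (eH y)
  rw [lor_eH] at h2
  have h3 : (eH x).1 0 = sm x.1 / 2 := had_zero x.1
  have h4 : (eH y).1 0 = sm y.1 / 2 := had_zero y.1
  rw [h3, h4] at h2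
  linarith

/-- Maps of vectors that preserve the form and map the base vertex into the space. -/
theorem sm_pos_of {f : (Fin 4 → ℝ) → Fin 4 → ℝ} {x z : Hs} (h : QQ (f x.1) oo = QQ x.1 z.1) :
    0 < sm (f x.1) := by
  have h1 := QQ_le x z
  rw [← h, QQ_oo] at h1
  linarith

theorem neighbor (i : Fin 4) (ε : ℤˣ) : QQ (cv M i ε oo) (cv M i ε oo) = -1 ∧
    0 < sm (cv M i ε oo) := by
  rw [QQ_cv, sm_cv, QQ_oo, sm_oo, ht_oo]
  refine ⟨by norm_num, ?_⟩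
  have := M.hs
  nlinarith

/-- The rotatory reflections of hyperbolic space. -/
noncomputable def cH (i : Fin 4) (ε : ℤˣ) (x : Hs) : Hs := ⟨cv M i ε x.1, by
  rw [QQ_cv]
  exact x.2.1, by
  refine sm_pos_of (z := ⟨cv M i (-ε) oo, neighbor M i (-ε)⟩) ?_
  show QQ (cv M i ε x.1) oo = QQ x.1 (cv M i (-ε) oo)
  rw [← QQ_cv M i ε x.1, cv_cv]⟩

theorem cH_cH (i : Fin 4) (ε : ℤˣ) (x : Hs) : cH M i ε (cH M i (-ε) x) = x :=
  Subtype.ext (cv_cv M i ε x.1)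

/-- The permutations of the coordinates. -/
noncomputable def pH (π : Equiv.Perm (Fin 4)) (x : Hs) : Hs := ⟨pv π x.1, by
  rw [QQ_pv]
  exact x.2.1, by
  rw [sm_pv]
  exact x.2.2⟩

theorem pH_mul (π σ : Equiv.Perm (Fin 4)) (x : Hs) : pH (π * σ) x = pH π (pH σ x) :=
  Subtype.ext (pv_mul π σ x.1)

theorem pH_one (x : Hs) : pH 1 x = x := rfl

theorem pH_oH (π : Equiv.Perm (Fin 4)) : pH π oH = oH := rfl

theorem cH_pH (π : Equiv.Perm (Fin 4)) (i : Fin 4) (ε : ℤˣ) (x : Hs) :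
    pH π (cH M i ε x) = cH M (π i) (ε * Equiv.Perm.sign π) (pH π x) :=
  Subtype.ext (cv_pv M π i ε x.1)

end Pool.Agent.Lib.MP_eed79e_coT
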