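import Pool.Agent.Lib.MP_eed79e_coT.Frm

/-!
Labellings: faces, flags, equivariance.
-/

set_option linter.unusedSectionVars false

namespace Pool.Agent.Lib.MP_eed79e_coT

theorem ind_right {p : N → Prop} (x : N) (one : p 1) (mul : ∀ x i, p x → p (x * c i)) : p x := by
  have h : ∀ y : N, p y⁻¹ := by
    intro y
    refine ind (p := fun y => p y⁻¹) y ?_ ?_
    · rw [inv_one]
      exact one
    · intro i x hx
      rw [mul_inv_rev, c_inv]
      exact mul _ i hx
  have h1 := h x⁻¹
  rwa [inv_inv] at h1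

theorem coset_ind {r : N} {S : Finset (Fin 4)} {p : N → Prop} (one : p r)
    (mul : ∀ t ∈ coset r S, ∀ i ∈ S, p t → p (t * c i)) {t : N} (ht : t ∈ coset r S) : p t := by
  have main : r⁻¹ * t ∈ NS S ∧ p (r * (r⁻¹ * t)) := by
    refine Subgroup.closure_induction_right
      (p := fun y _ => y ∈ NS S ∧ p (r * y)) ?_ ?_ ?_ ht
    · refine ⟨Subgroup.one_mem _, ?_⟩
      rw [mul_one]
      exact one
    · rintro y _ _ ⟨i, hi, rfl⟩ ⟨h1, h2⟩
      refine ⟨Subgroup.mul_mem _ h1 (c_mem hi), ?_⟩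
      rw [← mul_assoc]
      refine mul _ ?_ i hi h2
      rw [mem_coset, inv_mul_cancel_left]
      exact h1
    · rintro y _ _ ⟨i, hi, rfl⟩ ⟨h1, h2⟩
      rw [c_inv]
      refine ⟨Subgroup.mul_mem _ h1 (c_mem hi), ?_⟩
      rw [← mul_assoc]
      refine mul _ ?_ i hi h2
      rw [mem_coset, inv_mul_cancel_left]
      exact h1
  have h := main.2
  rwa [mul_inv_cancel_left] at h

theorem mem_coset_mul {t r : N} {S : Finset (Fin 4)} {i : Fin 4} (ht : t ∈ coset r S)
    (hi : i ∈ S) : t * c i ∈ coset r S := by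
  rw [mem_coset] at ht ⊢
  rw [← mul_assoc]
  exact Subgroup.mul_mem _ ht (c_mem hi)

variable {P : Type} [PartialOrder P] [BoundedOrder P] {rk : P → ℤ}

theorem exists_rank (hP : IsPolytope 4 rk) {C : Set P} (hC : IsMaxChain (· ≤ ·) C) {k : ℤ}
    (h1 : -1 ≤ k) (h2 : k ≤ 4) : ∃ x ∈ C, rk x = k := by
  have hcard := hP.chains C hC
  have hle : ∀ x ∈ C, ∀ y ∈ C, rk x ≤ rk y → x ≤ y := by
    intro x hx y hy h
    rcases hC.1.total hx hy with h1 | h1
    · exact h1
    · rcases h1.lt_or_eq with h2 | h2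
      · exact absurd (hP.strictMono h2) (not_lt.2 h)
      · exact h2.ge
  have hinj : Set.InjOn rk C := fun x hx y hy h =>
    le_antisymm (hle x hx y hy h.le) (hle y hy x hx h.ge)
  have hsub : rk '' C ⊆ Set.Icc (-1) 4 := by
    rintro _ ⟨x, hx, rfl⟩
    have hb := hP.strictMono.monotone (bot_le : ⊥ ≤ x)
    have ht := hP.strictMono.monotone (le_top : x ≤ ⊤)
    rw [hP.bot] at hb
    rw [hP.top] at ht
    exact ⟨hb, by exact_mod_cast ht⟩
  have himg : rk '' C = Set.Icc (-1) 4 := by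
    refine Set.eq_of_subset_of_ncard_le hsub ?_ (Set.finite_Icc _ _)
    rw [hinj.ncard_image, hcard, Set.ncard_eq_toFinset_card', Set.toFinset_Icc, Int.card_Icc]
    norm_num
  have h3 : k ∈ rk '' C := by
    rw [himg]
    exact ⟨h1, h2⟩
  obtain ⟨x, hx, hk⟩ := h3
  exact ⟨x, hx, hk⟩

theorem le_of_chain (hP : IsPolytope 4 rk) {C : Set P} (hC : IsMaxChain (· ≤ ·) C) {x y : P}
    (hx : x ∈ C) (hy : y ∈ C) (h : rk x ≤ rk y) : x ≤ y := by
  rcases hC.1.total hx hy with h1 | h1
  · exact h1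
  · rcases h1.lt_or_eq with h2 | h2
    · exact absurd (hP.strictMono h2) (not_lt.2 h)
    · exact h2.ge

theorem rk_bounds (hP : IsPolytope 4 rk) (F : P) : -1 ≤ rk F ∧ rk F ≤ 4 := by
  have hb := hP.strictMono.monotone (bot_le : ⊥ ≤ F)
  have ht := hP.strictMono.monotone (le_top : F ≤ ⊤)
  rw [hP.bot] at hb
  rw [hP.top] at ht
  exact ⟨hb, by exact_mod_cast ht⟩

theorem eq_of_rk (hP : IsPolytope 4 rk) {F G : P} (h : F ≤ G) (h2 : rk G ≤ rk F) : F = G := by
  rcases h.lt_or_eq with h1 | h1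
  · exact absurd (hP.strictMono h1) (not_lt.2 h2)
  · exact h1

/-- Faces of all intermediate ranks. -/
theorem exists_mid (hP : IsPolytope 4 rk) {F G : P} (h : F ≤ G) {k : ℤ} (h1 : rk F ≤ k)
    (h2 : k ≤ rk G) : ∃ H, F ≤ H ∧ H ≤ G ∧ rk H = k := by
  have hch : IsChain (· ≤ ·) ({F, G} : Set P) := by
    refine IsChain.insert ?_ ?_
    · exact Set.subsingleton_singleton.isChain
    · intro b hb _
      rw [Set.mem_singleton_iff.1 hb]
      exact Or.inl h
  obtain ⟨C, hC, hsub⟩ := hch.exists_maxChain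
  have hF : F ∈ C := hsub (Or.inl rfl)
  have hG : G ∈ C := hsub (Or.inr rfl)
  have b1 := rk_bounds hP F
  have b2 := rk_bounds hP G
  obtain ⟨H, hH, hk⟩ := exists_rank hP hC (k := k) (by omega) (by omega)
  exact ⟨H, le_of_chain hP hC hF hH (by omega), le_of_chain hP hC hH hG (by omega), hk⟩

theorem vertex_below (hP : IsPolytope 4 rk) {F : P} (h : F ≠ ⊥) : ∃ w, rk w = 0 ∧ w ≤ F := by
  have h1 : (⊥ : P) < F := lt_of_le_of_ne bot_le h.symm
  have h2 := hP.strictMono h1
  rw [hP.bot] at h2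
  obtain ⟨H, _, h3, h4⟩ := exists_mid hP h1.le (k := 0) (by rw [hP.bot]; norm_num) (by omega)
  exact ⟨H, h4, h3⟩

theorem ne_bot_of_rk (hP : IsPolytope 4 rk) {F : P} (h : 0 ≤ rk F) : F ≠ ⊥ := by
  rintro rfl
  rw [hP.bot] at h
  omega

variable {L : N → Finset (Fin 4) → P}

theorem Lab.const (h : Lab rk L) {r t : N} {S : Finset (Fin 4)} (ht : t ∈ coset r S) :
    L t S = L r S := by
  refine coset_ind (p := fun t => L t S = L r S) rfl ?_ ht
  intro t _ i hi h1
  rw [h.step t i S hi, h1]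

theorem Lab.vert (hP : IsPolytope 4 rk) (h : Lab rk L) (n : ℕ) : ∀ (r : N) (S : Finset (Fin 4)),
    S.card = n → ∀ w, rk w = 0 → w ≤ L r S → ∃ t ∈ coset r S, w = L t ∅ := by
  induction n using Nat.strong_induction_on with
  | _ n ih =>
    intro r S hS w hw hwS
    have hv : L r ∅ ≤ L r S := ((h.fr r).le _ _).2 (Finset.empty_subset S)
    rcases Nat.lt_or_ge n 2 with hn | hn
    · rcases Nat.lt_or_ge n 1 with hn1 | hn1
      · have h1 : S = ∅ := Finset.card_eq_zero.1 (by omega)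
        subst h1
        refine ⟨r, self_mem_coset _ _, ?_⟩
        exact eq_of_rk hP hwS (by rw [(h.fr r).rank, hw])
      · obtain ⟨i, rfl⟩ := Finset.card_eq_one.1 (show S.card = 1 by omega)
        by_cases h1 : w = L r ∅
        · exact ⟨r, self_mem_coset _ _, h1⟩
        · refine ⟨r * c i, mem_coset_mul (self_mem_coset _ _) (Finset.mem_singleton_self i), ?_⟩
          have he : rk (L r {i}) = 1 := by
            rw [(h.fr r).card hP, Finset.card_singleton]
            rfl
          refine two_vertices hP he (h.fr r).rank hv hw hwS (h.fr _).rank ?_ h1 (h.ne r i)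
          rw [← h.step r i {i} (Finset.mem_singleton_self i), (h.fr _).le]
          exact Finset.empty_subset _
    · have hrk : rk (L r S) = n := by rw [(h.fr r).card hP, hS]
      have hbot : (⊥ : P) < L r S := lt_of_le_of_ne bot_le (ne_bot_of_rk hP (by omega)).symm
      have hc := hP.connected ⊥ (L r S) hbot (by rw [hP.bot, hrk]; omega)
      have m1 : L r ∅ ∈ Between ⊥ (L r S) := by
        refine ⟨lt_of_le_of_ne bot_le (ne_bot_of_rk hP (by rw [(h.fr r).rank])).symm, ?_⟩
        rw [(h.fr r).lt, Finset.empty_ssubset, ← Finset.card_pos]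
        omega
      have m2 : w ∈ Between ⊥ (L r S) := by
        refine ⟨lt_of_le_of_ne bot_le (ne_bot_of_rk hP (by rw [hw])).symm,
          lt_of_le_of_ne hwS ?_⟩
        rintro rfl
        omega
      have key : ∀ H, Relation.ReflTransGen (fun A B => A ∈ Between ⊥ (L r S) ∧
          B ∈ Between ⊥ (L r S) ∧ (A ≤ B ∨ B ≤ A)) (L r ∅) H →
          ∃ t ∈ coset r S, ∃ T : Finset (Fin 4), H = L t T ∧ T ⊂ S := by
        intro H hH
        induction hH with
        | refl =>
          refine ⟨r, self_mem_coset _ _, ∅, rfl, ?_⟩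
          rw [Finset.empty_ssubset, ← Finset.card_pos]
          omega
        | tail _ hstep ihp =>
          obtain ⟨hA, hB, hAB⟩ := hstep
          obtain ⟨t, ht, T, rfl, hTS⟩ := ihp
          rcases hAB with hAB | hAB
          · obtain ⟨T', rfl⟩ := (h.fr t).surj _
              ((((h.fr t).le _ _).2 (Finset.empty_subset T)).trans hAB)
            refine ⟨t, ht, T', rfl, ?_⟩
            have h3 := hB.2
            rwa [← h.const ht, (h.fr t).lt] at h3
          · obtain ⟨w', hw', hwc⟩ := vertex_below hP hB.1.ne'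
            obtain ⟨t', ht', rfl⟩ := ih T.card (by
              have := Finset.card_lt_card hTS
              omega) t T rfl w' hw' (hwc.trans hAB)
            have ht'' : t' ∈ coset r S := coset_subset hTS.1 ht ht'
            obtain ⟨T', rfl⟩ := (h.fr t').surj _ hwc
            refine ⟨t', ht'', T', rfl, ?_⟩
            have h3 := hB.2
            rwa [← h.const ht'', (h.fr t').lt] at h3
      obtain ⟨t, ht, T, rfl, hT⟩ := key w (hc _ m1 _ m2)
      refine ⟨t, ht, ?_⟩
      have h2 : T = ∅ := by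
        rw [(h.fr t).card hP] at hw
        exact Finset.card_eq_zero.1 (by exact_mod_cast hw)
      rw [h2]

theorem Lab.vert' (hP : IsPolytope 4 rk) (h : Lab rk L) {r : N} {S : Finset (Fin 4)} {w : P}
    (hw : rk w = 0) (hwS : w ≤ L r S) : ∃ t ∈ coset r S, w = L t ∅ :=
  h.vert hP S.card r S rfl w hw hwS

theorem Lab.face (hP : IsPolytope 4 rk) (h : Lab rk L) {r : N} {S : Finset (Fin 4)} {F : P}
    (hF : F ≠ ⊥) (hFS : F ≤ L r S) : ∃ t ∈ coset r S, ∃ T, T ⊆ S ∧ F = L t T := by
  obtain ⟨w, hw, hwF⟩ := vertex_below hP hF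
  obtain ⟨t, ht, rfl⟩ := h.vert' hP hw (hwF.trans hFS)
  obtain ⟨T, rfl⟩ := (h.fr t).surj F hwF
  refine ⟨t, ht, T, ?_, rfl⟩
  rwa [← h.const ht, (h.fr t).le] at hFS

theorem Lab.face' (hP : IsPolytope 4 rk) (h : Lab rk L) {F : P} (hF : F ≠ ⊥) :
    ∃ t T, F = L t T := by
  have h1 : F ≤ L 1 Finset.univ := by
    rw [(h.fr 1).univ]
    exact le_top
  obtain ⟨t, _, T, _, h2⟩ := h.face hP hF h1
  exact ⟨t, T, h2⟩

theorem Lab.faceRk (hP : IsPolytope 4 rk) (h : Lab rk L) {F : P} {k : ℕ} (hF : rk F = k) :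
    ∃ t T, F = L t T ∧ T.card = k := by
  obtain ⟨t, T, rfl⟩ := h.face' hP (ne_bot_of_rk hP (F := F) (by rw [hF]; exact Int.natCast_nonneg k))
  rw [(h.fr t).card hP] at hF
  exact ⟨t, T, rfl, by exact_mod_cast hF⟩

/-! ### Equivariance -/

theorem IsFr.perm {lam : Finset (Fin 4) → P} (h : IsFr rk lam) (π : Equiv.Perm (Fin 4)) :
    IsFr rk fun S => lam (S.map π.toEmbedding) := by
  refine ⟨?_, ?_, ?_⟩
  · intro S T
    rw [h.le, Finset.map_subset_map]
  · intro F hF
    rw [Finset.map_empty] at hF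
    obtain ⟨T, hT⟩ := h.surj F hF
    refine ⟨T.map π⁻¹.toEmbedding, ?_⟩
    rw [← hT]
    congr 1
    ext k
    obtain ⟨j, rfl⟩ := π.surjective k
    rw [mem_map']
    have h5 : j = π⁻¹ (π j) := (Equiv.symm_apply_apply π j).symm
    rw [h5, mem_map']
    rw [← h5]
  · rw [Finset.map_empty]
    exact h.rank

theorem IsFr.aut {lam : Finset (Fin 4) → P} (h : IsFr rk lam) {α : P ≃o P}
    (hα : ∀ F, rk (α F) = rk F) : IsFr rk fun S => α (lam S) := by
  refine ⟨?_, ?_, ?_⟩
  · intro S T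
    rw [α.le_iff_le, h.le]
  · intro F hF
    have h1 : lam ∅ ≤ α.symm F := by
      rw [← α.le_iff_le, α.apply_symm_apply]
      exact hF
    obtain ⟨T, hT⟩ := h.surj _ h1
    refine ⟨T, ?_⟩
    rw [hT, α.apply_symm_apply]
  · rw [hα]
    exact h.rank

theorem Cr.perm {lam lam' : Finset (Fin 4) → P} {i : Fin 4} {π : Equiv.Perm (Fin 4)}
    (h : Cr rk (π i) lam lam') :
    Cr rk i (fun S => lam (S.map π.toEmbedding)) (fun S => lam' (S.map π.toEmbedding)) := by
  refine ⟨h.fr.perm π, ?_, ?_⟩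
  · rw [Finset.map_empty]
    exact h.ne
  · intro S hS
    exact h.eq _ ((mem_map' π).2 hS)

theorem Cr.aut {lam lam' : Finset (Fin 4) → P} {i : Fin 4} {α : P ≃o P}
    (hα : ∀ F, rk (α F) = rk F) (h : Cr rk i lam lam') :
    Cr rk i (fun S => α (lam S)) (fun S => α (lam' S)) := by
  refine ⟨h.fr.aut hα, ?_, ?_⟩
  · intro h1
    exact h.ne (α.injective h1)
  · intro S hS
    show α (lam' S) = α (lam S)
    rw [h.eq S hS]

/-- Automorphisms and labellings. -/
theorem Lab.equi (hP : IsPolytope 4 rk) (h : Lab rk L) {α : P ≃o P} (hα : ∀ F, rk (α F) = rk F)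
    {x y : N} {π σ : Equiv.Perm (Fin 4)}
    (h0 : ∀ S : Finset (Fin 4), α (L x (S.map π.toEmbedding)) = L y (S.map σ.toEmbedding)) (r : N) :
    ∀ S : Finset (Fin 4), α (L (x * act π r) (S.map π.toEmbedding)) =
      L (y * act σ r) (S.map σ.toEmbedding) := by
  refine ind_right (p := fun r => ∀ S : Finset (Fin 4), α (L (x * act π r) (S.map π.toEmbedding)) =
      L (y * act σ r) (S.map σ.toEmbedding)) r ?_ ?_
  · rw [map_one, map_one, mul_one, mul_one]
    exact h0
  · intro r i ih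
    have c1 : Cr rk i (fun S => α (L (x * act π r) (S.map π.toEmbedding)))
        (fun S => α (L (x * act π (r * c i)) (S.map π.toEmbedding))) := by
      have h1 := (h.cr (x * act π r) (π i)).perm
      have h2 := h1.aut hα
      rwa [mul_assoc, ← act_c, ← map_mul] at h2
    have c2 : Cr rk i (fun S => L (y * act σ r) (S.map σ.toEmbedding))
        (fun S => L (y * act σ (r * c i)) (S.map σ.toEmbedding)) := by
      have h1 := (h.cr (y * act σ r) (σ i)).perm
      rwa [mul_assoc, ← act_c, ← map_mul] at h1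
    have h3 : (fun S : Finset (Fin 4) => α (L (x * act π r) (S.map π.toEmbedding))) =
        fun S : Finset (Fin 4) => L (y * act σ r) (S.map σ.toEmbedding) := funext ih
    rw [← h3] at c2
    have h4 := cr_unique hP (((h.fr _).perm π).aut hα) c1 c2
    intro S
    exact congrFun h4 S

end Pool.Agent.Lib.MP_eed79e_coT
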