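import Pool.Agent.Lib.MP_eed79e_coT.Hyp

/-!
Isometries and Gram matrices.
-/

namespace Pool.Agent.Lib.MP_eed79e_coT

/-- The form as a bilinear map. -/
noncomputable def QL : (Fin 4 → ℝ) →ₗ[ℝ] (Fin 4 → ℝ) →ₗ[ℝ] ℝ :=
  LinearMap.mk₂ ℝ QQ
    (fun x y z => by
      rw [QQ_eq, QQ_eq, QQ_eq]
      simp only [Pi.add_apply]
      ring)
    (fun a x y => by
      rw [QQ_eq, QQ_eq]
      simp only [Pi.smul_apply, smul_eq_mul]
      ring)
    (fun x y z => by
      rw [QQ_eq, QQ_eq, QQ_eq]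
      simp only [Pi.add_apply]
      ring)
    (fun a x y => by
      rw [QQ_eq, QQ_eq]
      simp only [Pi.smul_apply, smul_eq_mul]
      ring)

theorem QL_apply (x y : Fin 4 → ℝ) : QL x y = QQ x y := rfl

theorem QQ_sum (β : Fin 4 → ℝ) (x : Fin 4 → Fin 4 → ℝ) (y : Fin 4 → ℝ) :
    QQ (∑ i, β i • x i) y = ∑ i, β i * QQ (x i) y := by
  rw [← QL_apply, map_sum, LinearMap.sum_apply]
  refine Finset.sum_congr rfl fun i _ => ?_
  rw [map_smul, LinearMap.smul_apply, smul_eq_mul, QL_apply]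

theorem QQ_nondeg {u : Fin 4 → ℝ} (h : ∀ w, QQ u w = 0) : u = 0 := by
  have h1 : ∀ j : Fin 4, QQ u (Pi.single j 1) = u j - sm u / 2 := by
    intro j
    rw [QQ_eq, sm_eq]
    fin_cases j <;> simp <;> ring
  have h2 : ∀ j : Fin 4, u j = sm u / 2 := by
    intro j
    have := h1 j
    rw [h] at this
    linarith
  have h3 : sm u = 0 := by
    have h4 := sm_eq u
    rw [h2 0, h2 1, h2 2, h2 3] at h4
    linarith
  funext j
  rw [h2 j, h3]
  simp

/-- Four vectors with the Gram matrix of a regular tetrahedron are linearly independent. -/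
theorem lin_indep {v : Fin 4 → Fin 4 → ℝ} {κ : ℝ} (hκ : 1 < κ) (h1 : ∀ i, QQ (v i) (v i) = -1)
    (h2 : ∀ i j, i ≠ j → QQ (v i) (v j) = -κ) : LinearIndependent ℝ v := by
  rw [Fintype.linearIndependent_iff]
  intro β hβ
  have h3 : ∀ j, β j * (κ - 1) = κ * ∑ i, β i := by
    intro j
    have h4 : QQ (∑ i, β i • v i) (v j) = 0 := by
      rw [hβ, QQ_eq]
      simp
    rw [QQ_sum] at h4
    have h5 : ∑ i, β i * QQ (v i) (v j) = ∑ i, (-κ * β i) + β j * (κ - 1) := by
      rw [← Finset.add_sum_erase _ _ (Finset.mem_univ j),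
        ← Finset.add_sum_erase (a := j) Finset.univ (fun i => -κ * β i) (Finset.mem_univ j), h1 j]
      have h6 : ∑ i ∈ Finset.univ.erase j, β i * QQ (v i) (v j) =
          ∑ i ∈ Finset.univ.erase j, -κ * β i := by
        refine Finset.sum_congr rfl fun i hi => ?_
        rw [h2 i j (Finset.ne_of_mem_erase hi)]
        ring
      rw [h6]
      ring
    rw [h5, ← Finset.mul_sum] at h4
    linarith
  have h4 : (∑ i, β i) * (κ - 1) = 4 * (κ * ∑ i, β i) := by
    rw [Finset.sum_mul]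
    simp only [h3]
    rw [Finset.sum_const, Finset.card_univ, Fintype.card_fin, nsmul_eq_mul]
    norm_num
  have h5 : ∑ i, β i = 0 := by
    have h6 : (∑ i, β i) * (3 * κ + 1) = 0 := by linarith
    rcases mul_eq_zero.1 h6 with h7 | h7
    · exact h7
    · exfalso
      linarith
  intro j
  have h6 := h3 j
  rw [h5, mul_zero] at h6
  rcases mul_eq_zero.1 h6 with h7 | h7
  · exact h7
  · exfalso
    linarith

theorem span_top {v : Fin 4 → Fin 4 → ℝ} (hv : LinearIndependent ℝ v) :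
    Submodule.span ℝ (Set.range v) = ⊤ := by
  apply hv.span_eq_top_of_card_eq_finrank
  rw [Module.finrank_fin_fun, Fintype.card_fin]

/-- A vector is determined by its products with a basis. -/
theorem QQ_unique {v : Fin 4 → Fin 4 → ℝ} (hv : LinearIndependent ℝ v) {z w : Fin 4 → ℝ}
    (h : ∀ i, QQ z (v i) = QQ w (v i)) : z = w := by
  have h1 : ∀ y, QQ (z - w) y = 0 := by
    intro y
    have hy : y ∈ Submodule.span ℝ (Set.range v) := by
      rw [span_top hv]
      exact Submodule.mem_top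
    have h2 : Submodule.span ℝ (Set.range v) ≤ LinearMap.ker (QL (z - w)) := by
      refine Submodule.span_le.2 ?_
      rintro _ ⟨i, rfl⟩
      show QL (z - w) (v i) = 0
      rw [map_sub, LinearMap.sub_apply, QL_apply, QL_apply, h i, sub_self]
    exact h2 hy
  have h3 := QQ_nondeg h1
  exact sub_eq_zero.1 h3

/-- The relation between the two distances. -/
theorem gram_rel {v : Fin 4 → Fin 4 → ℝ} {o : Fin 4 → ℝ} {κ h : ℝ} (hκ : 1 < κ)
    (h1 : ∀ i, QQ (v i) (v i) = -1) (h2 : ∀ i j, i ≠ j → QQ (v i) (v j) = -κ)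
    (h3 : ∀ i, QQ o (v i) = -h) (h4 : QQ o o = -1) : 3 * κ = 4 * h ^ 2 - 1 := by
  have hv := lin_indep hκ h1 h2
  have ho : o ∈ Submodule.span ℝ (Set.range v) := by
    rw [span_top hv]
    exact Submodule.mem_top
  obtain ⟨β, hβ⟩ := (Submodule.mem_span_range_iff_exists_fun ℝ).1 ho
  have h5 : ∀ j, β j * (κ - 1) = κ * (∑ i, β i) - h := by
    intro j
    have h6 := h3 j
    rw [← hβ, QQ_sum] at h6
    have h7 : ∑ i, β i * QQ (v i) (v j) = ∑ i, (-κ * β i) + β j * (κ - 1) := by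
      rw [← Finset.add_sum_erase _ _ (Finset.mem_univ j),
        ← Finset.add_sum_erase (a := j) Finset.univ (fun i => -κ * β i) (Finset.mem_univ j), h1 j]
      have h6 : ∑ i ∈ Finset.univ.erase j, β i * QQ (v i) (v j) =
          ∑ i ∈ Finset.univ.erase j, -κ * β i := by
        refine Finset.sum_congr rfl fun i hi => ?_
        rw [h2 i j (Finset.ne_of_mem_erase hi)]
        ring
      rw [h6]
      ring
    rw [h7, ← Finset.mul_sum] at h6
    linarith
  have h6 : (∑ i, β i) * (κ - 1) = 4 * (κ * (∑ i, β i) - h) := by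
    rw [Finset.sum_mul]
    simp only [h5]
    rw [Finset.sum_const, Finset.card_univ, Fintype.card_fin, nsmul_eq_mul]
    norm_num
  have h7 : QQ o o = -(h * ∑ i, β i) := by
    conv_lhs => rw [← hβ]
    rw [QQ_sum]
    have h8 : ∀ i, QQ (v i) (∑ i, β i • v i) = -h := by
      intro i
      rw [hβ, QQ_comm, h3]
    simp only [h8]
    rw [← Finset.sum_mul]
    ring
  rw [h4] at h7
  have h8 : (∑ i, β i) * (3 * κ + 1) = 4 * h := by linarith
  have h9 : h * (∑ i, β i) = 1 := by linarith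
  have h10 : h * ((∑ i, β i) * (3 * κ + 1)) = h * (4 * h) := by rw [h8]
  have h11 : (3 * κ + 1) = 4 * h ^ 2 := by
    calc (3 * κ + 1) = (h * (∑ i, β i)) * (3 * κ + 1) := by rw [h9, one_mul]
      _ = h * ((∑ i, β i) * (3 * κ + 1)) := by ring
      _ = 4 * h ^ 2 := by rw [h10]; ring
  linarith

theorem pos_of_neg {u : Fin 4 → ℝ} (h1 : QQ u u = -1) {y : Hs} (h2 : QQ u y.1 < 0) : 0 < sm u := by
  by_contra h
  push Not at h
  have h3 : sm u ≠ 0 := by
    intro h4
    rw [sm_eq] at h4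
    rw [QQ_eq, h4] at h1
    nlinarith [sq_nonneg (u 0), sq_nonneg (u 1), sq_nonneg (u 2), sq_nonneg (u 3)]
  have h4 : 0 < sm (-u) := by
    have h5 : sm (-u) = -sm u := by
      rw [sm_eq, sm_eq]
      simp only [Pi.neg_apply]
      ring
    rw [h5]
    rcases lt_or_eq_of_le h with h6 | h6
    · linarith
    · exact absurd h6 h3
  have h5 : QQ (-u) (-u) = -1 := by
    rw [← h1, QQ_eq, QQ_eq]
    simp only [Pi.neg_apply]
    ring
  have h6 := QQ_le ⟨-u, h5, h4⟩ y
  have h7 : QQ (-u) y.1 = -QQ u y.1 := by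
    rw [QQ_eq, QQ_eq]
    simp only [Pi.neg_apply]
    ring
  have h8 : QQ (-u) y.1 ≤ -1 := h6
  rw [h7] at h8
  linarith

/-- Isometries in the new coordinates. -/
def Iso (T : Hs ≃ Hs) : Prop := ∀ x y, QQ (T x).1 (T y).1 = QQ x.1 y.1

theorem Iso.symm {T : Hs ≃ Hs} (h : Iso T) : Iso T.symm := fun x y => by
  rw [← h, T.apply_symm_apply, T.apply_symm_apply]

theorem Iso.trans {T U : Hs ≃ Hs} (h : Iso T) (h' : Iso U) : Iso (T.trans U) := fun x y => by
  rw [Equiv.trans_apply, Equiv.trans_apply, h', h]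

/-- Existence of isometries. -/
theorem exists_iso_of_gram {v w : Fin 4 → Hs} (hv : LinearIndependent ℝ fun i => (v i).1)
    (hw : LinearIndependent ℝ fun i => (w i).1)
    (h : ∀ i j, QQ (v i).1 (v j).1 = QQ (w i).1 (w j).1) :
    ∃ T : Hs ≃ Hs, Iso T ∧ ∀ i, T (v i) = w i := by
  have hc : Fintype.card (Fin 4) = Module.finrank ℝ (Fin 4 → ℝ) := by
    rw [Module.finrank_fin_fun, Fintype.card_fin]
  let bv := basisOfLinearIndependentOfCardEqFinrank hv hc
  let bw := basisOfLinearIndependentOfCardEqFinrank hw hc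
  have hbv : ∀ i, bv i = (v i).1 := fun i => by
    rw [coe_basisOfLinearIndependentOfCardEqFinrank]
  have hbw : ∀ i, bw i = (w i).1 := fun i => by
    rw [coe_basisOfLinearIndependentOfCardEqFinrank]
  let A : (Fin 4 → ℝ) ≃ₗ[ℝ] (Fin 4 → ℝ) := bv.equiv bw (Equiv.refl _)
  have hA : ∀ i, A (v i).1 = (w i).1 := by
    intro i
    rw [← hbv, ← hbw]
    exact bv.equiv_apply i bw (Equiv.refl _)
  have hQ : ∀ x y, QQ (A x) (A y) = QQ x y := by
    have h1 : (QL.compl₁₂ A.toLinearMap A.toLinearMap) = QL := by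
      refine LinearMap.ext_basis bv bv ?_
      intro i j
      rw [LinearMap.compl₁₂_apply, hbv, hbv]
      show QQ (A (v i).1) (A (v j).1) = QQ (v i).1 (v j).1
      rw [hA, hA, h]
    intro x y
    have h2 := LinearMap.congr_fun₂ h1 x y
    exact h2
  have hQ' : ∀ x y, QQ (A.symm x) (A.symm y) = QQ x y := by
    intro x y
    rw [← hQ, A.apply_symm_apply, A.apply_symm_apply]
  have hA' : ∀ i, A.symm (w i).1 = (v i).1 := fun i => by
    rw [← hA, A.symm_apply_apply]
  have hpos : ∀ x : Hs, 0 < sm (A x.1) := by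
    intro x
    refine pos_of_neg (y := w 0) (by rw [hQ]; exact x.2.1) ?_
    rw [← hA, hQ]
    have := QQ_le x (v 0)
    linarith
  have hpos' : ∀ x : Hs, 0 < sm (A.symm x.1) := by
    intro x
    refine pos_of_neg (y := v 0) (by rw [hQ']; exact x.2.1) ?_
    rw [← hA', hQ']
    have := QQ_le x (w 0)
    linarith
  refine ⟨{ toFun := fun x => ⟨A x.1, by rw [hQ]; exact x.2.1, hpos x⟩
            invFun := fun x => ⟨A.symm x.1, by rw [hQ']; exact x.2.1, hpos' x⟩
            left_inv := fun x => Subtype.ext (A.symm_apply_apply x.1)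
            right_inv := fun x => Subtype.ext (A.apply_symm_apply x.1) }, ?_, ?_⟩
  · intro x y
    exact hQ x.1 y.1
  · intro i
    exact Subtype.ext (hA i)

/-- Uniqueness of isometries. -/
theorem iso_unique {v : Fin 4 → Hs} (hv : LinearIndependent ℝ fun i => (v i).1) {T U : Hs → Hs}
    (hT : ∀ x y, QQ (T x).1 (T y).1 = QQ x.1 y.1) (hU : ∀ x y, QQ (U x).1 (U y).1 = QQ x.1 y.1)
    (hTU : ∀ i, T (v i) = U (v i)) (hlin : LinearIndependent ℝ fun i => (U (v i)).1) (x : Hs) :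
    T x = U x := by
  refine Subtype.ext (QQ_unique hlin fun i => ?_)
  have h1 := hT x (v i)
  have h2 := hU x (v i)
  rw [hTU] at h1
  rw [h1, h2]

/-- Points at distance zero are equal. -/
theorem eq_of_QQ {x y : Hs} (h : QQ x.1 y.1 = -1) : x = y := by
  have h1 : ∀ x y : H3, lor x.1 y.1 = -1 → x = y := by
    rintro ⟨x, hx, hx0⟩ ⟨y, hy, hy0⟩ h
    have h' : lor x y = -1 := h
    unfold lor at hx hy h'
    have h1 : (x 1 * y 1 + x 2 * y 2 + x 3 * y 3) ^ 2 ≤
        (x 1 ^ 2 + x 2 ^ 2 + x 3 ^ 2) * (y 1 ^ 2 + y 2 ^ 2 + y 3 ^ 2) := by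
      nlinarith [sq_nonneg (x 1 * y 2 - x 2 * y 1), sq_nonneg (x 1 * y 3 - x 3 * y 1),
        sq_nonneg (x 2 * y 3 - x 3 * y 2)]
    have h2 : x 1 ^ 2 + x 2 ^ 2 + x 3 ^ 2 = x 0 ^ 2 - 1 := by nlinarith
    have h3 : y 1 ^ 2 + y 2 ^ 2 + y 3 ^ 2 = y 0 ^ 2 - 1 := by nlinarith
    have h4 : x 1 * y 1 + x 2 * y 2 + x 3 * y 3 = x 0 * y 0 - 1 := by linarith
    rw [h2, h3, h4] at h1
    have h5 : (x 0 - y 0) ^ 2 ≤ 0 := by nlinarith
    have h6 : x 0 = y 0 := by nlinarith [sq_nonneg (x 0 - y 0)]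
    have h7 : (x 1 - y 1) ^ 2 + (x 2 - y 2) ^ 2 + (x 3 - y 3) ^ 2 = 0 := by
      rw [h6] at h4 h2
      nlinarith
    have h8 : x 1 = y 1 := by nlinarith [sq_nonneg (x 1 - y 1), sq_nonneg (x 2 - y 2), sq_nonneg (x 3 - y 3)]
    have h9 : x 2 = y 2 := by nlinarith [sq_nonneg (x 1 - y 1), sq_nonneg (x 2 - y 2), sq_nonneg (x 3 - y 3)]
    have h10 : x 3 = y 3 := by nlinarith [sq_nonneg (x 1 - y 1), sq_nonneg (x 2 - y 2), sq_nonneg (x 3 - y 3)]
    refine Subtype.ext ?_
    funext j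
    fin_cases j
    · exact h6
    · exact h8
    · exact h9
    · exact h10
  exact eH.injective (h1 _ _ (by rw [lor_eH, h]))

end Pool.Agent.Lib.MP_eed79e_coT
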