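import Pool.Agent.Lib.MP_eed79e_coT.Rep
import Pool.Agent.Lib.MP_eed79e_coT.Aut

/-!
The symmetry group of a geometrically two-orbit polytope has index two.
-/

set_option linter.unusedSectionVars false

namespace Pool.Agent.Lib.MP_eed79e_coT

/-- Some isometry acts on the configuration `B` as `r ↦ x * π r`. -/
def Gp (B : N → H3) (x : N) (π : Equiv.Perm (Fin 4)) : Prop :=
  ∃ T : H3 ≃ H3, IsIsom T ∧ ∀ r, T (B r) = B (x * act π r)

theorem isIsom_refl : IsIsom (Equiv.refl H3) := fun _ _ => rfl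

theorem Gp.one (B : N → H3) : Gp B 1 1 := ⟨Equiv.refl _, isIsom_refl, fun r => by
  rw [act_one, one_mul]
  rfl⟩

theorem Gp.mul {B : N → H3} {x y : N} {π σ : Equiv.Perm (Fin 4)} (h : Gp B x π) (h' : Gp B y σ) :
    Gp B (x * act π y) (π * σ) := by
  obtain ⟨T, hT, h1⟩ := h
  obtain ⟨U, hU, h2⟩ := h'
  refine ⟨U.trans T, hU.trans hT, fun r => ?_⟩
  rw [Equiv.trans_apply, h2, h1, map_mul, act_mul, mul_assoc]

theorem Gp.inv {B : N → H3} {x : N} {π : Equiv.Perm (Fin 4)} (h : Gp B x π) :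
    Gp B (act π⁻¹ x⁻¹) π⁻¹ := by
  obtain ⟨T, hT, h1⟩ := h
  refine ⟨T.symm, hT.symm, fun r => ?_⟩
  rw [Equiv.symm_apply_eq, h1, map_mul, act_act_inv, act_act_inv, mul_inv_cancel_left]

section

variable {P : Type} [PartialOrder P] [BoundedOrder P] {rk : P → ℤ} {b : {v : P // rk v = 0} → H3}

theorem im1_trans (T U : H3 ≃ H3) (s : Set H3) : (T.trans U) '' s = U '' (T '' s) := by
  rw [Equiv.coe_trans, Set.image_comp]

theorem im2_trans (T U : H3 ≃ H3) (s : Set (Set H3)) :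
    ((T.trans U) '' ·) '' s = (U '' ·) '' ((T '' ·) '' s) := by
  rw [Set.image_image]
  simp only [im1_trans]

theorem im3_trans (T U : H3 ≃ H3) (s : Set (Set (Set H3))) :
    (((T.trans U) '' ·) '' ·) '' s = ((U '' ·) '' ·) '' (((T '' ·) '' ·) '' s) := by
  rw [Set.image_image]
  simp only [im2_trans]

theorem im4_trans (T U : H3 ≃ H3) (s : Set (Set (Set (Set H3)))) :
    ((((T.trans U) '' ·) '' ·) '' ·) '' s =
      (((U '' ·) '' ·) '' ·) '' ((((T '' ·) '' ·) '' ·) '' s) := by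
  rw [Set.image_image]
  simp only [im3_trans]

theorem Maps.trans {P' P'' : Type} [PartialOrder P'] [PartialOrder P''] {rk' : P' → ℤ}
    {rk'' : P'' → ℤ} {b' : {v : P' // rk' v = 0} → H3} {b'' : {v : P'' // rk'' v = 0} → H3}
    {T U : H3 ≃ H3} (h : Maps rk b rk' T b') (h' : Maps rk' b' rk'' U b'') :
    Maps rk b rk'' (T.trans U) b'' := by
  refine ⟨h.isom.trans h'.isom, ?_, ?_, ?_, ?_⟩
  · rw [im1_trans, h.vertices, h'.vertices]
  · rw [im2_trans, h.edges, h'.edges]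
  · rw [im3_trans, h.twofaces, h'.twofaces]
  · rw [im4_trans, h.facets, h'.facets]

theorem SameOrbit.symm {Φ Ψ : Flag4 rk} (h : SameOrbit rk b Φ Ψ) : SameOrbit rk b Ψ Φ := by
  obtain ⟨T, h, h0, h1, h2, h3⟩ := h
  refine ⟨T.symm, h.symm, ?_, ?_, ?_, ?_⟩
  · rw [← h0, T.symm_apply_apply]
  · rw [← h1, im1_symm]
  · rw [← h2, im2_symm]
  · rw [← h3, im3_symm]

theorem SameOrbit.trans {Φ Ψ Θ : Flag4 rk} (h : SameOrbit rk b Φ Ψ) (h' : SameOrbit rk b Ψ Θ) :
    SameOrbit rk b Φ Θ := by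
  obtain ⟨T, h, h0, h1, h2, h3⟩ := h
  obtain ⟨U, h', h0', h1', h2', h3'⟩ := h'
  refine ⟨T.trans U, h.trans h', ?_, ?_, ?_, ?_⟩
  · rw [Equiv.trans_apply, h0, h0']
  · rw [im1_trans, h1, h1']
  · rw [im2_trans, h2, h2']
  · rw [im3_trans, h3, h3']

variable {L : N → Finset (Fin 4) → P}

theorem gp_of_sameOrbit (hP : IsPolytope 4 rk) (h : Lab rk L) (hf : IsFaithful rk b) {x y : N}
    {π σ : Equiv.Perm (Fin 4)} (hs : SameOrbit rk b (flL hP h x π) (flL hP h y σ)) :
    Gp (Bv h b) (y * act (σ * π⁻¹) x⁻¹) (σ * π⁻¹) := by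
  obtain ⟨T, hT, h0, h1, h2, h3⟩ := hs
  obtain ⟨α, hα⟩ := exists_iso hP hP hf hf hT
  have hrk : ∀ F, rk (α F) = rk F := fun F => (hα F).rank
  have hJ : ∀ i : Fin 4, α (L x ((J i).map π.toEmbedding)) = L y ((J i).map σ.toEmbedding) := by
    intro i
    have r1 := (flL hP h x π).rank i
    have r2 := (flL hP h y σ).rank i
    rw [flL_face] at r1 r2
    have r3 := hα (L x ((J i).map π.toEmbedding))
    refine r3.unique hP hf ⟨by rw [r1, r2], ?_, ?_, ?_, ?_⟩
    · intro k1 k2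
      have hi : i = 0 := by
        rw [r1] at k1
        have : (i : ℕ) = 0 := by exact_mod_cast k1
        exact Fin.ext this
      subst hi
      exact h0
    · intro k1
      have hi : i = 1 := by
        rw [r1] at k1
        have : (i : ℕ) = 1 := by exact_mod_cast k1
        exact Fin.ext this
      subst hi
      exact h1
    · intro k1
      have hi : i = 2 := by
        rw [r1] at k1
        have : (i : ℕ) = 2 := by exact_mod_cast k1
        exact Fin.ext this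
      subst hi
      exact h2
    · intro k1
      have hi : i = 3 := by
        rw [r1] at k1
        have : (i : ℕ) = 3 := by exact_mod_cast k1
        exact Fin.ext this
      subst hi
      exact h3
  have f1 : IsFr rk fun S => α (L x (S.map π.toEmbedding)) := ((h.fr x).perm π).aut hrk
  have f2 : IsFr rk fun S => L y (S.map σ.toEmbedding) := (h.fr y).perm σ
  obtain ⟨τ, hτ⟩ := fr_perm hP f1 f2 (hJ 0)
  have hτ1 : τ = 1 := by
    refine perm_one τ fun j => ?_
    apply f1.inj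
    rw [← hτ]
    exact (hJ j).symm
  have key : ∀ S : Finset (Fin 4), α (L x (S.map π.toEmbedding)) = L y (S.map σ.toEmbedding) := by
    intro S
    have h4 := hτ S
    rw [hτ1] at h4
    rw [h4]
    have h5 : S.map (1 : Equiv.Perm (Fin 4)).toEmbedding = S := Finset.map_refl
    rw [h5]
  refine ⟨T, hT.isom, fun r' => ?_⟩
  obtain ⟨r, rfl⟩ := exists_act x π r'
  have h4 := h.equi hP hrk key r ∅
  rw [Finset.map_empty, Finset.map_empty] at h4
  have h5 : y * act (σ * π⁻¹) x⁻¹ * act (σ * π⁻¹) (x * act π r) = y * act σ r := by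
    rw [mul_assoc, ← map_mul, inv_mul_cancel_left, ← act_mul, inv_mul_cancel_right]
  rw [h5]
  have h6 := (hα (L (x * act π r) ∅)).r0 (h.fr _).rank (by rw [h4]; exact (h.fr _).rank)
  unfold Bv
  rw [h6]
  congr 1
  exact Subtype.ext h4

theorem sameOrbit_of_gp (hP : IsPolytope 4 rk) (h : Lab rk L) {x y : N}
    {π σ : Equiv.Perm (Fin 4)} (hg : Gp (Bv h b) (y * act (σ * π⁻¹) x⁻¹) (σ * π⁻¹)) :
    SameOrbit rk b (flL hP h x π) (flL hP h y σ) := by
  obtain ⟨T, hT, h1⟩ := hg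
  have h2 := sameOrbit_of_pts hP h hT h1 x π
  have h3 : y * act (σ * π⁻¹) x⁻¹ * act (σ * π⁻¹) x = y := by
    rw [mul_assoc, ← map_mul, inv_mul_cancel, map_one, mul_one]
  rwa [h3, inv_mul_cancel_right] at h2

theorem index_two (hP : IsPolytope 4 rk) (h : Lab rk L) (hf : IsFaithful rk b)
    (h2 : IsTwoOrbit rk b) {x y : N} {π σ : Equiv.Perm (Fin 4)} (hx : ¬ Gp (Bv h b) x π)
    (hy : ¬ Gp (Bv h b) y σ) : Gp (Bv h b) (x * act (π * σ⁻¹) y⁻¹) (π * σ⁻¹) := by
  obtain ⟨Φ, Ψ, _, hall⟩ := h2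
  have key : ∀ (x : N) (π : Equiv.Perm (Fin 4)), ¬ Gp (Bv h b) x π →
      ¬ SameOrbit rk b (flL hP h 1 1) (flL hP h x π) := by
    intro x π hx hs
    have h3 := gp_of_sameOrbit hP h hf hs
    rw [inv_one, mul_one, inv_one, map_one, mul_one] at h3
    exact hx h3
  have k1 := key x π hx
  have k2 := key y σ hy
  apply gp_of_sameOrbit hP h hf
  rcases hall (flL hP h 1 1) with h0 | h0 <;> rcases hall (flL hP h x π) with h1 | h1 <;>
    rcases hall (flL hP h y σ) with h3 | h3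
  · exact h3.symm.trans h1
  · exact absurd (h0.symm.trans h1) k1
  · exact absurd (h0.symm.trans h3) k2
  · exact h3.symm.trans h1
  · exact h3.symm.trans h1
  · exact absurd (h0.symm.trans h3) k2
  · exact absurd (h0.symm.trans h1) k1
  · exact h3.symm.trans h1

theorem exists_not_gp (hP : IsPolytope 4 rk) (h : Lab rk L) (h2 : IsTwoOrbit rk b) :
    ∃ x π, ¬ Gp (Bv h b) x π := by
  obtain ⟨Φ, Ψ, hne, _⟩ := h2
  obtain ⟨x, π, rfl⟩ := exists_flL hP h Φ
  obtain ⟨y, σ, rfl⟩ := exists_flL hP h Ψ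
  exact ⟨_, _, fun h3 => hne (sameOrbit_of_gp hP h h3)⟩

theorem Bv_ne (h : Lab rk L) (hf : IsFaithful rk b) (r : N) (i : Fin 4) :
    Bv h b (r * c i) ≠ Bv h b r := by
  intro h1
  exact h.ne r i (congrArg Subtype.val (hf.vertices h1))

theorem Bv_ne' (hP : IsPolytope 4 rk) (h : Lab rk L) (hf : IsFaithful rk b) (r : N) {i j : Fin 4}
    (hij : i ≠ j) : Bv h b (r * c i) ≠ Bv h b (r * c j) := by
  intro h1
  apply hij
  have hrk : ∀ i : Fin 4, rk (L r {i}) = 1 := fun i => by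
    rw [(h.fr r).card hP, Finset.card_singleton]
    rfl
  have h2 : L r {i} = L r {j} := by
    refine hf.edges _ _ (hrk i) (hrk j) ?_
    rw [rep1_edge hP h, rep1_edge hP h]
    unfold edge
    rw [h1]
  exact Finset.singleton_injective ((h.fr r).inj h2)

end

end Pool.Agent.Lib.MP_eed79e_coT
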