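import Pool.Agent.Lib.MP_eed79e_coT.Cls
import Pool.Agent.Lib.MP_eed79e_coT.Sym

/-!
The configuration of a polytope; the symmetries of the configurations `bt M`.
-/

set_option linter.unusedSectionVars false

namespace Pool.Agent.Lib.MP_eed79e_coT

theorem iso_of_isom {T : H3 ≃ H3} (hT : IsIsom T) : Iso (eH.trans (T.trans eH.symm)) := by
  intro x y
  rw [isIsom_iff] at hT
  show QQ (eH.symm (T (eH x))).1 (eH.symm (T (eH y))).1 = QQ x.1 y.1
  rw [QQ_eH_symm, hT, lor_eH]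

theorem isom_of_iso {T : Hs ≃ Hs} (hT : Iso T) : IsIsom (eH.symm.trans (T.trans eH)) := by
  rw [isIsom_iff]
  intro x y
  show lor (eH (T (eH.symm x))).1 (eH (T (eH.symm y))).1 = lor x.1 y.1
  rw [lor_eH, hT, QQ_eH_symm]

theorem gp_iff_gs {B : N → H3} {X : N → Hs} (hBX : ∀ r, B r = eH (X r)) {x : N}
    {π : Equiv.Perm (Fin 4)} : Gp B x π ↔ Gs X x π := by
  constructor
  · rintro ⟨T, hT, h1⟩
    refine ⟨_, iso_of_isom hT, fun r => ?_⟩
    show eH.symm (T (eH (X r))) = X (x * act π r)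
    rw [← hBX, h1, hBX, eH.symm_apply_apply]
  · rintro ⟨T, hT, h1⟩
    refine ⟨_, isom_of_iso hT, fun r => ?_⟩
    show eH (T (eH.symm (B r))) = B (x * act π r)
    rw [hBX, eH.symm_apply_apply, h1, hBX]

section

variable {P : Type} [PartialOrder P] [BoundedOrder P] {rk : P → ℤ} {b : {v : P // rk v = 0} → H3}
  {L : N → Finset (Fin 4) → P}

/-- The configuration of the vertices. -/
noncomputable def Xv (h : Lab rk L) (b : {v : P // rk v = 0} → H3) (r : N) : Hs :=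
  eH.symm (Bv h b r)

theorem Bv_eq (h : Lab rk L) (b : {v : P // rk v = 0} → H3) (r : N) :
    Bv h b r = eH (Xv h b r) := (eH.apply_symm_apply _).symm

theorem cfg_of (hP : IsPolytope 4 rk) (h : Lab rk L) (hf : IsFaithful rk b)
    (h2 : IsTwoOrbit rk b) : Cfg (Xv h b) := by
  refine ⟨fun x y π σ hx hy => ?_, ?_, fun r i hi => ?_, fun r i j hij hi => ?_⟩
  · rw [← gp_iff_gs (Bv_eq h b)] at hx hy ⊢
    exact index_two hP h hf h2 hx hy
  · obtain ⟨x, π, hx⟩ := exists_not_gp hP h h2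
    exact ⟨x, π, fun h' => hx ((gp_iff_gs (Bv_eq h b)).2 h')⟩
  · exact Bv_ne h hf r i (eH.symm.injective hi)
  · exact Bv_ne' hP h hf r hij (eH.symm.injective hi)

end

/-! ### The other orientation -/

/-- The parameters with exchanged coefficients. -/
def Par.swp (M : Par) : Par :=
  { M with
    b := M.c
    c := M.b
    habc := by
      have := M.habc
      linarith
    hsq := by
      have := M.hsq
      linarith }

variable (M : Par)

theorem cf_swp (ε : ℤˣ) : cf M.swp ε = cf M (-ε) := by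
  rcases Int.units_eq_one_or ε with rfl | rfl
  · rw [cf_one, cf_neg_one]
    rfl
  · rw [neg_neg, cf_one, cf_neg_one]
    rfl

theorem cH_swp (i : Fin 4) (ε : ℤˣ) (x : Hs) : cH M.swp i ε x = cH M i (-ε) x := by
  refine Subtype.ext ?_
  show cv M.swp i ε x.1 = cv M i (-ε) x.1
  ext j
  unfold cv rot
  rw [cf_swp, cf_swp]
  rfl

theorem g_swp (ε : ℤˣ) (r : N) (x : Hs) : g M.swp ε r x = g M (-ε) r x := by
  refine ind (p := fun r => ∀ ε : ℤˣ, g M.swp ε r x = g M (-ε) r x) r ?_ ?_ ε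
  · intro ε
    rw [g_one, g_one]
  · intro i r ih ε
    rw [g_c_mul, g_c_mul, cH_swp, ih]

theorem bt_swp {τ : Equiv.Perm (Fin 4)} (hτ : Equiv.Perm.sign τ = -1) (r : N) :
    pH τ (bt M r) = bt M.swp (act τ r) := by
  rw [bt, g_pH, pH_oH, one_mul, hτ, bt, g_swp]

/-- The classification with ordered coefficients. -/
theorem Cfg.classify' {X : N → Hs} (hX : Cfg X) :
    ∃ (M : Par) (U : Hs ≃ Hs) (π : Equiv.Perm (Fin 4)), Iso U ∧ M.b < M.c ∧
      ∀ r, U (X r) = bt M (act π r) := by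
  obtain ⟨M, U, hU, hbc, h1⟩ := hX.classify
  rcases lt_or_gt_of_ne hbc with h2 | h2
  · exact ⟨M, U, 1, hU, h2, fun r => by rw [act_one, h1]⟩
  · have hsg : Equiv.Perm.sign (Equiv.swap (2 : Fin 4) 3) = -1 := by decide
    refine ⟨M.swp, U.trans (pE (Equiv.swap 2 3)), Equiv.swap 2 3, hU.trans (pE_iso _), h2,
      fun r => ?_⟩
    rw [Equiv.trans_apply, h1, pE_apply, bt_swp M hsg]

/-- The symmetries. -/
noncomputable def gE (ε : ℤˣ) (r : N) : Hs ≃ Hs where
  toFun := g M ε r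
  invFun := g M (ε * sg r) r⁻¹
  left_inv := g_inv' M ε r
  right_inv := g_inv M ε r

theorem gs_bt_of {x : N} {π : Equiv.Perm (Fin 4)} (h : sg x = Equiv.Perm.sign π) :
    Gs (bt M) x π := by
  refine ⟨(pE π).trans (gE M 1 x), fun y z => ?_, fun r => sym_bt M h r⟩
  show QQ (g M 1 x (pH π y)).1 (g M 1 x (pH π z)).1 = _
  rw [QQ_g, QQ_pH]

theorem not_gs_swap (hbc : M.b ≠ M.c) : ¬ Gs (bt M) 1 (Equiv.swap 2 3) := by
  rintro ⟨T, hT, h1⟩
  have hc : ∀ i, bt M (c i) = vH M i := fun i => g_c M 1 i oH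
  have h2 : ∀ x, T x = pH (Equiv.swap 2 3) x := by
    refine iso_ext M (T := T) (U := pH (Equiv.swap 2 3)) hT (QQ_pH _) fun i => ?_
    rw [← hc, h1, act_c, one_mul, hc, hc, pH_vH]
  have h0 : (Equiv.swap (2 : Fin 4) 3) 0 = 0 := by decide
  have h11 : (Equiv.swap (2 : Fin 4) 3) 1 = 1 := by decide
  have hsg : Equiv.Perm.sign (Equiv.swap (2 : Fin 4) 3) = -1 := by decide
  have h3 : bt M (c 0 * c 1) = cH M 0 1 (vH M 1) := by
    rw [bt, g_c_mul, g_c, cH_oH]
  have h4 := h1 (c 0 * c 1)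
  rw [h2, one_mul, map_mul, act_c, act_c, h0, h11, h3, cH_pH, pH_vH, h0, h11, hsg, one_mul] at h4
  exact hbc (bc_of_eq h4.symm)

theorem gs_bt (hbc : M.b ≠ M.c) {x : N} {π : Equiv.Perm (Fin 4)} :
    Gs (bt M) x π ↔ sg x = Equiv.Perm.sign π := by
  refine ⟨fun h => ?_, gs_bt_of M⟩
  by_contra hne
  apply not_gs_swap M hbc
  have hsg : Equiv.Perm.sign (Equiv.swap (2 : Fin 4) 3) = -1 := by decide
  have h1 : Equiv.Perm.sign π = -sg x := by
    rcases Int.units_eq_one_or (Equiv.Perm.sign π) with h2 | h2 <;>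
      rcases Int.units_eq_one_or (sg x) with h3 | h3
    · exact absurd (h3.trans h2.symm) hne
    · rw [h2, h3, neg_neg]
    · rw [h2, h3]
    · exact absurd (h3.trans h2.symm) hne
  have h2 : Gs (bt M) (act π⁻¹ x⁻¹) (π⁻¹ * Equiv.swap 2 3) := by
    refine gs_bt_of M ?_
    rw [sg_act, sg_inv, map_mul, Equiv.Perm.sign_inv, hsg, h1, mul_neg, mul_one, neg_neg]
  have h3 := h.mul h2
  rwa [act_act_inv, mul_inv_cancel, mul_inv_cancel_left] at h3

end Pool.Agent.Lib.MP_eed79e_coT
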