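import Pool.Agent.Lib.MP_eed79e_coT.Unq

/-!
The classification.
-/

set_option linter.unusedSectionVars false

namespace Pool.Agent.Lib.MP_eed79e_coT

theorem sinh_facts {ℓ : ℝ} (h : 0 < ℓ) : 0 < Real.sinh (ℓ / 2) ∧
    Real.cosh ℓ = 1 + 2 * Real.sinh (ℓ / 2) ^ 2 := by
  have h3 : Real.cosh ℓ = 1 + 2 * Real.sinh (ℓ / 2) ^ 2 := by
    have h4 : ℓ = 2 * (ℓ / 2) := by ring
    have h5 := Real.cosh_two_mul (ℓ / 2)
    rw [← h4, Real.cosh_sq] at h5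
    linarith
  exact ⟨Real.sinh_pos_iff.2 (by linarith), h3⟩

/-- The parameters. -/
noncomputable def par (ℓ θ : ℝ) (h : 0 < ℓ) : Par where
  s := Real.sinh (ℓ / 2)
  p := √((1 + Real.sinh (ℓ / 2) ^ 2) / 3)
  a := (1 + 2 * Real.cos θ) / 3
  b := (1 - Real.cos θ - √3 * Real.sin θ) / 3
  c := (1 - Real.cos θ + √3 * Real.sin θ) / 3
  hs := (sinh_facts h).1
  hp := Real.sqrt_pos.2 (by positivity)
  hsp := by
    rw [Real.sq_sqrt (by positivity)]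
    ring
  habc := by ring
  hsq := by
    have h3 : √3 ^ 2 = (3 : ℝ) := Real.sq_sqrt (by norm_num)
    have h4 := Real.sin_sq_add_cos_sq θ
    have h5 : ((1 + 2 * Real.cos θ) / 3) ^ 2 + ((1 - Real.cos θ - √3 * Real.sin θ) / 3) ^ 2 +
        ((1 - Real.cos θ + √3 * Real.sin θ) / 3) ^ 2 =
        (3 + 6 * Real.cos θ ^ 2 + 2 * √3 ^ 2 * Real.sin θ ^ 2) / 9 := by ring
    rw [h5, h3]
    linear_combination (2 / 3) * h4

theorem par_ne {ℓ θ : ℝ} (h : 0 < ℓ) (h1 : 0 < θ) (h2 : θ < Real.pi) :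
    (par ℓ θ h).b ≠ (par ℓ θ h).c := by
  have h3 : 0 < Real.sin θ := Real.sin_pos_of_pos_of_lt_pi h1 h2
  have h4 : 0 < √3 * Real.sin θ := by positivity
  intro h5
  have h6 : (1 - Real.cos θ - √3 * Real.sin θ) / 3 = (1 - Real.cos θ + √3 * Real.sin θ) / 3 := h5
  linarith

theorem pos_of_arcosh {ℓ : ℝ} (h : Real.arcosh 2 < ℓ) : 0 < ℓ :=
  lt_of_le_of_lt (Real.arcosh_nonneg (by norm_num)) h

theorem par_lt {ℓ θ : ℝ} (h : Real.arcosh 2 < ℓ) :
    (par ℓ θ (pos_of_arcosh h)).p < (par ℓ θ (pos_of_arcosh h)).s := by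
  have h0 := pos_of_arcosh h
  obtain ⟨h1, h2⟩ := sinh_facts h0
  have h4 : 2 < Real.cosh ℓ := by
    have h5 : Real.cosh (Real.arcosh 2) < Real.cosh ℓ := by
      rw [Real.cosh_lt_cosh, abs_of_nonneg (Real.arcosh_nonneg (by norm_num)), abs_of_pos h0]
      exact h
    rwa [Real.cosh_arcosh (by norm_num)] at h5
  show √((1 + Real.sinh (ℓ / 2) ^ 2) / 3) < Real.sinh (ℓ / 2)
  rw [Real.sqrt_lt' h1]
  linarith

theorem Par.ext' {M M' : Par} (h1 : M.s = M'.s) (h2 : M.p = M'.p) (h3 : M.a = M'.a)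
    (h4 : M.b = M'.b) (h5 : M.c = M'.c) : M = M' := by
  cases M
  cases M'
  subst h1
  subst h2
  subst h3
  subst h4
  subst h5
  rfl

theorem exists_par_eq {M : Par} (hbc : M.b < M.c) :
    ∃ (ℓ θ : ℝ) (h : 0 < ℓ), 0 < θ ∧ θ < Real.pi ∧ M = par ℓ θ h := by
  have hs := M.hs
  have hp := M.hp
  have habc := M.habc
  have hsq := M.hsq
  have hsp := M.hsp
  have hℓ : 0 < 2 * Real.arsinh M.s := by
    have := Real.arsinh_pos_iff.2 hs
    linarith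
  have h1 : (M.c - M.b) ^ 2 = (1 - M.a) * (1 + 3 * M.a) := by
    have e1 : M.b + M.c = 1 - M.a := by linarith
    have e2 : M.b ^ 2 + M.c ^ 2 = 1 - M.a ^ 2 := by linarith
    calc (M.c - M.b) ^ 2 = 2 * (M.b ^ 2 + M.c ^ 2) - (M.b + M.c) ^ 2 := by ring
      _ = _ := by
        rw [e1, e2]
        ring
  have h2 : 0 < (1 - M.a) * (1 + 3 * M.a) := by
    rw [← h1]
    have : 0 < M.c - M.b := by linarith
    positivity
  have ha1 : M.a ^ 2 ≤ 1 := by nlinarith [sq_nonneg M.b, sq_nonneg M.c]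
  have ha2 : M.a ≤ 1 := by nlinarith
  have ha3 : 0 < 1 - M.a := by
    rcases lt_or_eq_of_le ha2 with h | h
    · linarith
    · exfalso
      rw [h] at h2
      norm_num at h2
  have ha4 : 0 < 1 + 3 * M.a := by
    by_contra hcon
    have : (1 - M.a) * (1 + 3 * M.a) ≤ 0 :=
      mul_nonpos_of_nonneg_of_nonpos ha3.le (not_lt.1 hcon)
    linarith
  obtain ⟨x, hx⟩ : ∃ x, x = (3 * M.a - 1) / 2 := ⟨_, rfl⟩
  have hx1 : -1 < x := by rw [hx]; linarith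
  have hx2 : x < 1 := by rw [hx]; linarith
  have hcos : Real.cos (Real.arccos x) = x := Real.cos_arccos hx1.le hx2.le
  have h0θ : 0 < Real.arccos x := Real.arccos_pos.2 hx2
  have hθπ : Real.arccos x < Real.pi := by
    rcases lt_or_eq_of_le (Real.arccos_le_pi x) with h | h
    · exact h
    · exfalso
      rw [h, Real.cos_pi] at hcos
      linarith
  have hsin : 0 < Real.sin (Real.arccos x) := Real.sin_pos_of_pos_of_lt_pi h0θ hθπ
  have h3 : √3 ^ 2 = (3 : ℝ) := Real.sq_sqrt (by norm_num)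
  have h4 : 2 * (√3 * Real.sin (Real.arccos x)) = 3 * (M.c - M.b) := by
    have e1 : (2 * (√3 * Real.sin (Real.arccos x))) ^ 2 = (3 * (M.c - M.b)) ^ 2 := by
      have e2 := Real.sin_sq_add_cos_sq (Real.arccos x)
      rw [hcos] at e2
      have e3 : Real.sin (Real.arccos x) ^ 2 = 1 - x ^ 2 := by linarith
      rw [mul_pow, mul_pow, h3, e3, mul_pow, h1, hx]
      ring
    have e2 : 0 < 3 * (M.c - M.b) := by linarith
    have e3 : 0 < 2 * (√3 * Real.sin (Real.arccos x)) := by positivity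
    nlinarith
  refine ⟨2 * Real.arsinh M.s, Real.arccos x, hℓ, h0θ, hθπ, ?_⟩
  have hsinh : Real.sinh (2 * Real.arsinh M.s / 2) = M.s := by
    rw [mul_div_cancel_left₀ _ (by norm_num : (2 : ℝ) ≠ 0), Real.sinh_arsinh]
  refine Par.ext' ?_ ?_ ?_ ?_ ?_
  · show M.s = Real.sinh (2 * Real.arsinh M.s / 2)
    rw [hsinh]
  · show M.p = √((1 + Real.sinh (2 * Real.arsinh M.s / 2) ^ 2) / 3)
    rw [hsinh]
    have e1 : (1 + M.s ^ 2) / 3 = M.p ^ 2 := by linarith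
    rw [e1, Real.sqrt_sq hp.le]
  · show M.a = (1 + 2 * Real.cos (Real.arccos x)) / 3
    rw [hcos, hx]
    ring
  · show M.b = (1 - Real.cos (Real.arccos x) - √3 * Real.sin (Real.arccos x)) / 3
    rw [hcos]
    linarith
  · show M.c = (1 - Real.cos (Real.arccos x) + √3 * Real.sin (Real.arccos x)) / 3
    rw [hcos]
    linarith

open Classical in
/-- The realizations. -/
noncomputable def fam (ℓ θ : ℝ) : {v : PP // rk v = 0} → H3 :=
  if h : 0 < ℓ then bU (par ℓ θ h) else fun _ => eH oH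

theorem fam_eq {ℓ θ : ℝ} (h : 0 < ℓ) : fam ℓ θ = bU (par ℓ θ h) := dif_pos h

theorem Gs.act {Y : N → Hs} {x : N} {π σ : Equiv.Perm (Fin 4)} :
    Gs (fun r => Y (act π r)) x σ ↔ Gs Y (act π x) (π * σ * π⁻¹) := by
  constructor
  · rintro ⟨T, hT, h1⟩
    refine ⟨T, hT, fun r => ?_⟩
    have h2 : T (Y (MP_eed79e_coT.act π (MP_eed79e_coT.act π⁻¹ r))) =
        Y (MP_eed79e_coT.act π (x * MP_eed79e_coT.act σ (MP_eed79e_coT.act π⁻¹ r))) :=
      h1 (MP_eed79e_coT.act π⁻¹ r)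
    rw [act_act_inv, map_mul, ← act_mul, ← act_mul] at h2
    rw [h2]
  · rintro ⟨T, hT, h1⟩
    refine ⟨T, hT, fun r => ?_⟩
    show T (Y (MP_eed79e_coT.act π r)) = Y (MP_eed79e_coT.act π (x * MP_eed79e_coT.act σ r))
    rw [h1, map_mul, ← act_mul, ← act_mul, inv_mul_cancel_right]

section

variable {P : Type} [PartialOrder P] [BoundedOrder P] {rk₀ : P → ℤ}
  {b : {v : P // rk₀ v = 0} → H3}

/-- The classification. -/
theorem classification (hP : IsPolytope 4 rk₀) (hTe : HasTetrahedralVertexFigures rk₀)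
    (hf : IsFaithful rk₀ b) (h2 : IsTwoOrbit rk₀ b) : IsChiral rk₀ b ∧
    ∃! q : ℝ × ℝ, 0 < q.1 ∧ 0 < q.2 ∧ q.2 < Real.pi ∧ ∃ T : H3 ≃ H3, Maps rk₀ b rk T (fam q.1 q.2) := by
  have hne : (⊤ : P) ≠ ⊥ := ne_bot_of_rk hP (by rw [hP.top]; norm_num)
  obtain ⟨v, hv, _⟩ := vertex_below hP hne
  obtain ⟨lam, hlam, _⟩ := exists_isFr hTe hv
  obtain ⟨L, h, _⟩ := exists_lab hP hTe hlam
  obtain ⟨M, U, τ, hU, hbc, hX⟩ := (cfg_of hP h hf h2).classify'
  refine ⟨?_, ?_⟩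
  · refine isChiral_of hP h hf fun x σ => ?_
    rw [gp_iff_gs (Bv_eq h b), ← Gs.conj hU]
    have e1 : (fun r => U (Xv h b r)) = fun r => bt M (act τ r) := funext hX
    rw [e1, Gs.act, gs_bt M hbc.ne, sg_act, map_mul, map_mul, Equiv.Perm.sign_inv,
      mul_comm (Equiv.Perm.sign τ), mul_assoc, Int.units_mul_self, mul_one]
  · obtain ⟨ℓ, θ, hℓ, h0, hπ, hM⟩ := exists_par_eq hbc
    have hmap : Maps rk₀ b rk (eH.symm.trans (U.trans eH)) (bU M) := by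
      refine maps_of_pts (x := 1) (π := τ) hP h isPolytope labU (isom_of_iso hU) fun r => ?_
      rw [Bv_U, one_mul, ← hX]
      rfl
    refine ⟨(ℓ, θ), ⟨hℓ, h0, hπ, eH.symm.trans (U.trans eH), ?_⟩, ?_⟩
    · show Maps rk₀ b rk _ (fam ℓ θ)
      rw [fam_eq hℓ, ← hM]
      exact hmap
    · rintro ⟨ℓ', θ'⟩ ⟨hℓ', h0', hπ', T', hT'⟩
      have hT'' : Maps rk₀ b rk T' (fam ℓ' θ') := hT'
      have hℓ'' : 0 < ℓ' := hℓ'
      rw [fam_eq hℓ''] at hT''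
      rw [hM] at hmap
      obtain ⟨e1, e2⟩ := params_eq hP hTe hf hT'' hmap
      have e1' : Real.sinh (ℓ' / 2) = Real.sinh (ℓ / 2) := e1
      have e2' : (1 + 2 * Real.cos θ') / 3 = (1 + 2 * Real.cos θ) / 3 := e2
      have e3 := Real.sinh_injective e1'
      have e4 : θ' = θ := Real.injOn_cos ⟨le_of_lt h0', le_of_lt hπ'⟩ ⟨h0.le, hπ.le⟩ (by linarith)
      exact Prod.ext (by show ℓ' = ℓ; linarith) e4

end

/-- The main theorem. -/
theorem main : IsPolytope 4 rk ∧ IsCombRegular rk ∧ HasTetrahedralVertexFigures rk ∧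
    (∀ ℓ θ : ℝ, 0 < ℓ → 0 < θ → θ < Real.pi →
      ∀ e : PP, rk e = 1 → ∀ v w : {v : PP // rk v = 0}, v.1 ≤ e → w.1 ≤ e → v ≠ w →
        hdist (fam ℓ θ v) (fam ℓ θ w) = ℓ) ∧
    (∀ ℓ θ : ℝ, Real.arcosh 2 < ℓ → 0 < θ → θ < Real.pi →
      IsDiscreteSet rk (fam ℓ θ) ∧ IsFaithful rk (fam ℓ θ) ∧ IsTwoOrbit rk (fam ℓ θ)) ∧
    (∀ (P : Type) [PartialOrder P] [BoundedOrder P] (rk₀ : P → ℤ)
      (b : {v : P // rk₀ v = 0} → H3), IsPolytope 4 rk₀ → HasTetrahedralVertexFigures rk₀ →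
      IsFaithful rk₀ b → IsTwoOrbit rk₀ b → IsChiral rk₀ b ∧
        ∃! q : ℝ × ℝ, 0 < q.1 ∧ 0 < q.2 ∧ q.2 < Real.pi ∧
          ∃ T : H3 ≃ H3, Maps rk₀ b rk T (fam q.1 q.2)) := by
  refine ⟨isPolytope, isCombRegular, labU.tetra isPolytope, ?_, ?_, ?_⟩
  · intro ℓ θ h1 h2 h3 e he v w hv hw hvw
    rw [fam_eq h1]
    exact edge_length _ h1.le (sinh_facts h1).2 he hv hw hvw
  · intro ℓ θ h1 h2 h3
    rw [fam_eq (pos_of_arcosh h1)]
    obtain ⟨k1, k2, k3, _⟩ := main_U _ (par_lt h1) (par_ne (pos_of_arcosh h1) h2 h3)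
    exact ⟨k1, k2, k3⟩
  · intro P _ _ rk₀ b hP hTe hf h2
    exact classification hP hTe hf h2

end Pool.Agent.Lib.MP_eed79e_coT
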