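import Pool.Agent.Lib.MP_eed79e_coT.Star

/-!
Configurations with a symmetry group of index two: normal form of the star of the base vertex.
-/

namespace Pool.Agent.Lib.MP_eed79e_coT

/-- Some isometry acts on the configuration `X` as `r ↦ x * π r`. -/
def Gs (X : N → Hs) (x : N) (π : Equiv.Perm (Fin 4)) : Prop :=
  ∃ T : Hs ≃ Hs, Iso T ∧ ∀ r, T (X r) = X (x * act π r)

theorem Gs.mul {X : N → Hs} {x y : N} {π σ : Equiv.Perm (Fin 4)} (h : Gs X x π) (h' : Gs X y σ) :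
    Gs X (x * act π y) (π * σ) := by
  obtain ⟨T, hT, h1⟩ := h
  obtain ⟨U, hU, h2⟩ := h'
  refine ⟨U.trans T, hU.trans hT, fun r => ?_⟩
  rw [Equiv.trans_apply, h2, h1, map_mul, act_mul, mul_assoc]

theorem Gs.inv {X : N → Hs} {x : N} {π : Equiv.Perm (Fin 4)} (h : Gs X x π) :
    Gs X (act π⁻¹ x⁻¹) π⁻¹ := by
  obtain ⟨T, hT, h1⟩ := h
  refine ⟨T.symm, hT.symm, fun r => ?_⟩
  rw [Equiv.symm_apply_eq, h1, map_mul, act_act_inv, act_act_inv, mul_inv_cancel_left]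

theorem Gs.mul1 {X : N → Hs} {x : N} {π σ : Equiv.Perm (Fin 4)} (h : Gs X x π) (h' : Gs X 1 σ) :
    Gs X x (π * σ) := by
  have h1 := h.mul h'
  rwa [map_one, mul_one] at h1

theorem Gs.inv1 {X : N → Hs} {π : Equiv.Perm (Fin 4)} (h : Gs X 1 π) : Gs X 1 π⁻¹ := by
  have h1 := h.inv
  rwa [inv_one, map_one] at h1

theorem Gs.conj {X : N → Hs} {U : Hs ≃ Hs} (hU : Iso U) {x : N} {π : Equiv.Perm (Fin 4)} :
    Gs (fun r => U (X r)) x π ↔ Gs X x π := by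
  constructor
  · rintro ⟨T, hT, h1⟩
    refine ⟨(U.trans T).trans U.symm, (hU.trans hT).trans hU.symm, fun r => ?_⟩
    rw [Equiv.trans_apply, Equiv.trans_apply, h1, U.symm_apply_apply]
  · rintro ⟨T, hT, h1⟩
    refine ⟨(U.symm.trans T).trans U, (hU.symm.trans hT).trans hU, fun r => ?_⟩
    rw [Equiv.trans_apply, Equiv.trans_apply, U.symm_apply_apply, h1]

/-- The configurations with a symmetry group of index two. -/
structure Cfg (X : N → Hs) : Prop where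
  idx : ∀ (x y : N) (π σ : Equiv.Perm (Fin 4)), ¬ Gs X x π → ¬ Gs X y σ →
    Gs X (x * act (π * σ⁻¹) y⁻¹) (π * σ⁻¹)
  ex : ∃ x π, ¬ Gs X x π
  ne : ∀ (r : N) (i : Fin 4), X (r * c i) ≠ X r
  ne' : ∀ (r : N) (i j : Fin 4), i ≠ j → X (r * c i) ≠ X (r * c j)

theorem even_sq : ∀ ρ : Equiv.Perm (Fin 4), Equiv.Perm.sign ρ = 1 → ∃ τ, ρ = τ * τ := by
  decide

theorem even_tr : ∀ i : Fin 4, ∃ ρ : Equiv.Perm (Fin 4), Equiv.Perm.sign ρ = 1 ∧ ρ 0 = i := by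
  decide

theorem even_tr2 : ∀ i j : Fin 4, i ≠ j →
    ∃ ρ : Equiv.Perm (Fin 4), Equiv.Perm.sign ρ = 1 ∧ ρ 0 = i ∧ ρ 1 = j := by
  decide

theorem even_tr' : ∀ i j : Fin 4, ∃ ρ : Equiv.Perm (Fin 4), Equiv.Perm.sign ρ = 1 ∧ ρ i = j := by
  decide

theorem Cfg.conj {X : N → Hs} (h : Cfg X) {U : Hs ≃ Hs} (hU : Iso U) :
    Cfg fun r => U (X r) := by
  refine ⟨fun x y π σ hx hy => ?_, ?_, fun r i hi => h.ne r i (U.injective hi),
    fun r i j hij hi => h.ne' r i j hij (U.injective hi)⟩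
  · rw [Gs.conj hU] at hx hy ⊢
    exact h.idx x y π σ hx hy
  · obtain ⟨x, π, hx⟩ := h.ex
    exact ⟨x, π, fun h' => hx ((Gs.conj hU).1 h')⟩

/-- The even permutations are symmetries. -/
theorem Cfg.even {X : N → Hs} (h : Cfg X) {ρ : Equiv.Perm (Fin 4)} (hρ : Equiv.Perm.sign ρ = 1) :
    Gs X 1 ρ := by
  obtain ⟨τ, rfl⟩ := even_sq ρ hρ
  by_cases h1 : Gs X 1 τ
  · exact h1.mul1 h1
  · have h2 : ¬ Gs X 1 τ⁻¹ := fun h3 => h1 (by
      have := h3.inv1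
      rwa [inv_inv] at this)
    have h3 := h.idx 1 1 τ τ⁻¹ h1 h2
    rwa [inv_one, map_one, mul_one, inv_inv] at h3

theorem Cfg.gram {X : N → Hs} (h : Cfg X) : ∃ H κ : ℝ, 1 < H ∧ 1 < κ ∧
    (∀ i, QQ (X 1).1 (X (c i)).1 = -H) ∧
    (∀ i j, i ≠ j → QQ (X (c i)).1 (X (c j)).1 = -κ) := by
  have key : ∀ ρ : Equiv.Perm (Fin 4), Equiv.Perm.sign ρ = 1 →
      ∃ T : Hs ≃ Hs, Iso T ∧ T (X 1) = X 1 ∧ ∀ i, T (X (c i)) = X (c (ρ i)) := by
    intro ρ hρ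
    obtain ⟨T, hT, h1⟩ := h.even hρ
    refine ⟨T, hT, ?_, fun i => ?_⟩
    · rw [h1, map_one, one_mul]
    · rw [h1, act_c, one_mul]
  have lt_of : ∀ x y : Hs, x ≠ y → 1 < -QQ x.1 y.1 := by
    intro x y hxy
    have h1 := QQ_le x y
    have h2 : QQ x.1 y.1 ≠ -1 := fun h2 => hxy (eq_of_QQ h2)
    have h3 : QQ x.1 y.1 < -1 := lt_of_le_of_ne h1 h2
    linarith
  have ne0 : X (c 0) ≠ X 1 := by
    have := h.ne 1 0
    rwa [one_mul] at this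
  have ne1 : X (c 0) ≠ X (c 1) := by
    have := h.ne' 1 0 1 (by decide)
    rwa [one_mul, one_mul] at this
  refine ⟨-QQ (X 1).1 (X (c 0)).1, -QQ (X (c 0)).1 (X (c 1)).1, lt_of _ _ ne0.symm,
    lt_of _ _ ne1, fun i => ?_, fun i j hij => ?_⟩
  · obtain ⟨ρ, hρ, rfl⟩ := even_tr i
    obtain ⟨T, hT, h1, h2⟩ := key ρ hρ
    have h3 := hT (X 1) (X (c 0))
    rw [h1, h2] at h3
    rw [neg_neg, h3]
  · obtain ⟨ρ, hρ, rfl, rfl⟩ := even_tr2 i j hij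
    obtain ⟨T, hT, h1, h2⟩ := key ρ hρ
    have h3 := hT (X (c 0)) (X (c 1))
    rw [h2, h2] at h3
    rw [neg_neg, h3]

/-- The parameters with given distance of the neighbors. -/
theorem exists_par {H : ℝ} (hH : 1 < H) :
    ∃ M : Par, M.a = 1 ∧ M.b = 0 ∧ M.c = 0 ∧ 1 + 2 * M.s ^ 2 = H := by
  have h1 : 0 < (H - 1) / 2 := by linarith
  have h2 : 0 < (1 + (H - 1) / 2) / 3 := by linarith
  refine ⟨⟨Real.sqrt ((H - 1) / 2), Real.sqrt ((1 + (H - 1) / 2) / 3), 1, 0, 0,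
    Real.sqrt_pos.2 h1, Real.sqrt_pos.2 h2, ?_, by norm_num, by norm_num⟩, rfl, rfl, rfl, ?_⟩
  · rw [Real.sq_sqrt h1.le, Real.sq_sqrt h2.le]
    ring
  · show 1 + 2 * Real.sqrt ((H - 1) / 2) ^ 2 = H
    rw [Real.sq_sqrt h1.le]
    ring

/-- Configurations with normalized star. -/
structure Nm (M : Par) (X : N → Hs) : Prop where
  one : X 1 = oH
  st : ∀ i, X (c i) = vH M i

/-- Normal form. -/
theorem Cfg.norm {X : N → Hs} (h : Cfg X) : ∃ (M : Par) (U : Hs ≃ Hs), M.a = 1 ∧ M.b = 0 ∧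
    M.c = 0 ∧ Iso U ∧ Nm M fun r => U (X r) := by
  obtain ⟨H, κ, hH, hκ, h1, h2⟩ := h.gram
  obtain ⟨M, ha, hb, hc, hM⟩ := exists_par hH
  have h3 := gram_rel (v := fun i => (X (c i)).1) (o := (X 1).1) hκ (fun i => QQ_self _) h2 h1
    (QQ_self _)
  have hκ' : κ = kap M := by
    have h4 : M.s ^ 2 = (H - 1) / 2 := by linarith
    have h5 : M.s ^ 4 = ((H - 1) / 2) ^ 2 := by
      rw [← h4]
      ring
    unfold kap
    rw [h4, h5]
    linarith [show 16 / 3 * ((H - 1) / 2 + ((H - 1) / 2) ^ 2) = (4 * H ^ 2 - 4) / 3 by ring]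
  have hl : LinearIndependent ℝ fun i => (X (c i)).1 := lin_indep hκ (fun i => QQ_self _) h2
  obtain ⟨U, hU, h4⟩ := exists_iso_of_gram (v := fun i => X (c i)) (w := fun i => vH M i) hl
    (vH_lin M) (fun i j => by
      by_cases hij : i = j
      · subst hij
        rw [QQ_self, QQ_self]
      · rw [h2 i j hij, QQ_vH M hij, hκ'])
  refine ⟨M, U, ha, hb, hc, hU, ?_, h4⟩
  refine pt_ext M (T := id) (fun x y => rfl) fun i => ?_
  show QQ (U (X 1)).1 (vH M i).1 = QQ oH.1 (vH M i).1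
  rw [← h4 i, hU, h1, h4 i, QQ_comm oH.1, QQ_vH_oH, hM]

/-- The even permutations act by permutations of the coordinates. -/
theorem Nm.perm {M : Par} {X : N → Hs} (h : Nm M X) {ρ : Equiv.Perm (Fin 4)} (hρ : Gs X 1 ρ)
    (r : N) : X (act ρ r) = pH ρ (X r) := by
  obtain ⟨T, hT, h1⟩ := hρ
  have h2 := iso_ext M (T := T) (U := pH ρ) hT (QQ_pH ρ) (fun i => by
    rw [← h.st, h1, act_c, one_mul, h.st, h.st, pH_vH]) (X r)
  rw [← h2, h1, one_mul]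

end Pool.Agent.Lib.MP_eed79e_coT
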