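import Pool.Agent.Lib.MP_eed79e_coT.Link

/-!
Polytopes whose symmetries are the pairs with equal signs: two orbits, chirality.
-/

set_option linter.unusedSectionVars false

namespace Pool.Agent.Lib.MP_eed79e_coT

/-- The sign of a flag. -/
noncomputable def fs (r : N) (σ : Equiv.Perm (Fin 4)) : ℤˣ := sg r * Equiv.Perm.sign σ

theorem units4 : ∀ a b c d : ℤˣ, a * b = c * d ↔ b * d = a * c := by decide

theorem fs_one : fs 1 1 = 1 := by
  unfold fs
  rw [map_one, map_one, mul_one]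

theorem fs_swap : fs 1 (Equiv.swap 2 3) = -1 := by
  unfold fs
  rw [map_one, one_mul]
  decide

theorem zero_mem_J : ∀ j : Fin 4, j ≠ 0 → (0 : Fin 4) ∈ J j := by decide

section

variable {P : Type} [PartialOrder P] [BoundedOrder P] {rk : P → ℤ} {b : {v : P // rk v = 0} → H3}
  {L : N → Finset (Fin 4) → P} (hP : IsPolytope 4 rk) (h : Lab rk L)

theorem exists_flL' {Φ : Flag4 rk} {r : N} (h0 : L r ∅ = Φ.face 0) : ∃ σ, Φ = flL hP h r σ := by
  have key : ∀ i, ∃ S : Finset (Fin 4), L r S = Φ.face i := by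
    intro i
    refine (h.fr r).surj _ ?_
    rw [h0]
    exact Φ.mono.monotone (Fin.zero_le i)
  choose S hS using key
  have hcard : ∀ i, (S i).card = (i : ℕ) := by
    intro i
    have h1 := Φ.rank i
    rw [← hS, (h.fr r).card hP] at h1
    exact_mod_cast h1
  have hsub : ∀ i j, i ≤ j → S i ⊆ S j := by
    intro i j hij
    have h1 : Φ.face i ≤ Φ.face j := Φ.mono.monotone hij
    rwa [← hS, ← hS, (h.fr r).le] at h1
  obtain ⟨σ, e1, e2, e3⟩ := exists_perm (hcard 1) (hcard 2) (hcard 3) (hsub 1 2 (by decide))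
    (hsub 2 3 (by decide))
  refine ⟨σ, Flag4.ext' fun i => ?_⟩
  rw [← hS, flL_face]
  have h0 : S 0 = ∅ := Finset.card_eq_zero.1 (hcard 0)
  fin_cases i
  · show L r (S 0) = L r ((J 0).map σ.toEmbedding)
    rw [h0]
    rfl
  · show L r (S 1) = L r ((J 1).map σ.toEmbedding)
    rw [e1]
  · show L r (S 2) = L r ((J 2).map σ.toEmbedding)
    rw [e2]
  · show L r (S 3) = L r ((J 3).map σ.toEmbedding)
    rw [e3]

theorem flL_zero (r : N) (σ : Equiv.Perm (Fin 4)) : (flL hP h r σ).face 0 = L r ∅ := rfl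

variable (hf : IsFaithful rk b)
  (hG : ∀ (x : N) (π : Equiv.Perm (Fin 4)), Gp (Bv h b) x π ↔ sg x = Equiv.Perm.sign π)
include hP hf hG

theorem sameOrbit_iff {r t : N} {σ τ : Equiv.Perm (Fin 4)} :
    SameOrbit rk b (flL hP h r σ) (flL hP h t τ) ↔ fs r σ = fs t τ := by
  have h1 : sg (t * act (τ * σ⁻¹) r⁻¹) = Equiv.Perm.sign (τ * σ⁻¹) ↔ fs r σ = fs t τ := by
    rw [map_mul, sg_act, sg_inv, map_mul, Equiv.Perm.sign_inv]
    exact units4 _ _ _ _
  rw [← h1, ← hG]
  exact ⟨gp_of_sameOrbit hP h hf, sameOrbit_of_gp hP h⟩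

theorem isTwoOrbit_of : IsTwoOrbit rk b := by
  refine ⟨flL hP h 1 1, flL hP h 1 (Equiv.swap 2 3), ?_, fun Θ => ?_⟩
  · rw [sameOrbit_iff hP h hf hG, fs_one, fs_swap]
    decide
  · obtain ⟨r, σ, rfl⟩ := exists_flL hP h Θ
    rw [sameOrbit_iff hP h hf hG, sameOrbit_iff hP h hf hG, fs_one, fs_swap]
    rcases Int.units_eq_one_or (fs r σ) with h1 | h1
    · exact Or.inl h1.symm
    · exact Or.inr h1.symm

theorem isChiral_of : IsChiral rk b := by
  rintro Φ Ψ ⟨i, hi, hj⟩ hs
  obtain ⟨r, σ, rfl⟩ := exists_flL hP h Φ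
  by_cases h0 : i = 0
  · subst h0
    have hJ : ∀ j, j ≠ 0 → (flL hP h (r * c (σ 0)) σ).face j = (flL hP h r σ).face j := by
      intro j hj
      rw [flL_face, flL_face]
      exact h.step r (σ 0) _ ((mem_map' σ).2 (zero_mem_J j hj))
    have h1 : Ψ = flL hP h (r * c (σ 0)) σ := by
      refine Flag4.ext' fun j => ?_
      by_cases hj0 : j = 0
      · subst hj0
        have r1 : rk ((flL hP h r σ).face 1) = 1 := (flL hP h r σ).rank 1
        have r0 : rk ((flL hP h r σ).face 0) = 0 := (flL hP h r σ).rank 0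
        have r2 : rk (Ψ.face 0) = 0 := Ψ.rank 0
        have r3 : rk ((flL hP h (r * c (σ 0)) σ).face 0) = 0 :=
          (flL hP h (r * c (σ 0)) σ).rank 0
        have l1 := (flL hP h r σ).mono.monotone (Fin.zero_le 1)
        have l2 := Ψ.mono.monotone (Fin.zero_le 1)
        have l3 := (flL hP h (r * c (σ 0)) σ).mono.monotone (Fin.zero_le 1)
        rw [← hj 1 (by decide)] at l2
        rw [hJ 1 (by decide)] at l3
        exact two_vertices hP r1 r0 l1 r2 l2 r3 l3 hi.symm (h.ne r (σ 0))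
      · rw [hJ j hj0]
        exact (hj j hj0).symm
    rw [h1, sameOrbit_iff hP h hf hG] at hs
    unfold fs at hs
    have h2 := mul_right_cancel hs
    rw [map_mul, sg_c] at h2
    have h3 : (1 : ℤˣ) = -1 := mul_left_cancel (a := sg r) (by rw [mul_one]; exact h2)
    exact absurd h3 (by decide)
  · obtain ⟨τ, rfl⟩ := exists_flL' hP h (Φ := Ψ) (r := r) (by
      rw [← flL_zero hP h r σ]
      exact hj 0 (fun h => h0 h.symm))
    have hmap : ∀ j, j ≠ i → (J j).map (σ⁻¹ * τ).toEmbedding = J j := fun j hji =>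
      map_inv_mul.2 ((h.fr r).inj (hj j hji))
    have h4 : (J i).map (σ⁻¹ * τ).toEmbedding ≠ J i := by
      intro h5
      apply hi
      rw [flL_face, flL_face, map_inv_mul.1 h5]
    have h5 := perm_sign i _ hmap h4
    rw [sameOrbit_iff hP h hf hG] at hs
    unfold fs at hs
    have h6 := mul_left_cancel hs
    rw [map_mul, Equiv.Perm.sign_inv, h6, Int.units_mul_self] at h5
    exact absurd h5 (by decide)

end

end Pool.Agent.Lib.MP_eed79e_coT
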