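import Pool.Agent.Lib.MP_eed79e_coT.Poset

/-!
The poset `PP` is an abstract 4-polytope.
-/

namespace Pool.Agent.Lib.MP_eed79e_coT

/-- Maximal chains in a poset without gaps. -/
theorem ncard_maxChain {P : Type} [PartialOrder P] [BoundedOrder P] {rk : P → ℤ} {n : ℕ}
    (hm : StrictMono rk) (hb : rk ⊥ = -1) (ht : rk ⊤ = n)
    (hd : ∀ F G : P, F < G → 2 ≤ rk G - rk F → ∃ H, F < H ∧ H < G) (C : Set P)
    (hC : IsMaxChain (· ≤ ·) C) : C.ncard = n + 2 := by
  classical
  have hle : ∀ x ∈ C, ∀ y ∈ C, rk x ≤ rk y → x ≤ y := by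
    intro x hx y hy h
    rcases hC.1.total hx hy with h1 | h1
    · exact h1
    · rcases h1.lt_or_eq with h2 | h2
      · exact absurd (hm h2) (not_lt.2 h)
      · exact h2.ge
  have hinj : Set.InjOn rk C := fun x hx y hy h =>
    le_antisymm (hle x hx y hy h.le) (hle y hy x hx h.ge)
  have hbot : (⊥ : P) ∈ C := hC.bot_mem
  have htop : (⊤ : P) ∈ C := hC.top_mem
  have himg : rk '' C = Set.Icc (-1) (n : ℤ) := by
    refine Set.Subset.antisymm ?_ ?_
    · rintro _ ⟨x, hx, rfl⟩
      exact ⟨hb ▸ hm.monotone bot_le, ht ▸ hm.monotone le_top⟩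
    · rintro k ⟨hk1, hk2⟩
      by_contra hcon
      have hne : ∀ x ∈ C, rk x ≠ k := fun x hx h => hcon ⟨x, hx, h⟩
      obtain ⟨F, ⟨hFC, hFk⟩, hFmin⟩ := (measure fun x => (k - rk x).toNat).wf.has_min
        {x | x ∈ C ∧ rk x < k} ⟨⊥, hbot, lt_of_le_of_ne (hb ▸ hk1) (hne ⊥ hbot)⟩
      obtain ⟨G, ⟨hGC, hGk⟩, hGmin⟩ := (measure fun x => (rk x - k).toNat).wf.has_min
        {x | x ∈ C ∧ k < rk x} ⟨⊤, htop, lt_of_le_of_ne (ht ▸ hk2) (hne ⊤ htop).symm⟩
      have hF' : ∀ x ∈ C, rk x < k → rk x ≤ rk F := by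
        intro x hx h
        have h1 : ¬ (k - rk x).toNat < (k - rk F).toNat := hFmin x ⟨hx, h⟩
        omega
      have hG' : ∀ x ∈ C, k < rk x → rk G ≤ rk x := by
        intro x hx h
        have h1 : ¬ (rk x - k).toNat < (rk G - k).toNat := hGmin x ⟨hx, h⟩
        omega
      have hFG : F < G := lt_of_le_of_ne (hle F hFC G hGC (by omega)) (by
        rintro rfl
        omega)
      obtain ⟨H, h1, h2⟩ := hd F G hFG (by omega)
      have hch : IsChain (· ≤ ·) (insert H C) := by
        refine hC.1.insert fun x hx _ => ?_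
        rcases lt_or_gt_of_ne (hne x hx) with h3 | h3
        · exact Or.inr ((hle x hx F hFC (hF' x hx h3)).trans h1.le)
        · exact Or.inl (h2.le.trans (hle G hGC x hx (hG' x hx h3)))
      have hHC : H ∈ C := by
        rw [hC.2 hch (Set.subset_insert H C)]
        exact Set.mem_insert H C
      have h3 := hm h1
      have h4 := hm h2
      rcases lt_or_gt_of_ne (hne H hHC) with h5 | h5
      · exact absurd (hF' H hHC h5) (not_le.2 h3)
      · exact absurd (hG' H hHC h5) (not_le.2 h4)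
  rw [← hinj.ncard_image, himg, Set.ncard_eq_toFinset_card', Set.toFinset_Icc,
    Int.card_Icc]
  omega

theorem exists_between {F G : PP} (h : F < G) (h2 : 2 ≤ rk G - rk F) : ∃ H, F < H ∧ H < G := by
  rcases cases_bot_mk G with rfl | ⟨t, T, rfl⟩
  · exact absurd h not_lt_bot
  rcases cases_bot_mk F with rfl | ⟨r, S, rfl⟩
  · rw [rk_bot, rk_mk] at h2
    refine ⟨(mk t ∅ : PP), WithBot.bot_lt_coe _, ?_⟩
    rw [WithBot.coe_lt_coe, mk_lt_mk, inv_mul_cancel]
    refine ⟨?_, Subgroup.one_mem _⟩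
    rw [Finset.empty_ssubset, ← Finset.card_pos]
    omega
  · rw [WithBot.coe_lt_coe] at h
    obtain ⟨T', hT', hST⟩ := mk_le h.le
    rw [hT'] at h2 ⊢
    rw [rk_mk, rk_mk] at h2
    obtain ⟨i, hi, hiS⟩ := Finset.exists_mem_notMem_of_card_lt_card (s := S) (t := T') (by omega)
    refine ⟨(mk r (insert i S) : PP), ?_, ?_⟩
    · rw [WithBot.coe_lt_coe, mk_lt_mk, inv_mul_cancel]
      exact ⟨Finset.ssubset_insert hiS, Subgroup.one_mem _⟩
    · rw [WithBot.coe_lt_coe, mk_lt_mk, inv_mul_cancel]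
      refine ⟨?_, Subgroup.one_mem _⟩
      rw [Finset.ssubset_iff_subset_ne]
      refine ⟨Finset.insert_subset hi hST, fun h3 => ?_⟩
      have h4 := Finset.card_insert_of_notMem hiS
      rw [h3] at h4
      omega

theorem between_mk {r : N} {S T : Finset (Fin 4)} {H : PP} :
    H ∈ Between (mk r S : PP) (mk r T : PP) ↔ ∃ A, H = (mk r A : PP) ∧ S ⊂ A ∧ A ⊂ T := by
  constructor
  · rintro ⟨h1, h2⟩
    rcases cases_bot_mk H with rfl | ⟨t, A, rfl⟩
    · exact absurd h1 not_lt_bot
    rw [WithBot.coe_lt_coe] at h1 h2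
    obtain ⟨A', hA', _⟩ := mk_le h1.le
    rw [hA', mk_lt_mk] at h1 h2
    exact ⟨A', by rw [hA'], h1.1, h2.1⟩
  · rintro ⟨A, rfl, h1, h2⟩
    constructor
    · rw [WithBot.coe_lt_coe, mk_lt_mk, inv_mul_cancel]
      exact ⟨h1, Subgroup.one_mem _⟩
    · rw [WithBot.coe_lt_coe, mk_lt_mk, inv_mul_cancel]
      exact ⟨h2, Subgroup.one_mem _⟩

theorem diamond {F G : PP} (h : F < G) (h2 : rk G - rk F = 2) : (Between F G).ncard = 2 := by
  rcases cases_bot_mk G with rfl | ⟨t, T, rfl⟩
  · exact absurd h not_lt_bot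
  rcases cases_bot_mk F with rfl | ⟨r, S, rfl⟩
  · rw [rk_bot, rk_mk] at h2
    obtain ⟨i, rfl⟩ := Finset.card_eq_one.1 (show T.card = 1 by omega)
    have h3 : Between (⊥ : PP) (mk t {i} : PP) = {(mk t ∅ : PP), (mk (t * c i) ∅ : PP)} := by
      ext H
      constructor
      · rintro ⟨h4, h5⟩
        rcases cases_bot_mk H with rfl | ⟨s, A, rfl⟩
        · exact absurd h4 (lt_irrefl _)
        rw [WithBot.coe_lt_coe, mk_lt_mk] at h5
        have h6 : A = ∅ := Finset.ssubset_singleton_iff.1 h5.1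
        subst h6
        rcases mem_NS_singleton.1 h5.2 with h7 | h7
        · left
          rw [inv_mul_eq_one] at h7
          rw [h7]
        · right
          rw [inv_mul_eq_iff_eq_mul] at h7
          rw [h7]
          rfl
      · rintro (rfl | rfl)
        · refine ⟨WithBot.bot_lt_coe _, ?_⟩
          rw [WithBot.coe_lt_coe, mk_lt_mk, inv_mul_cancel]
          exact ⟨Finset.ssubset_singleton_iff.2 rfl, Subgroup.one_mem _⟩
        · refine ⟨WithBot.bot_lt_coe _, ?_⟩
          rw [WithBot.coe_lt_coe, mk_lt_mk, inv_mul_cancel_left]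
          exact ⟨Finset.ssubset_singleton_iff.2 rfl, c_mem (Finset.mem_singleton_self i)⟩
    rw [h3, Set.ncard_pair]
    intro h4
    rw [WithBot.coe_inj, mk_eq_mk, NS_empty, Subgroup.mem_bot] at h4
    have h5 : c i = 1 := by
      have h6 := h4.2
      rw [mul_inv_rev, mul_assoc, inv_mul_cancel, mul_one, c_inv] at h6
      exact h6
    exact c_ne_one i h5
  · rw [WithBot.coe_lt_coe] at h
    obtain ⟨T', hT', hST⟩ := mk_le h.le
    rw [hT'] at h2 ⊢
    rw [rk_mk, rk_mk] at h2
    have hcard : (T' \ S).card = 2 := by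
      have := Finset.card_sdiff_add_card_eq_card hST
      omega
    obtain ⟨i, j, hij, hTS⟩ := Finset.card_eq_two.1 hcard
    have hi : i ∈ T' \ S := by rw [hTS]; exact Finset.mem_insert_self _ _
    have hj : j ∈ T' \ S := by
      rw [hTS]
      exact Finset.mem_insert_of_mem (Finset.mem_singleton_self _)
    rw [Finset.mem_sdiff] at hi hj
    have h3 : Between (mk r S : PP) (mk r T' : PP) =
        {(mk r (insert i S) : PP), (mk r (insert j S) : PP)} := by
      ext H
      rw [between_mk]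
      constructor
      · rintro ⟨A, rfl, hSA, hAT⟩
        have hAc : A.card = S.card + 1 := by
          have h4 := Finset.card_lt_card hSA
          have h5 := Finset.card_lt_card hAT
          omega
        obtain ⟨k, hk, hkS⟩ := Finset.exists_of_ssubset hSA
        have h6 : insert k S = A := Finset.eq_of_subset_of_card_le
          (Finset.insert_subset hk hSA.1) (by rw [Finset.card_insert_of_notMem hkS]; omega)
        have h7 : k ∈ T' \ S := Finset.mem_sdiff.2 ⟨hAT.1 hk, hkS⟩
        rw [hTS, Finset.mem_insert, Finset.mem_singleton] at h7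
        rcases h7 with rfl | rfl
        · left
          rw [h6]
        · right
          rw [h6]
          rfl
      · rintro (rfl | rfl)
        · refine ⟨_, rfl, Finset.ssubset_insert hi.2, ?_⟩
          rw [Finset.ssubset_iff_subset_ne]
          refine ⟨Finset.insert_subset hi.1 hST, fun h8 => ?_⟩
          have h4 := Finset.card_insert_of_notMem hi.2
          rw [h8] at h4
          omega
        · refine ⟨_, rfl, Finset.ssubset_insert hj.2, ?_⟩
          rw [Finset.ssubset_iff_subset_ne]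
          refine ⟨Finset.insert_subset hj.1 hST, fun h8 => ?_⟩
          have h4 := Finset.card_insert_of_notMem hj.2
          rw [h8] at h4
          omega
    rw [h3, Set.ncard_pair]
    intro h4
    rw [WithBot.coe_inj, mk_eq_mk] at h4
    have h5 : i ∈ insert j S := by
      rw [← h4.1]
      exact Finset.mem_insert_self _ _
    rw [Finset.mem_insert] at h5
    exact h5.elim hij hi.2

/-- The incidence relation in a section. -/
def IncRel (F G : PP) : PP → PP → Prop :=
  fun A B => A ∈ Between F G ∧ B ∈ Between F G ∧ (A ≤ B ∨ B ≤ A)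

theorem incRel_symm {F G A B : PP} (h : IncRel F G A B) : IncRel F G B A :=
  ⟨h.2.1, h.1, h.2.2.symm⟩

theorem incRel_trans_symm {F G A B : PP} (h : Relation.ReflTransGen (IncRel F G) A B) :
    Relation.ReflTransGen (IncRel F G) B A := by
  induction h with
  | refl => exact Relation.ReflTransGen.refl
  | tail _ h1 ih => exact Relation.ReflTransGen.head (incRel_symm h1) ih

theorem conn_vertices {t : N} {T : Finset (Fin 4)} (hT : 2 ≤ T.card) {y : N} (hy : y ∈ NS T) :
    Relation.ReflTransGen (IncRel ⊥ (mk t T)) (mk t ∅) (mk (t * y) ∅) := by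
  have hv : ∀ y ∈ NS T, (mk (t * y) ∅ : PP) ∈ Between (⊥ : PP) (mk t T : PP) := by
    intro y hy
    refine ⟨WithBot.bot_lt_coe _, ?_⟩
    rw [WithBot.coe_lt_coe, mk_lt_mk, inv_mul_cancel_left]
    refine ⟨?_, hy⟩
    rw [Finset.empty_ssubset, ← Finset.card_pos]
    omega
  have he : ∀ y ∈ NS T, ∀ i ∈ T, (mk (t * y) {i} : PP) ∈ Between (⊥ : PP) (mk t T : PP) := by
    intro y hy i hi
    refine ⟨WithBot.bot_lt_coe _, ?_⟩
    rw [WithBot.coe_lt_coe, mk_lt_mk, inv_mul_cancel_left]
    refine ⟨?_, hy⟩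
    rw [Finset.ssubset_iff_subset_ne]
    refine ⟨Finset.singleton_subset_iff.2 hi, fun h => ?_⟩
    rw [← h, Finset.card_singleton] at hT
    omega
  have step : ∀ y ∈ NS T, ∀ i ∈ T,
      Relation.ReflTransGen (IncRel ⊥ (mk t T)) (mk t ∅) (mk (t * y) ∅) →
      Relation.ReflTransGen (IncRel ⊥ (mk t T)) (mk t ∅) (mk (t * (y * c i)) ∅) := by
    intro y hy i hi h
    refine (h.tail (b := (mk (t * y) ∅ : PP)) (c := (mk (t * y) {i} : PP)) ?_).tail ?_
    · refine ⟨hv y hy, he y hy i hi, Or.inl ?_⟩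
      rw [WithBot.coe_le_coe, mk_le_mk, inv_mul_cancel]
      exact ⟨Finset.empty_subset _, Subgroup.one_mem _⟩
    · refine ⟨he y hy i hi, hv (y * c i) (Subgroup.mul_mem _ hy (c_mem hi)), Or.inr ?_⟩
      have h3 : (t * y)⁻¹ * (t * (y * c i)) = c i := by group
      rw [WithBot.coe_le_coe, mk_le_mk, h3]
      exact ⟨Finset.empty_subset _, c_mem (Finset.mem_singleton_self i)⟩
  have main : y ∈ NS T ∧
      Relation.ReflTransGen (IncRel ⊥ (mk t T)) (mk t ∅) (mk (t * y) ∅) := by
    refine Subgroup.closure_induction_right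
      (p := fun y _ => y ∈ NS T ∧
        Relation.ReflTransGen (IncRel ⊥ (mk t T)) (mk t ∅) (mk (t * y) ∅)) ?_ ?_ ?_ hy
    · refine ⟨Subgroup.one_mem _, ?_⟩
      rw [mul_one]
    · rintro y _ _ ⟨i, hi, rfl⟩ ⟨h1, h2⟩
      exact ⟨Subgroup.mul_mem _ h1 (c_mem hi), step y h1 i hi h2⟩
    · rintro y _ _ ⟨i, hi, rfl⟩ ⟨h1, h2⟩
      rw [c_inv]
      exact ⟨Subgroup.mul_mem _ h1 (c_mem hi), step y h1 i hi h2⟩
  exact main.2

theorem connected {F G : PP} (h : F < G) (h2 : 3 ≤ rk G - rk F) : Connected F G := by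
  rcases cases_bot_mk G with rfl | ⟨t, T, rfl⟩
  · exact absurd h not_lt_bot
  rcases cases_bot_mk F with rfl | ⟨r, S, rfl⟩
  · rw [rk_bot, rk_mk] at h2
    have hT : 2 ≤ T.card := by omega
    -- every face is joined to `mk t ∅`
    have key : ∀ H ∈ Between (⊥ : PP) (mk t T : PP),
        Relation.ReflTransGen (IncRel ⊥ (mk t T)) (mk t ∅) H := by
      intro H hH
      obtain ⟨h4, h5⟩ := id hH
      rcases cases_bot_mk H with rfl | ⟨s, A, rfl⟩
      · exact absurd h4 (lt_irrefl _)
      rw [WithBot.coe_lt_coe, mk_lt_mk] at h5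
      have h6 := conn_vertices (t := t) hT h5.2
      rw [mul_inv_cancel_left] at h6
      refine h6.tail ⟨⟨WithBot.bot_lt_coe _, ?_⟩, hH, Or.inl ?_⟩
      · rw [WithBot.coe_lt_coe, mk_lt_mk]
        refine ⟨?_, h5.2⟩
        rw [Finset.empty_ssubset, ← Finset.card_pos]
        omega
      · rw [WithBot.coe_le_coe, mk_le_mk, inv_mul_cancel]
        exact ⟨Finset.empty_subset _, Subgroup.one_mem _⟩
    intro H hH H' hH'
    exact (incRel_trans_symm (key H hH)).trans (key H' hH')
  · rw [WithBot.coe_lt_coe] at h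
    obtain ⟨T', hT', hST⟩ := mk_le h.le
    rw [hT'] at h2 ⊢
    rw [rk_mk, rk_mk] at h2
    intro H hH H' hH'
    obtain ⟨A, rfl, hSA, hAT⟩ := between_mk.1 hH
    obtain ⟨A', rfl, hSA', hAT'⟩ := between_mk.1 hH'
    obtain ⟨i, hi, hiS⟩ := Finset.exists_of_ssubset hSA
    obtain ⟨j, hj, hjS⟩ := Finset.exists_of_ssubset hSA'
    have hcard : ∀ B : Finset (Fin 4), B ⊆ T' → B.card ≤ S.card + 2 → B ⊂ T' := by
      intro B hB hc
      rw [Finset.ssubset_iff_subset_ne]
      refine ⟨hB, fun h3 => ?_⟩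
      rw [h3] at hc
      omega
    have hle : ∀ B B' : Finset (Fin 4), B ⊆ B' → (mk r B : PP) ≤ (mk r B' : PP) := by
      intro B B' hB
      rw [WithBot.coe_le_coe, mk_le_mk, inv_mul_cancel]
      exact ⟨hB, Subgroup.one_mem _⟩
    have hci := Finset.card_insert_of_notMem hiS
    have hcj := Finset.card_insert_of_notMem hjS
    have hcij : (insert i (insert j S)).card ≤ S.card + 2 := by
      have := Finset.card_insert_le i (insert j S)
      omega
    have b1 : (mk r (insert i S) : PP) ∈ Between (mk r S : PP) (mk r T' : PP) :=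
      between_mk.2 ⟨_, rfl, Finset.ssubset_insert hiS,
        hcard _ (Finset.insert_subset (hAT.1 hi) hST) (by omega)⟩
    have b2 : (mk r (insert j S) : PP) ∈ Between (mk r S : PP) (mk r T' : PP) :=
      between_mk.2 ⟨_, rfl, Finset.ssubset_insert hjS,
        hcard _ (Finset.insert_subset (hAT'.1 hj) hST) (by omega)⟩
    have b3 : (mk r (insert i (insert j S)) : PP) ∈ Between (mk r S : PP) (mk r T' : PP) := by
      refine between_mk.2 ⟨_, rfl, ?_, hcard _ (Finset.insert_subset (hAT.1 hi)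
        (Finset.insert_subset (hAT'.1 hj) hST)) hcij⟩
      exact Finset.ssubset_of_ssubset_of_subset (Finset.ssubset_insert hjS)
        (Finset.subset_insert _ _)
    have s1 : IncRel (mk r S : PP) (mk r T' : PP) (mk r A) (mk r (insert i S)) :=
      ⟨hH, b1, Or.inr (hle _ _ (Finset.insert_subset hi hSA.1))⟩
    have s2 : IncRel (mk r S : PP) (mk r T' : PP) (mk r (insert i S))
        (mk r (insert i (insert j S))) :=
      ⟨b1, b3, Or.inl (hle _ _ (Finset.insert_subset_insert i (Finset.subset_insert j S)))⟩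
    have s3 : IncRel (mk r S : PP) (mk r T' : PP) (mk r (insert i (insert j S)))
        (mk r (insert j S)) := ⟨b3, b2, Or.inr (hle _ _ (Finset.subset_insert _ _))⟩
    have s4 : IncRel (mk r S : PP) (mk r T' : PP) (mk r (insert j S)) (mk r A') :=
      ⟨b2, hH', Or.inl (hle _ _ (Finset.insert_subset hj hSA'.1))⟩
    exact Relation.ReflTransGen.head s1 (Relation.ReflTransGen.head s2
      (Relation.ReflTransGen.head s3 (Relation.ReflTransGen.single s4)))

theorem isPolytope : IsPolytope 4 rk where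
  strictMono := rk_strictMono
  bot := rk_bot
  top := rfl
  chains := fun C hC => ncard_maxChain (n := 4) rk_strictMono rk_bot rfl
    (fun _ _ h h2 => exists_between h h2) C hC
  diamond := fun _ _ h h2 => diamond h h2
  connected := fun _ _ h h2 => connected h h2

end Pool.Agent.Lib.MP_eed79e_coT
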