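import Pool.Agent.Lib.MP_eed79e_coT.Defs
import Pool.Agent.Lib.MP_eed79e_coT.Grp

/-!
The poset: `⊥` and the left cosets of the subgroups `NS S`.
-/

namespace Pool.Agent.Lib.MP_eed79e_coT

/-- The left coset `r * NS S`. -/
def coset (r : N) (S : Finset (Fin 4)) : Set N := {x | r⁻¹ * x ∈ NS S}

theorem mem_coset {r x : N} {S : Finset (Fin 4)} : x ∈ coset r S ↔ r⁻¹ * x ∈ NS S := Iff.rfl

theorem self_mem_coset (r : N) (S : Finset (Fin 4)) : r ∈ coset r S := by
  rw [mem_coset, inv_mul_cancel]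
  exact Subgroup.one_mem _

theorem coset_subset {r t : N} {S T : Finset (Fin 4)} (hST : S ⊆ T) (h : t⁻¹ * r ∈ NS T) :
    coset r S ⊆ coset t T := by
  intro x hx
  rw [mem_coset] at hx ⊢
  have h1 : t⁻¹ * x = (t⁻¹ * r) * (r⁻¹ * x) := by group
  rw [h1]
  exact Subgroup.mul_mem _ h (NS_mono hST hx)

theorem coset_eq {r t : N} {S : Finset (Fin 4)} (h : t⁻¹ * r ∈ NS S) : coset r S = coset t S := by
  refine Set.Subset.antisymm (coset_subset (Finset.Subset.refl _) h)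
    (coset_subset (Finset.Subset.refl _) ?_)
  have h1 : r⁻¹ * t = (t⁻¹ * r)⁻¹ := by group
  rw [h1]
  exact Subgroup.inv_mem _ h

theorem coset_congr {r t : N} {S : Finset (Fin 4)} (h : r ∈ coset t S) : coset r S = coset t S :=
  coset_eq h

theorem coset_univ (r : N) : coset r Finset.univ = Set.univ := by
  rw [Set.eq_univ_iff_forall]
  intro x
  rw [mem_coset, NS_univ]
  exact Subgroup.mem_top _

theorem coset_empty (r : N) : coset r ∅ = {r} := by
  ext x
  rw [mem_coset, NS_empty, Subgroup.mem_bot, Set.mem_singleton_iff, inv_mul_eq_one, eq_comm]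

theorem coset_singleton (r : N) (i : Fin 4) : coset r {i} = {r, r * c i} := by
  ext x
  rw [mem_coset, mem_NS_singleton, Set.mem_insert_iff, Set.mem_singleton_iff, inv_mul_eq_one,
    inv_mul_eq_iff_eq_mul]
  constructor
  · rintro (h | h)
    · exact Or.inl h.symm
    · exact Or.inr h
  · rintro (h | h)
    · exact Or.inl h.symm
    · exact Or.inr h

/-- The coset determines the set `S`. -/
theorem subset_of_coset_subset {r t : N} {S T : Finset (Fin 4)} (h : coset r S ⊆ coset t T) :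
    S ⊆ T := by
  intro i hi
  have h1 : r ∈ coset t T := h (self_mem_coset r S)
  have h2 : r * c i ∈ coset t T := h (by
    rw [mem_coset, inv_mul_cancel_left]
    exact c_mem hi)
  rw [mem_coset] at h1 h2
  have h3 : (t⁻¹ * r)⁻¹ * (t⁻¹ * (r * c i)) ∈ NS T :=
    Subgroup.mul_mem _ (Subgroup.inv_mem _ h1) h2
  have h4 : (t⁻¹ * r)⁻¹ * (t⁻¹ * (r * c i)) = c i := by group
  rw [h4] at h3
  exact c_mem_iff.1 h3

/-- The faces of rank at least `0`. -/
def CF : Type := {F : Finset (Fin 4) × Set N // ∃ r : N, F.2 = coset r F.1}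

instance : PartialOrder CF := inferInstanceAs (PartialOrder {F : Finset (Fin 4) × Set N // ∃ r : N, F.2 = coset r F.1})

/-- The face `r * NS S`. -/
def mk (r : N) (S : Finset (Fin 4)) : CF := ⟨(S, coset r S), r, rfl⟩

theorem exists_mk (F : CF) : ∃ r, F = mk r F.1.1 := by
  obtain ⟨⟨S, A⟩, r, hr⟩ := F
  refine ⟨r, Subtype.ext ?_⟩
  exact Prod.ext rfl hr

theorem exists_mk' (F : CF) : ∃ r S, F = mk r S := by
  obtain ⟨r, hr⟩ := exists_mk F
  exact ⟨r, _, hr⟩

theorem mk_le_mk {r t : N} {S T : Finset (Fin 4)} : mk r S ≤ mk t T ↔ S ⊆ T ∧ t⁻¹ * r ∈ NS T := by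
  constructor
  · rintro ⟨h1, h2⟩
    exact ⟨h1, h2 (self_mem_coset r S)⟩
  · rintro ⟨h1, h2⟩
    exact ⟨h1, coset_subset h1 h2⟩

theorem mk_eq_mk {r t : N} {S T : Finset (Fin 4)} : mk r S = mk t T ↔ S = T ∧ t⁻¹ * r ∈ NS T := by
  constructor
  · intro h
    have h1 : mk r S ≤ mk t T := h.le
    have h2 : mk t T ≤ mk r S := h.ge
    exact ⟨Finset.Subset.antisymm (mk_le_mk.1 h1).1 (mk_le_mk.1 h2).1, (mk_le_mk.1 h1).2⟩
  · rintro ⟨rfl, h⟩
    exact Subtype.ext (Prod.ext rfl (coset_eq h))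

theorem mk_lt_mk {r t : N} {S T : Finset (Fin 4)} : mk r S < mk t T ↔ S ⊂ T ∧ t⁻¹ * r ∈ NS T := by
  rw [lt_iff_le_and_ne, mk_le_mk, Ne, mk_eq_mk, Finset.ssubset_iff_subset_ne]
  tauto

theorem le_mk {F : CF} {t : N} {T : Finset (Fin 4)} (h : F ≤ mk t T) :
    ∃ r S, F = mk r S ∧ S ⊆ T ∧ t⁻¹ * r ∈ NS T := by
  obtain ⟨r, S, rfl⟩ := exists_mk' F
  exact ⟨r, S, rfl, mk_le_mk.1 h⟩

/-- The faces above `mk r S` are the `mk r T`. -/
theorem mk_le {F : CF} {r : N} {S : Finset (Fin 4)} (h : mk r S ≤ F) :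
    ∃ T, F = mk r T ∧ S ⊆ T := by
  obtain ⟨t, T, rfl⟩ := exists_mk' F
  rw [mk_le_mk] at h
  refine ⟨T, mk_eq_mk.2 ⟨rfl, ?_⟩, h.1⟩
  have h1 : r⁻¹ * t = (t⁻¹ * r)⁻¹ := by group
  rw [h1]
  exact Subgroup.inv_mem _ h.2

instance : OrderTop CF where
  top := mk 1 Finset.univ
  le_top F := by
    obtain ⟨r, S, rfl⟩ := exists_mk' F
    rw [mk_le_mk, NS_univ]
    exact ⟨Finset.subset_univ _, Subgroup.mem_top _⟩

theorem top_eq : (⊤ : CF) = mk 1 Finset.univ := rfl

/-- The polytope. -/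
abbrev PP : Type := WithBot CF

/-- The rank. -/
def rk : PP → ℤ := fun F => WithBot.recBotCoe (C := fun _ => ℤ) (-1) (fun F => (F.1.1.card : ℤ)) F

theorem rk_bot : rk ⊥ = -1 := rfl

theorem rk_coe (F : CF) : rk (F : PP) = (F.1.1.card : ℤ) := rfl

theorem rk_mk (r : N) (S : Finset (Fin 4)) : rk (mk r S : PP) = (S.card : ℤ) := rfl

theorem cases_bot_mk (F : PP) : F = ⊥ ∨ ∃ r S, F = (mk r S : PP) := by
  induction F using WithBot.recBotCoe with
  | bot => exact Or.inl rfl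
  | coe F =>
    obtain ⟨r, S, h⟩ := exists_mk' F
    exact Or.inr ⟨r, S, by rw [h]⟩

theorem rk_strictMono : StrictMono rk := by
  intro F G h
  rcases cases_bot_mk F with rfl | ⟨r, S, rfl⟩
  · rcases cases_bot_mk G with rfl | ⟨t, T, rfl⟩
    · exact absurd h (lt_irrefl _)
    · rw [rk_bot, rk_mk]
      have : (0 : ℤ) ≤ (T.card : ℤ) := Int.natCast_nonneg _
      omega
  · rcases cases_bot_mk G with rfl | ⟨t, T, rfl⟩
    · exact absurd h not_lt_bot
    · rw [rk_mk, rk_mk]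
      rw [WithBot.coe_lt_coe, mk_lt_mk] at h
      exact_mod_cast Finset.card_lt_card h.1

end Pool.Agent.Lib.MP_eed79e_coT
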