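import Pool.Agent.Lib.MP_eed79e_coT.Lab

/-!
Representatives of the faces of a labelled polytope; isometries that permute the vertices.
-/

set_option linter.unusedSectionVars false

namespace Pool.Agent.Lib.MP_eed79e_coT

/-- An edge of the point configuration `B`. -/
def edge (B : N → H3) (t : N) (i : Fin 4) : Set H3 := {B t, B (t * c i)}

/-- The edges of a face. -/
def ES (B : N → H3) (r : N) (S : Finset (Fin 4)) : Set (Set H3) :=
  {s | ∃ t ∈ coset r S, ∃ i ∈ S, edge B t i = s}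

/-- The 2-faces of a face. -/
def FS (B : N → H3) (r : N) (S : Finset (Fin 4)) : Set (Set (Set H3)) :=
  {s | ∃ t ∈ coset r S, ∃ U, U ⊆ S ∧ U.card = 2 ∧ ES B t U = s}

theorem edge_mem_ES {B : N → H3} {t r : N} {S : Finset (Fin 4)} {i : Fin 4}
    (ht : t ∈ coset r S) (hi : i ∈ S) : edge B t i ∈ ES B r S := ⟨t, ht, i, hi, rfl⟩

section

variable {P : Type} [PartialOrder P] [BoundedOrder P] {rk : P → ℤ}
  {L : N → Finset (Fin 4) → P}

/-- The points of a realization. -/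
def Bv (h : Lab rk L) (b : {v : P // rk v = 0} → H3) (r : N) : H3 := b ⟨L r ∅, (h.fr r).rank⟩

variable (hP : IsPolytope 4 rk) (h : Lab rk L) (b : {v : P // rk v = 0} → H3)

include hP in
theorem rep1_L (r : N) (S : Finset (Fin 4)) : rep1 rk b (L r S) = Bv h b '' coset r S := by
  ext y
  constructor
  · rintro ⟨⟨v, hv⟩, hvS, rfl⟩
    obtain ⟨t, ht, rfl⟩ := h.vert' hP hv hvS
    exact ⟨t, ht, rfl⟩
  · rintro ⟨t, ht, rfl⟩
    refine ⟨⟨L t ∅, (h.fr t).rank⟩, ?_, rfl⟩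
    show L t ∅ ≤ L r S
    rw [← h.const ht, (h.fr t).le]
    exact Finset.empty_subset S

include hP in
theorem rep1_edge (t : N) (i : Fin 4) : rep1 rk b (L t {i}) = edge (Bv h b) t i := by
  rw [rep1_L hP h, coset_singleton, Set.image_pair]
  rfl

include hP in
theorem rep2_L (r : N) (S : Finset (Fin 4)) : rep2 rk b (L r S) = ES (Bv h b) r S := by
  ext y
  constructor
  · rintro ⟨e, he, hef, rfl⟩
    obtain ⟨t, ht, T, hTS, rfl⟩ := h.face hP (ne_bot_of_rk hP (by rw [he]; norm_num)) hef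
    rw [(h.fr t).card hP] at he
    obtain ⟨i, rfl⟩ := Finset.card_eq_one.1 (show T.card = 1 by exact_mod_cast he)
    exact ⟨t, ht, i, Finset.singleton_subset_iff.1 hTS, (rep1_edge hP h b t i).symm⟩
  · rintro ⟨t, ht, i, hi, rfl⟩
    refine ⟨L t {i}, ?_, ?_, rep1_edge hP h b t i⟩
    · rw [(h.fr t).card hP, Finset.card_singleton]
      rfl
    · rw [← h.const ht, (h.fr t).le]
      exact Finset.singleton_subset_iff.2 hi

include hP in
theorem rep3_L (r : N) (S : Finset (Fin 4)) : rep3 rk b (L r S) = FS (Bv h b) r S := by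
  ext y
  constructor
  · rintro ⟨e, he, hef, rfl⟩
    obtain ⟨t, ht, T, hTS, rfl⟩ := h.face hP (ne_bot_of_rk hP (by rw [he]; norm_num)) hef
    rw [(h.fr t).card hP] at he
    exact ⟨t, ht, T, hTS, by exact_mod_cast he, (rep2_L hP h b t T).symm⟩
  · rintro ⟨t, ht, U, hU, hUc, rfl⟩
    refine ⟨L t U, ?_, ?_, rep2_L hP h b t U⟩
    · rw [(h.fr t).card hP, hUc]
      rfl
    · rw [← h.const ht, (h.fr t).le]
      exact hU

include hP in
theorem range_b : Set.range b = Set.range (Bv h b) := by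
  ext y
  constructor
  · rintro ⟨⟨v, hv⟩, rfl⟩
    obtain ⟨t, T, rfl, hT⟩ := h.faceRk hP (k := 0) hv
    have h1 : T = ∅ := Finset.card_eq_zero.1 hT
    subst h1
    exact ⟨t, rfl⟩
  · rintro ⟨t, rfl⟩
    exact ⟨_, rfl⟩

include hP in
theorem edges_L : {s | ∃ e : P, rk e = 1 ∧ rep1 rk b e = s} =
    {s | ∃ t i, edge (Bv h b) t i = s} := by
  ext y
  constructor
  · rintro ⟨e, he, rfl⟩
    obtain ⟨t, T, rfl, hT⟩ := h.faceRk hP (k := 1) he
    obtain ⟨i, rfl⟩ := Finset.card_eq_one.1 hT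
    exact ⟨t, i, (rep1_edge hP h b t i).symm⟩
  · rintro ⟨t, i, rfl⟩
    refine ⟨L t {i}, ?_, rep1_edge hP h b t i⟩
    rw [(h.fr t).card hP, Finset.card_singleton]
    rfl

include hP in
theorem twofaces_L : {s | ∃ e : P, rk e = 2 ∧ rep2 rk b e = s} =
    {s | ∃ t U, Finset.card U = 2 ∧ ES (Bv h b) t U = s} := by
  ext y
  constructor
  · rintro ⟨e, he, rfl⟩
    obtain ⟨t, T, rfl, hT⟩ := h.faceRk hP (k := 2) he
    exact ⟨t, T, hT, (rep2_L hP h b t T).symm⟩
  · rintro ⟨t, T, hT, rfl⟩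
    refine ⟨L t T, ?_, rep2_L hP h b t T⟩
    rw [(h.fr t).card hP, hT]
    rfl

include hP in
theorem facets_L : {s | ∃ e : P, rk e = 3 ∧ rep3 rk b e = s} =
    {s | ∃ t U, Finset.card U = 3 ∧ FS (Bv h b) t U = s} := by
  ext y
  constructor
  · rintro ⟨e, he, rfl⟩
    obtain ⟨t, T, rfl, hT⟩ := h.faceRk hP (k := 3) he
    exact ⟨t, T, hT, (rep3_L hP h b t T).symm⟩
  · rintro ⟨t, T, hT, rfl⟩
    refine ⟨L t T, ?_, rep3_L hP h b t T⟩
    rw [(h.fr t).card hP, hT]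
    rfl

/-- The flag of the labelling. -/
def flL (r : N) (σ : Equiv.Perm (Fin 4)) : Flag4 rk where
  face i := L r ((J i).map σ.toEmbedding)
  rank i := by rw [(h.fr r).card hP, Finset.card_map, card_J]
  mono i j hij := (h.fr r).lt.2 (Finset.map_ssubset_map.2 (J_ssubset hij))

theorem flL_face (r : N) (σ : Equiv.Perm (Fin 4)) (i : Fin 4) :
    (flL hP h r σ).face i = L r ((J i).map σ.toEmbedding) := rfl

theorem exists_flL (Φ : Flag4 rk) : ∃ r σ, Φ = flL hP h r σ := by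
  obtain ⟨r, S0, hS0, hc0⟩ := h.faceRk hP (k := 0) (Φ.rank 0)
  have hS0' : S0 = ∅ := Finset.card_eq_zero.1 hc0
  subst hS0'
  have key : ∀ i, ∃ S : Finset (Fin 4), L r S = Φ.face i := by
    intro i
    refine (h.fr r).surj _ ?_
    rw [← hS0]
    exact Φ.mono.monotone (Fin.zero_le i)
  choose S hS using key
  have hcard : ∀ i, (S i).card = (i : ℕ) := by
    intro i
    have h1 := Φ.rank i
    rw [← hS, (h.fr r).card hP] at h1
    exact_mod_cast h1
  have hsub : ∀ i j, i ≤ j → S i ⊆ S j := by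
    intro i j hij
    have h1 : Φ.face i ≤ Φ.face j := Φ.mono.monotone hij
    rwa [← hS, ← hS, (h.fr r).le] at h1
  obtain ⟨σ, e1, e2, e3⟩ := exists_perm (hcard 1) (hcard 2) (hcard 3) (hsub 1 2 (by decide))
    (hsub 2 3 (by decide))
  refine ⟨r, σ, Flag4.ext' fun i => ?_⟩
  rw [← hS, flL_face]
  have h0 : S 0 = ∅ := Finset.card_eq_zero.1 (hcard 0)
  fin_cases i
  · show L r (S 0) = L r ((J 0).map σ.toEmbedding)
    rw [h0]
    rfl
  · show L r (S 1) = L r ((J 1).map σ.toEmbedding)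
    rw [e1]
  · show L r (S 2) = L r ((J 2).map σ.toEmbedding)
    rw [e2]
  · show L r (S 3) = L r ((J 3).map σ.toEmbedding)
    rw [e3]

end

/-! ### Isometries and configurations -/

theorem coset_act {x : N} {π : Equiv.Perm (Fin 4)} {r t : N} {S : Finset (Fin 4)} :
    x * act π t ∈ coset (x * act π r) (S.map π.toEmbedding) ↔ t ∈ coset r S := by
  have h1 : (x * act π r)⁻¹ * (x * act π t) = act π (r⁻¹ * t) := by
    rw [map_mul, map_inv]
    group
  rw [mem_coset, mem_coset, h1, act_mem_NS_iff π]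

theorem exists_act (x : N) (π : Equiv.Perm (Fin 4)) (t : N) : ∃ r, x * act π r = t :=
  ⟨act π⁻¹ (x⁻¹ * t), by rw [act_act_inv, mul_inv_cancel_left]⟩

theorem exists_map (π : Equiv.Perm (Fin 4)) (U : Finset (Fin 4)) :
    ∃ S : Finset (Fin 4), S.map π.toEmbedding = U := by
  refine ⟨U.map π⁻¹.toEmbedding, ?_⟩
  rw [finset_map_mul, mul_inv_cancel]
  exact Finset.map_refl

variable {B B' : N → H3} {T : H3 ≃ H3} {x : N} {π : Equiv.Perm (Fin 4)}

theorem im_edge (hT : ∀ r, T (B r) = B' (x * act π r)) (t : N) (i : Fin 4) :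
    T '' edge B t i = edge B' (x * act π t) (π i) := by
  unfold edge
  rw [Set.image_pair, hT, hT, map_mul, act_c, mul_assoc]

theorem im_ES (hT : ∀ r, T (B r) = B' (x * act π r)) (r : N) (S : Finset (Fin 4)) :
    (T '' ·) '' ES B r S = ES B' (x * act π r) (S.map π.toEmbedding) := by
  ext y
  constructor
  · rintro ⟨_, ⟨t, ht, i, hi, rfl⟩, rfl⟩
    exact ⟨x * act π t, coset_act.2 ht, π i, (mem_map' π).2 hi, (im_edge hT t i).symm⟩
  · rintro ⟨t', ht', i', hi', rfl⟩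
    obtain ⟨t, rfl⟩ := exists_act x π t'
    obtain ⟨i, rfl⟩ := π.surjective i'
    exact ⟨edge B t i, ⟨t, coset_act.1 ht', i, (mem_map' π).1 hi', rfl⟩, im_edge hT t i⟩

theorem im_FS (hT : ∀ r, T (B r) = B' (x * act π r)) (r : N) (S : Finset (Fin 4)) :
    ((T '' ·) '' ·) '' FS B r S = FS B' (x * act π r) (S.map π.toEmbedding) := by
  ext y
  constructor
  · rintro ⟨_, ⟨t, ht, U, hU, hUc, rfl⟩, rfl⟩
    exact ⟨x * act π t, coset_act.2 ht, U.map π.toEmbedding, Finset.map_subset_map.2 hU,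
      by rw [Finset.card_map, hUc], (im_ES hT t U).symm⟩
  · rintro ⟨t', ht', U', hU', hUc', rfl⟩
    obtain ⟨t, rfl⟩ := exists_act x π t'
    obtain ⟨U, rfl⟩ := exists_map π U'
    exact ⟨ES B t U, ⟨t, coset_act.1 ht', U, Finset.map_subset_map.1 hU',
      by rwa [Finset.card_map] at hUc', rfl⟩, im_ES hT t U⟩

section

variable {P : Type} [PartialOrder P] [BoundedOrder P] {rk : P → ℤ}
  {L : N → Finset (Fin 4) → P} {P' : Type} [PartialOrder P'] [BoundedOrder P'] {rk' : P' → ℤ}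
  {L' : N → Finset (Fin 4) → P'}

theorem maps_of_pts (hP : IsPolytope 4 rk) (h : Lab rk L) (hP' : IsPolytope 4 rk')
    (h' : Lab rk' L') {b : {v : P // rk v = 0} → H3} {b' : {v : P' // rk' v = 0} → H3}
    (hI : IsIsom T) (hT : ∀ r, T (Bv h b r) = Bv h' b' (x * act π r)) : Maps rk b rk' T b' := by
  refine ⟨hI, ?_, ?_, ?_, ?_⟩
  · rw [range_b hP h, range_b hP' h']
    ext y
    constructor
    · rintro ⟨_, ⟨t, rfl⟩, rfl⟩
      exact ⟨_, (hT t).symm⟩
    · rintro ⟨t', rfl⟩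
      obtain ⟨t, rfl⟩ := exists_act x π t'
      exact ⟨_, ⟨t, rfl⟩, hT t⟩
  · rw [edges_L hP h, edges_L hP' h']
    ext y
    constructor
    · rintro ⟨_, ⟨t, i, rfl⟩, rfl⟩
      exact ⟨_, _, (im_edge hT t i).symm⟩
    · rintro ⟨t', i', rfl⟩
      obtain ⟨t, rfl⟩ := exists_act x π t'
      obtain ⟨i, rfl⟩ := π.surjective i'
      exact ⟨_, ⟨t, i, rfl⟩, im_edge hT t i⟩
  · rw [twofaces_L hP h, twofaces_L hP' h']
    ext y
    constructor
    · rintro ⟨_, ⟨t, U, hU, rfl⟩, rfl⟩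
      exact ⟨_, U.map π.toEmbedding, by rw [Finset.card_map, hU], (im_ES hT t U).symm⟩
    · rintro ⟨t', U', hU', rfl⟩
      obtain ⟨t, rfl⟩ := exists_act x π t'
      obtain ⟨U, rfl⟩ := exists_map π U'
      rw [Finset.card_map] at hU'
      exact ⟨_, ⟨t, U, hU', rfl⟩, im_ES hT t U⟩
  · rw [facets_L hP h, facets_L hP' h']
    ext y
    constructor
    · rintro ⟨_, ⟨t, U, hU, rfl⟩, rfl⟩
      exact ⟨_, U.map π.toEmbedding, by rw [Finset.card_map, hU], (im_FS hT t U).symm⟩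
    · rintro ⟨t', U', hU', rfl⟩
      obtain ⟨t, rfl⟩ := exists_act x π t'
      obtain ⟨U, rfl⟩ := exists_map π U'
      rw [Finset.card_map] at hU'
      exact ⟨_, ⟨t, U, hU', rfl⟩, im_FS hT t U⟩

theorem sameOrbit_of_pts (hP : IsPolytope 4 rk) (h : Lab rk L) {b : {v : P // rk v = 0} → H3}
    (hI : IsIsom T) (hT : ∀ r, T (Bv h b r) = Bv h b (x * act π r)) (r : N)
    (σ : Equiv.Perm (Fin 4)) :
    SameOrbit rk b (flL hP h r σ) (flL hP h (x * act π r) (π * σ)) := by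
  have e0 : ∀ (r : N) (σ : Equiv.Perm (Fin 4)),
      b ⟨(flL hP h r σ).face 0, (flL hP h r σ).rank 0⟩ = Bv h b r := by
    intro r σ
    unfold Bv
    congr 1
  refine ⟨T, maps_of_pts hP h hP h hI hT, ?_, ?_, ?_, ?_⟩
  · rw [e0, e0, hT]
  · rw [flL_face, flL_face, rep1_L hP h, rep1_L hP h, ← finset_map_mul]
    ext y
    constructor
    · rintro ⟨_, ⟨t, ht, rfl⟩, rfl⟩
      exact ⟨_, coset_act.2 ht, (hT t).symm⟩
    · rintro ⟨t', ht', rfl⟩
      obtain ⟨t, rfl⟩ := exists_act x π t'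
      exact ⟨_, ⟨t, coset_act.1 ht', rfl⟩, hT t⟩
  · rw [flL_face, flL_face, rep2_L hP h, rep2_L hP h, ← finset_map_mul, im_ES hT]
  · rw [flL_face, flL_face, rep3_L hP h, rep3_L hP h, ← finset_map_mul, im_FS hT]

end

end Pool.Agent.Lib.MP_eed79e_coT
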