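import Pool.Agent.Lib.MP_eed79e_coT.Rho
import Pool.Agent.Lib.MP_eed79e_coT.Lin

/-!
The star of the base vertex.
-/

namespace Pool.Agent.Lib.MP_eed79e_coT

/-- The same edge length, other coefficients. -/
def Par.upd (M : Par) (a b c : ℝ) (h : a + b + c = 1) (h' : a ^ 2 + b ^ 2 + c ^ 2 = 1) : Par :=
  { M with a := a, b := b, c := c, habc := h, hsq := h' }

variable (M : Par)

/-- The neighbors of the base vertex. -/
noncomputable def vH (i : Fin 4) : Hs := cH M i 1 oH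

theorem cH_oH (i : Fin 4) (ε : ℤˣ) : cH M i ε oH = vH M i := by
  refine Subtype.ext ?_
  show cv M i ε oo = cv M i 1 oo
  rw [cv_oo, cv_oo]

theorem vH_upd (a b c : ℝ) (h : a + b + c = 1) (h' : a ^ 2 + b ^ 2 + c ^ 2 = 1) (i : Fin 4) :
    vH (M.upd a b c h h') i = vH M i := by
  refine Subtype.ext ?_
  show cv (M.upd a b c h h') i 1 oo = cv M i 1 oo
  rw [cv_oo, cv_oo]
  rfl

theorem vH_val (i : Fin 4) : (vH M i).1 = fun j => oo j - (-(2 * M.s)) * nn M i j := by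
  show cv M i 1 oo = _
  rw [cv_oo]
  ext j
  ring

theorem pH_vH (π : Equiv.Perm (Fin 4)) (i : Fin 4) : pH π (vH M i) = vH M (π i) := by
  unfold vH
  rw [cH_pH, pH_oH, cH_oH]
  rfl

theorem QQ_self (x : Hs) : QQ x.1 x.1 = -1 := x.2.1

theorem QQ_vH_oH (i : Fin 4) : QQ (vH M i).1 oH.1 = -(1 + 2 * M.s ^ 2) := by
  show QQ (cv M i 1 oo) oo = _
  rw [QQ_oo, sm_cv, sm_oo, ht_oo]
  ring

/-- The second distance. -/
noncomputable def kap : ℝ := 1 + 16 / 3 * (M.s ^ 2 + M.s ^ 4)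

theorem one_lt_kap : 1 < kap M := by
  have h := M.hs
  unfold kap
  have : 0 < M.s ^ 2 + M.s ^ 4 := by positivity
  linarith

theorem QQ_vH {i j : Fin 4} (h : i ≠ j) : QQ (vH M i).1 (vH M j).1 = -kap M := by
  rw [vH_val, vH_val, QQ_sub, QQ_nn, QQ_comm (nn M i), QQ_nn, QQ_nn, ht_oo, ht_oo, ht_nn' M h.symm,
    QQ_oo, sm_oo]
  have h1 := M.hsp
  have h2 : M.p ^ 2 = (1 + M.s ^ 2) / 3 := by linarith
  rw [h2]
  unfold kap
  ring

theorem vH_lin : LinearIndependent ℝ fun i => (vH M i).1 :=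
  lin_indep (one_lt_kap M) (fun i => QQ_self _) fun i j h => QQ_vH M h

/-- Isometries which agree on the neighbors are equal. -/
theorem iso_ext {T U : Hs → Hs} (hT : ∀ x y, QQ (T x).1 (T y).1 = QQ x.1 y.1)
    (hU : ∀ x y, QQ (U x).1 (U y).1 = QQ x.1 y.1) (h : ∀ i, T (vH M i) = U (vH M i)) (x : Hs) :
    T x = U x :=
  iso_unique (vH_lin M) hT hU h
    (lin_indep (one_lt_kap M) (fun i => QQ_self _) fun i j h => by rw [hU, QQ_vH M h]) x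

/-- A point is determined by its distances from four images of the neighbors. -/
theorem pt_ext {T : Hs → Hs} (hT : ∀ x y, QQ (T x).1 (T y).1 = QQ x.1 y.1) {x y : Hs}
    (h : ∀ i, QQ x.1 (T (vH M i)).1 = QQ y.1 (T (vH M i)).1) : x = y :=
  Subtype.ext (QQ_unique (lin_indep (one_lt_kap M) (fun i => QQ_self _)
    fun i j h => by rw [hT, QQ_vH M h]) h)

theorem QQ_pH (π : Equiv.Perm (Fin 4)) (x y : Hs) : QQ (pH π x).1 (pH π y).1 = QQ x.1 y.1 :=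
  QQ_pv π x.1 y.1

theorem QQ_cH (i : Fin 4) (ε : ℤˣ) (x y : Hs) :
    QQ (cH M i ε x).1 (cH M i ε y).1 = QQ x.1 y.1 := QQ_cv M i ε x.1 y.1

theorem pH_inv (π : Equiv.Perm (Fin 4)) (x : Hs) : pH π (pH π⁻¹ x) = x := by
  rw [← pH_mul, mul_inv_cancel, pH_one]

theorem pH_inv' (π : Equiv.Perm (Fin 4)) (x : Hs) : pH π⁻¹ (pH π x) = x := by
  rw [← pH_mul, inv_mul_cancel, pH_one]

/-- The common part of the coordinates. -/
noncomputable def bse : ℝ := 1 / 2 + M.s * (M.s - M.p) - ht M 0 (vH M 1).1 * (M.s - M.p)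

theorem cv_vH_coord (ε : ℤˣ) : cv M 0 ε (vH M 1).1 1 = bse M + 4 * M.s * M.p * M.a ∧
    cv M 0 ε (vH M 1).1 2 = bse M + 4 * M.s * M.p * cf M (-ε) ∧
    cv M 0 ε (vH M 1).1 3 = bse M + 4 * M.s * M.p * cf M ε ∧
    cv M 0 ε (vH M 1).1 0 = 1 / 2 + M.s * (M.s - M.p) - ht M 0 (vH M 1).1 * (M.s + 3 * M.p) := by
  obtain ⟨h1, _, _⟩ := cf_rel M ε
  obtain ⟨e0, e1, e2, e3⟩ := rot0 M ε (vH M 1).1
  have v0 : (vH M 1).1 0 = 1 / 2 + M.s * (M.s - M.p) := by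
    rw [vH_val]
    show oo 0 - (-(2 * M.s)) * nn M 1 0 = _
    unfold oo nn
    rw [if_neg (by decide)]
    ring
  have v1 : (vH M 1).1 1 = 1 / 2 + M.s * (M.s - M.p) + 4 * M.s * M.p := by
    rw [vH_val]
    show oo 1 - (-(2 * M.s)) * nn M 1 1 = _
    unfold oo nn
    rw [if_pos rfl]
    ring
  have v2 : (vH M 1).1 2 = 1 / 2 + M.s * (M.s - M.p) := by
    rw [vH_val]
    show oo 2 - (-(2 * M.s)) * nn M 1 2 = _
    unfold oo nn
    rw [if_neg (by decide)]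
    ring
  have v3 : (vH M 1).1 3 = 1 / 2 + M.s * (M.s - M.p) := by
    rw [vH_val]
    show oo 3 - (-(2 * M.s)) * nn M 1 3 = _
    unfold oo nn
    rw [if_neg (by decide)]
    ring
  have n0 : nn M 0 0 = (M.s - M.p) / 2 + 2 * M.p := by
    unfold nn
    rw [if_pos rfl]
  have n1 : nn M 0 1 = (M.s - M.p) / 2 := by
    unfold nn
    rw [if_neg (by decide), add_zero]
  have n2 : nn M 0 2 = (M.s - M.p) / 2 := by
    unfold nn
    rw [if_neg (by decide), add_zero]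
  have n3 : nn M 0 3 = (M.s - M.p) / 2 := by
    unfold nn
    rw [if_neg (by decide), add_zero]
  unfold cv bse
  rw [e0, e1, e2, e3, v0, v1, v2, v3, n0, n1, n2, n3]
  refine ⟨?_, ?_, ?_, ?_⟩
  · linear_combination (1 / 2 + M.s * (M.s - M.p)) * h1
  · linear_combination (1 / 2 + M.s * (M.s - M.p)) * h1
  · linear_combination (1 / 2 + M.s * (M.s - M.p)) * h1
  · ring

theorem bse_upd (a b c : ℝ) (h : a + b + c = 1) (h' : a ^ 2 + b ^ 2 + c ^ 2 = 1) :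
    bse (M.upd a b c h h') = bse M := by
  unfold bse
  rw [vH_upd]
  rfl

/-- The coefficients of an isometry. -/
theorem exists_coeff {M₀ : Par} (ha : M₀.a = 1) (hb : M₀.b = 0) (hc : M₀.c = 0) {z : Fin 4 → ℝ}
    (h1 : QQ z z = -1) (h2 : sm z = sm (cv M₀ 0 1 (vH M₀ 1).1))
    (h3 : ht M₀ 0 z = ht M₀ 0 (cv M₀ 0 1 (vH M₀ 1).1)) :
    ∃ (a b c : ℝ) (h : a + b + c = 1) (h' : a ^ 2 + b ^ 2 + c ^ 2 = 1),
      z = cv (M₀.upd a b c h h') 0 1 (vH M₀ 1).1 := by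
  obtain ⟨e1, e2, e3, e0⟩ := cv_vH_coord M₀ 1
  have hz0 : z 0 = cv M₀ 0 1 (vH M₀ 1).1 0 := by
    unfold ht at h3
    rw [h2] at h3
    have h4 := M₀.hp
    have h5 : 2 * M₀.p * z 0 = 2 * M₀.p * cv M₀ 0 1 (vH M₀ 1).1 0 := by linarith
    exact mul_left_cancel₀ (by positivity) h5
  have h6 : QQ (cv M₀ 0 1 (vH M₀ 1).1) (cv M₀ 0 1 (vH M₀ 1).1) = -1 := by
    rw [QQ_cv]
    exact QQ_self _
  have hs := M₀.hs
  have hp := M₀.hp
  have hsp : 0 < 4 * M₀.s * M₀.p := by positivity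
  rw [cf_neg_one, hc, mul_zero, add_zero] at e2
  rw [cf_one, hb, mul_zero, add_zero] at e3
  rw [ha, mul_one] at e1
  obtain ⟨w, hw⟩ : ∃ w, w = cv M₀ 0 1 (vH M₀ 1).1 := ⟨_, rfl⟩
  rw [← hw] at e1 e2 e3 h6 h2 hz0
  rw [QQ_eq] at h1 h6
  rw [sm_eq, sm_eq] at h2
  obtain ⟨B, hB⟩ : ∃ B, B = bse M₀ := ⟨_, rfl⟩
  rw [← hB] at e1 e2 e3
  obtain ⟨q, hq⟩ : ∃ q, q = 4 * M₀.s * M₀.p := ⟨_, rfl⟩
  rw [← hq] at e1 hsp
  have hS : z 1 + z 2 + z 3 = 3 * B + q := by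
    rw [hz0, e1, e2, e3] at h2
    linarith
  have hS2 : z 1 ^ 2 + z 2 ^ 2 + z 3 ^ 2 = (B + q) ^ 2 + 2 * B ^ 2 := by
    have h7 : z 0 + z 1 + z 2 + z 3 = w 0 + w 1 + w 2 + w 3 := h2
    rw [h7] at h1
    rw [hz0] at h1
    rw [e1, e2, e3] at h1 h6
    nlinarith
  have hq0 : q ≠ 0 := hsp.ne'
  have f1 : (z 1 - B) / q + (z 3 - B) / q + (z 2 - B) / q = 1 := by
    rw [← add_div, ← add_div, div_eq_one_iff_eq hq0]
    linarith
  have f2 : ((z 1 - B) / q) ^ 2 + ((z 3 - B) / q) ^ 2 + ((z 2 - B) / q) ^ 2 = 1 := by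
    rw [div_pow, div_pow, div_pow, ← add_div, ← add_div, div_eq_one_iff_eq (by positivity)]
    nlinarith
  refine ⟨(z 1 - B) / q, (z 3 - B) / q, (z 2 - B) / q, f1, f2, ?_⟩
  obtain ⟨g1, g2, g3, g0⟩ := cv_vH_coord (M₀.upd _ _ _ f1 f2) 1
  rw [vH_upd] at g1 g2 g3 g0
  rw [bse_upd, ← hB] at g1 g2 g3
  rw [cf_neg_one] at g2
  rw [cf_one] at g3
  have k1 : (M₀.upd _ _ _ f1 f2).s = M₀.s := rfl
  have k2 : (M₀.upd _ _ _ f1 f2).p = M₀.p := rfl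
  have k3 : (M₀.upd _ _ _ f1 f2).a = (z 1 - B) / q := rfl
  have k4 : (M₀.upd _ _ _ f1 f2).b = (z 3 - B) / q := rfl
  have k5 : (M₀.upd _ _ _ f1 f2).c = (z 2 - B) / q := rfl
  have k6 : ht (M₀.upd _ _ _ f1 f2) 0 (vH M₀ 1).1 = ht M₀ 0 (vH M₀ 1).1 := rfl
  rw [k1, k2, k3, ← hq, mul_div_cancel₀ _ hq0] at g1
  rw [k1, k2, k5, ← hq, mul_div_cancel₀ _ hq0] at g2
  rw [k1, k2, k4, ← hq, mul_div_cancel₀ _ hq0] at g3
  rw [k1, k2, k6] at g0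
  funext j
  fin_cases j
  · show z 0 = cv _ 0 1 _ 0
    rw [g0, hz0, hw, e0]
  · show z 1 = cv _ 0 1 _ 1
    rw [g1]
    ring
  · show z 2 = cv _ 0 1 _ 2
    rw [g2]
    ring
  · show z 3 = cv _ 0 1 _ 3
    rw [g3]
    ring

end Pool.Agent.Lib.MP_eed79e_coT
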