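import Pool.Agent.Lib.MP_eed79e_coT.Orb

/-!
The universal polytope and its realizations.
-/

set_option linter.unusedSectionVars false

namespace Pool.Agent.Lib.MP_eed79e_coT

/-! ### The vertex-figures -/

theorem IsFr.iso {P : Type} [PartialOrder P] [BoundedOrder P] {rk : P → ℤ}
    {lam : Finset (Fin 4) → P} (h : IsFr rk lam) :
    Nonempty (Finset (Fin 4) ≃o Set.Ici (lam ∅)) := by
  have hle : ∀ S, lam ∅ ≤ lam S := fun S => (h.le _ _).2 (Finset.empty_subset _)
  refine ⟨{ toEquiv := Equiv.ofBijective (fun S => (⟨lam S, hle S⟩ : Set.Ici (lam ∅))) ?_,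
            map_rel_iff' := ?_ }⟩
  · constructor
    · intro S T hST
      exact h.inj (congrArg Subtype.val hST)
    · rintro ⟨F, hF⟩
      obtain ⟨S, hS⟩ := h.surj F hF
      exact ⟨S, Subtype.ext hS⟩
  · intro S T
    exact h.le S T

theorem Lab.tetra {P : Type} [PartialOrder P] [BoundedOrder P] {rk : P → ℤ}
    {L : N → Finset (Fin 4) → P} (hP : IsPolytope 4 rk) (h : Lab rk L) :
    HasTetrahedralVertexFigures rk := by
  intro v hv
  obtain ⟨t, T, rfl, hT⟩ := h.faceRk hP (k := 0) hv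
  have h1 : T = ∅ := Finset.card_eq_zero.1 hT
  subst h1
  exact (h.fr t).iso

/-! ### The universal polytope -/

/-- The labelling of the universal polytope. -/
def LL (r : N) (S : Finset (Fin 4)) : PP := (mk r S : PP)

theorem labU : Lab rk LL := by
  refine ⟨fun r => ⟨fun S T => ?_, fun F hF => ?_, ?_⟩, fun r i S hS => ?_, fun r i h => ?_⟩
  · show (mk r S : PP) ≤ (mk r T : PP) ↔ S ⊆ T
    rw [WithBot.coe_le_coe, mk_le_mk, inv_mul_cancel]
    exact ⟨fun h => h.1, fun h => ⟨h, Subgroup.one_mem _⟩⟩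
  · rcases cases_bot_mk F with rfl | ⟨t, T, rfl⟩
    · exact absurd (le_bot_iff.1 hF) WithBot.coe_ne_bot
    · rw [LL, WithBot.coe_le_coe] at hF
      obtain ⟨T', hT', _⟩ := mk_le hF
      exact ⟨T', by rw [LL, hT']⟩
  · show rk (mk r ∅ : PP) = 0
    rw [rk_mk, Finset.card_empty]
    rfl
  · show (mk (r * c i) S : PP) = (mk r S : PP)
    rw [WithBot.coe_inj, mk_eq_mk, inv_mul_cancel_left]
    exact ⟨rfl, c_mem hS⟩
  · have h1 : (mk (r * c i) ∅ : PP) = (mk r ∅ : PP) := h
    rw [WithBot.coe_inj, mk_eq_mk, inv_mul_cancel_left, NS_empty, Subgroup.mem_bot] at h1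
    exact c_ne_one i h1.2

theorem rk_ver (r : N) : rk (mk r ∅ : PP) = 0 := by
  rw [rk_mk, Finset.card_empty]
  rfl

/-- The vertices. -/
def ver (r : N) : {v : PP // rk v = 0} := ⟨(mk r ∅ : PP), rk_ver r⟩

theorem ver_bijective : Function.Bijective ver := by
  constructor
  · intro r t h
    have h1 : (mk r ∅ : PP) = (mk t ∅ : PP) := congrArg Subtype.val h
    rw [WithBot.coe_inj, mk_eq_mk, NS_empty, Subgroup.mem_bot] at h1
    exact (inv_mul_eq_one.1 h1.2).symm
  · rintro ⟨v, hv⟩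
    rcases cases_bot_mk v with rfl | ⟨r, S, rfl⟩
    · rw [rk_bot] at hv
      exact absurd hv (by decide)
    · rw [rk_mk] at hv
      have h1 : S = ∅ := by
        rw [← Finset.card_eq_zero]
        exact_mod_cast hv
      subst h1
      exact ⟨r, rfl⟩

/-- The vertices correspond to the elements of `N`. -/
noncomputable def verE : N ≃ {v : PP // rk v = 0} := Equiv.ofBijective ver ver_bijective

theorem verE_apply (r : N) : verE r = ver r := rfl

/-- The realization. -/
noncomputable def bU (M : Par) (v : {v : PP // rk v = 0}) : H3 := eH (bt M (verE.symm v))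

theorem Bv_U (M : Par) (r : N) : Bv labU (bU M) r = eH (bt M r) := by
  show eH (bt M (verE.symm (ver r))) = _
  rw [← verE_apply, Equiv.symm_apply_apply]

/-! ### Automorphisms of the universal polytope -/

theorem coset_aut (x : N) (π : Equiv.Perm (Fin 4)) (r : N) (S : Finset (Fin 4)) :
    {y | act π⁻¹ (x⁻¹ * y) ∈ coset r S} = coset (x * act π r) (S.map π.toEmbedding) := by
  ext y
  rw [Set.mem_ofPred_eq, mem_coset, mem_coset, ← act_mem_NS_iff π]
  have h1 : act π (r⁻¹ * act π⁻¹ (x⁻¹ * y)) = (x * act π r)⁻¹ * y := by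
    rw [map_mul, act_act_inv, map_inv]
    group
  rw [h1]

/-- The automorphism `r S ↦ (x π(r)) π(S)` on the faces. -/
def autFun (x : N) (π : Equiv.Perm (Fin 4)) (F : CF) : CF :=
  ⟨(F.1.1.map π.toEmbedding, {y | act π⁻¹ (x⁻¹ * y) ∈ F.1.2}), by
    obtain ⟨r, S, rfl⟩ := exists_mk' F
    exact ⟨x * act π r, coset_aut x π r S⟩⟩

theorem autFun_mk (x : N) (π : Equiv.Perm (Fin 4)) (r : N) (S : Finset (Fin 4)) :
    autFun x π (mk r S) = mk (x * act π r) (S.map π.toEmbedding) :=
  Subtype.ext (Prod.ext rfl (coset_aut x π r S))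

theorem autFun_inv (x : N) (π : Equiv.Perm (Fin 4)) (F : CF) :
    autFun (act π⁻¹ x⁻¹) π⁻¹ (autFun x π F) = F := by
  obtain ⟨r, S, rfl⟩ := exists_mk' F
  rw [autFun_mk, autFun_mk, map_inv_map, ← map_mul, inv_mul_cancel_left, act_inv_act]

theorem autFun_inv' (x : N) (π : Equiv.Perm (Fin 4)) (F : CF) :
    autFun x π (autFun (act π⁻¹ x⁻¹) π⁻¹ F) = F := by
  obtain ⟨r, S, rfl⟩ := exists_mk' F
  have h1 : (S.map π⁻¹.toEmbedding).map π.toEmbedding = S := by
    rw [finset_map_mul, mul_inv_cancel]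
    exact Finset.map_refl
  rw [autFun_mk, autFun_mk, h1, ← map_mul, act_act_inv, mul_inv_cancel_left]

/-- The automorphism `r S ↦ (x π(r)) π(S)`. -/
noncomputable def autCF (x : N) (π : Equiv.Perm (Fin 4)) : CF ≃o CF where
  toFun := autFun x π
  invFun := autFun (act π⁻¹ x⁻¹) π⁻¹
  left_inv := autFun_inv x π
  right_inv := autFun_inv' x π
  map_rel_iff' {F G} := by
    obtain ⟨r, S, rfl⟩ := exists_mk' F
    obtain ⟨t, T, rfl⟩ := exists_mk' G
    show autFun x π (mk r S) ≤ autFun x π (mk t T) ↔ _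
    rw [autFun_mk, autFun_mk, mk_le_mk, mk_le_mk, Finset.map_subset_map]
    have h1 : (x * act π t)⁻¹ * (x * act π r) = act π (t⁻¹ * r) := by
      rw [map_mul, map_inv]
      group
    rw [h1, act_mem_NS_iff]

/-- The automorphism of the polytope. -/
noncomputable def aut (x : N) (π : Equiv.Perm (Fin 4)) : PP ≃o PP := (autCF x π).withBotCongr

theorem aut_mk (x : N) (π : Equiv.Perm (Fin 4)) (r : N) (S : Finset (Fin 4)) :
    aut x π (mk r S : PP) = (mk (x * act π r) (S.map π.toEmbedding) : PP) := by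
  show ((autFun x π (mk r S) : CF) : PP) = _
  rw [autFun_mk]

theorem isCombRegular : IsCombRegular rk := by
  intro Φ Ψ
  obtain ⟨r, σ, rfl⟩ := exists_flL isPolytope labU Φ
  obtain ⟨t, τ, rfl⟩ := exists_flL isPolytope labU Ψ
  refine ⟨aut (t * (act (τ * σ⁻¹) r)⁻¹) (τ * σ⁻¹), fun i => ?_⟩
  rw [flL_face, flL_face]
  show aut _ _ (mk r ((J i).map σ.toEmbedding) : PP) = (mk t ((J i).map τ.toEmbedding) : PP)
  rw [aut_mk, finset_map_mul, inv_mul_cancel_right, inv_mul_cancel_right]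

/-! ### Faithful realizations -/

/-- The vertices of a face. -/
theorem sUnion_ES {B : N → H3} (r : N) {S : Finset (Fin 4)} (hS : S.Nonempty) :
    ⋃₀ ES B r S = B '' coset r S := by
  ext y
  constructor
  · rintro ⟨_, ⟨t, ht, i, hi, rfl⟩, hy⟩
    rcases hy with rfl | hy
    · exact ⟨t, ht, rfl⟩
    · rw [Set.mem_singleton_iff] at hy
      subst hy
      exact ⟨t * c i, mem_coset_mul ht hi, rfl⟩
  · rintro ⟨t, ht, rfl⟩
    obtain ⟨i, hi⟩ := hS
    exact ⟨_, edge_mem_ES ht hi, Set.mem_insert _ _⟩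

theorem sUnion_FS {B : N → H3} (r : N) {S : Finset (Fin 4)} (hS : 2 ≤ S.card) :
    ⋃₀ FS B r S = ES B r S := by
  ext y
  constructor
  · rintro ⟨_, ⟨t, ht, U, hU, hUc, rfl⟩, ⟨t', ht', i, hi, rfl⟩⟩
    exact ⟨t', coset_subset hU ht ht', i, hU hi, rfl⟩
  · rintro ⟨t, ht, i, hi, rfl⟩
    obtain ⟨j, hj, hji⟩ : ∃ j ∈ S, j ≠ i := by
      by_contra h
      push Not at h
      have h1 : S ⊆ {i} := fun j hj => Finset.mem_singleton.2 (h j hj)
      have h2 := Finset.card_le_card h1
      rw [Finset.card_singleton] at h2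
      omega
    refine ⟨_, ⟨t, ht, {i, j}, ?_, Finset.card_pair hji.symm, rfl⟩, ?_⟩
    · intro k hk
      rw [Finset.mem_insert, Finset.mem_singleton] at hk
      rcases hk with rfl | rfl
      · exact hi
      · exact hj
    · exact ⟨t, self_mem_coset t _, i, Finset.mem_insert_self _ _, rfl⟩

theorem LL_eq_of_coset {r t : N} {S U : Finset (Fin 4)} (h : coset r S = coset t U) :
    LL r S = LL t U := by
  show (mk r S : PP) = (mk t U : PP)
  rw [WithBot.coe_inj, mk_eq_mk]
  refine ⟨Finset.Subset.antisymm (subset_of_coset_subset h.le) (subset_of_coset_subset h.ge), ?_⟩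
  have h1 : r ∈ coset t U := h ▸ self_mem_coset r S
  exact h1

variable {b : {v : PP // rk v = 0} → H3}

theorem isFaithful_U (hinj : Function.Injective (Bv labU b)) : IsFaithful rk b := by
  refine ⟨?_, ?_, ?_, ?_⟩
  · intro v w hvw
    obtain ⟨r, rfl⟩ := ver_bijective.surjective v
    obtain ⟨t, rfl⟩ := ver_bijective.surjective w
    have h1 : Bv labU b r = Bv labU b t := hvw
    rw [hinj h1]
  · intro e e' he he' h
    obtain ⟨t, U, rfl, hU⟩ := labU.faceRk isPolytope (k := 1) he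
    obtain ⟨t', U', rfl, hU'⟩ := labU.faceRk isPolytope (k := 1) he'
    rw [rep1_L isPolytope labU, rep1_L isPolytope labU] at h
    exact LL_eq_of_coset (hinj.image_injective h)
  · intro e e' he he' h
    obtain ⟨t, U, rfl, hU⟩ := labU.faceRk isPolytope (k := 2) he
    obtain ⟨t', U', rfl, hU'⟩ := labU.faceRk isPolytope (k := 2) he'
    rw [rep2_L isPolytope labU, rep2_L isPolytope labU] at h
    have h1 := congrArg Set.sUnion h
    rw [sUnion_ES t (Finset.card_pos.1 (by omega)),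
      sUnion_ES t' (Finset.card_pos.1 (by omega))] at h1
    exact LL_eq_of_coset (hinj.image_injective h1)
  · intro e e' he he' h
    obtain ⟨t, U, rfl, hU⟩ := labU.faceRk isPolytope (k := 3) he
    obtain ⟨t', U', rfl, hU'⟩ := labU.faceRk isPolytope (k := 3) he'
    rw [rep3_L isPolytope labU, rep3_L isPolytope labU] at h
    have h0 := congrArg Set.sUnion h
    rw [sUnion_FS t (by omega), sUnion_FS t' (by omega)] at h0
    have h1 := congrArg Set.sUnion h0
    rw [sUnion_ES t (Finset.card_pos.1 (by omega)),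
      sUnion_ES t' (Finset.card_pos.1 (by omega))] at h1
    exact LL_eq_of_coset (hinj.image_injective h1)

variable (M : Par)

theorem Bv_U_injective (hlt : M.p < M.s) : Function.Injective (Bv labU (bU M)) := by
  intro r t h
  rw [Bv_U, Bv_U] at h
  exact bt_injective M hlt (eH.injective h)

theorem isDiscrete_U (hlt : M.p < M.s) : IsDiscreteSet rk (bU M) := by
  intro x R
  have h1 := (finite_ball M hlt (eH.symm x) (Real.cosh R)).image eH
  refine h1.subset ?_
  rintro y ⟨hy, hxy⟩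
  rw [range_b isPolytope labU] at hy
  obtain ⟨r, rfl⟩ := hy
  rw [Bv_U] at hxy ⊢
  refine ⟨bt M r, ⟨⟨r, rfl⟩, ?_⟩, rfl⟩
  have h2 := neg_lor_le hxy
  have h3 : QQ (eH.symm x).1 (bt M r).1 = lor x.1 (eH (bt M r)).1 := by
    have h4 := lor_eH (eH.symm x) (bt M r)
    rw [eH.apply_symm_apply] at h4
    exact h4.symm
  rw [h3]
  exact h2

theorem gp_U (hbc : M.b ≠ M.c) {x : N} {π : Equiv.Perm (Fin 4)} :
    Gp (Bv labU (bU M)) x π ↔ sg x = Equiv.Perm.sign π := by
  rw [gp_iff_gs (Bv_U M), gs_bt M hbc]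

theorem main_U (hlt : M.p < M.s) (hbc : M.b ≠ M.c) :
    IsDiscreteSet rk (bU M) ∧ IsFaithful rk (bU M) ∧ IsTwoOrbit rk (bU M) ∧
      IsChiral rk (bU M) := by
  have hf := isFaithful_U (Bv_U_injective M hlt)
  exact ⟨isDiscrete_U M hlt, hf, isTwoOrbit_of isPolytope labU hf fun x π => gp_U M hbc,
    isChiral_of isPolytope labU hf fun x π => gp_U M hbc⟩

/-- The edges have equal length. -/
theorem edge_length {ℓ : ℝ} (hℓ : 0 ≤ ℓ) (h : Real.cosh ℓ = 1 + 2 * M.s ^ 2) {e : PP}
    (he : rk e = 1) {v w : {v : PP // rk v = 0}} (hv : v.1 ≤ e) (hw : w.1 ≤ e) (hvw : v ≠ w) :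
    hdist (bU M v) (bU M w) = ℓ := by
  have key : ∀ (t : N) (i : Fin 4),
      lor (eH (bt M t)).1 (eH (bt M (t * c i))).1 = -Real.cosh ℓ := by
    intro t i
    rw [lor_eH, bt_mul, bt, QQ_g, g_c, cH_oH, QQ_comm, QQ_vH_oH, h]
  have hcomm : ∀ x y : H3, lor x.1 y.1 = lor y.1 x.1 := fun x y => by
    unfold lor
    ring
  have hb : ∀ r, bU M (ver r) = eH (bt M r) := Bv_U M
  obtain ⟨t, U, rfl, hU⟩ := labU.faceRk isPolytope (k := 1) he
  obtain ⟨i, rfl⟩ := Finset.card_eq_one.1 hU
  obtain ⟨x, rfl⟩ := ver_bijective.surjective v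
  obtain ⟨y, rfl⟩ := ver_bijective.surjective w
  have hle : ∀ x, (ver x).1 ≤ LL t {i} → x ∈ coset t {i} := by
    intro x hx
    have h1 : (mk x ∅ : PP) ≤ (mk t {i} : PP) := hx
    rw [WithBot.coe_le_coe, mk_le_mk] at h1
    exact h1.2
  have hv' := hle x hv
  have hw' := hle y hw
  rw [coset_singleton] at hv' hw'
  rw [hb, hb]
  have h1 : lor (eH (bt M x)).1 (eH (bt M y)).1 = -Real.cosh ℓ := by
    rcases hv' with rfl | hv'
    · rcases hw' with rfl | hw'
      · exact absurd rfl hvw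
      · rw [Set.mem_singleton_iff] at hw'
        rw [hw', key]
    · rw [Set.mem_singleton_iff] at hv'
      rcases hw' with rfl | hw'
      · rw [hv', hcomm, key]
      · rw [Set.mem_singleton_iff] at hw'
        exact absurd (by rw [hv', hw']) hvw
  unfold hdist
  rw [h1, neg_neg, Real.arcosh_cosh hℓ]

end Pool.Agent.Lib.MP_eed79e_coT
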