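import Pool.Agent.Lib.MP_eed79e_coT.Uni

/-!
The parameters are invariants of the congruence class.
-/

set_option linter.unusedSectionVars false

namespace Pool.Agent.Lib.MP_eed79e_coT

section

variable {P : Type} [PartialOrder P] [BoundedOrder P] {rk : P → ℤ} {b : {v : P // rk v = 0} → H3}
  {P' : Type} [PartialOrder P'] [BoundedOrder P'] {rk' : P' → ℤ} {b' : {v : P' // rk' v = 0} → H3}
  {L' : N → Finset (Fin 4) → P'}

/-- Monotone maps are labellings. -/
theorem fr_of_mono (hP : IsPolytope 4 rk) (hT : HasTetrahedralVertexFigures rk)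
    {f : Finset (Fin 4) → P} (hm : ∀ S T, S ⊆ T → f S ≤ f T) (hr : ∀ S, rk (f S) = S.card)
    (hi : ∀ i j : Fin 4, f {i} = f {j} → i = j) : IsFr rk f := by
  obtain ⟨lam, hl, h0⟩ := exists_isFr hT (v := f ∅) (by rw [hr]; rfl)
  have key : ∀ S, ∃ T, lam T = f S := fun S => hl.surj _ (by
    rw [h0]
    exact hm _ _ (Finset.empty_subset S))
  choose g hg using key
  have hc : ∀ S, (g S).card = S.card := fun S => by
    have h1 := hl.card hP (g S)
    rw [hg, hr] at h1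
    exact_mod_cast h1.symm
  have hgm : ∀ S T, S ⊆ T → g S ⊆ g T := fun S T hST => by
    rw [← hl.le, hg, hg]
    exact hm S T hST
  have hγ : ∀ i : Fin 4, ∃ k, g {i} = {k} := fun i =>
    Finset.card_eq_one.1 (by rw [hc, Finset.card_singleton])
  choose γ hγ using hγ
  have hinj : Function.Injective γ := fun i j hij => hi i j (by
    rw [← hg, ← hg, hγ, hγ, hij])
  obtain ⟨π, hπ⟩ : ∃ π : Equiv.Perm (Fin 4), ∀ i, π i = γ i :=
    ⟨Equiv.ofBijective γ (Finite.injective_iff_bijective.1 hinj), fun i => rfl⟩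
  have hgS : ∀ S, g S = S.map π.toEmbedding := fun S => by
    symm
    apply Finset.eq_of_subset_of_card_le
    · intro k hk
      obtain ⟨i, rfl⟩ := π.surjective k
      rw [mem_map'] at hk
      have h1 := hgm {i} S (Finset.singleton_subset_iff.2 hk)
      rw [hγ, Finset.singleton_subset_iff, ← hπ] at h1
      exact h1
    · rw [hc, Finset.card_map]
  have e : f = fun S => lam (S.map π.toEmbedding) := funext fun S => by
    rw [← hgS, hg]
  rw [e]
  exact hl.perm π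

/-- An isometry onto a realization of a labelled polytope gives a labelling. -/
theorem lab_of_maps (hP : IsPolytope 4 rk) (hTe : HasTetrahedralVertexFigures rk)
    (hf : IsFaithful rk b) (hP' : IsPolytope 4 rk') (h' : Lab rk' L')
    (hn : ∀ r i, Bv h' b' (r * c i) ≠ Bv h' b' r)
    (hn' : ∀ r i j, i ≠ j → Bv h' b' (r * c i) ≠ Bv h' b' (r * c j))
    {T : H3 ≃ H3} (hT : Maps rk b rk' T b') :
    ∃ (L : N → Finset (Fin 4) → P) (h : Lab rk L), ∀ r, T (Bv h b r) = Bv h' b' r := by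
  have h1 := fun F' => exists_rel hP' hP hT.symm F'
  choose φ hφ using h1
  have hle : ∀ {F G : P'}, F ≤ G → φ F ≤ φ G := by
    intro F G hFG
    have h3 := hP'.strictMono.monotone hFG
    exact Rel.mono hP' hP hf hT.symm (rk' G - rk' F).toNat (hφ F) (hφ G) hFG (by omega)
  have hv : ∀ r (h0 : rk (φ (L' r ∅)) = 0), b ⟨φ (L' r ∅), h0⟩ = T.symm (Bv h' b' r) :=
    fun r h0 => ((hφ (L' r ∅)).r0 (h'.fr r).rank h0).symm
  have hr0 : ∀ r, rk (φ (L' r ∅)) = 0 := fun r => by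
    rw [(hφ _).rank]
    exact (h'.fr r).rank
  have hfr : ∀ r, IsFr rk fun S => φ (L' r S) := by
    intro r
    refine fr_of_mono hP hTe (fun S T hST => hle (((h'.fr r).le S T).2 hST)) (fun S => ?_)
      fun i j hij => ?_
    · rw [(hφ _).rank, (h'.fr r).card hP']
    · by_contra hne
      have k : ∀ i : Fin 4, rk' (L' r {i}) = 1 := fun i => by
        rw [(h'.fr r).card hP', Finset.card_singleton]
        rfl
      have e1 := (hφ (L' r {i})).r1 (k i)
      have e2 := (hφ (L' r {j})).r1 (k j)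
      have hij' : φ (L' r {i}) = φ (L' r {j}) := hij
      rw [hij', ← e2, rep1_edge hP' h', rep1_edge hP' h'] at e1
      have e3 : edge (Bv h' b') r i = edge (Bv h' b') r j :=
        T.symm.injective.image_injective e1
      unfold edge at e3
      rcases Set.pair_eq_pair_iff.1 e3 with ⟨_, e4⟩ | ⟨e4, _⟩
      · exact hn' r i j hne e4
      · exact hn r j e4.symm
  refine ⟨fun r S => φ (L' r S), ⟨hfr, fun r i S hS => ?_, fun r i hri => ?_⟩, fun r => ?_⟩
  · show φ (L' (r * c i) S) = φ (L' r S)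
    rw [h'.step r i S hS]
  · have hri' : φ (L' (r * c i) ∅) = φ (L' r ∅) := hri
    have e1 := hv (r * c i) (hr0 _)
    have e2 := hv r (hr0 _)
    have e3 : b ⟨φ (L' (r * c i) ∅), hr0 _⟩ = b ⟨φ (L' r ∅), hr0 _⟩ :=
      congrArg b (Subtype.ext hri')
    rw [e1, e2] at e3
    exact hn r i (T.symm.injective e3)
  · show T (b ⟨φ (L' r ∅), _⟩) = _
    rw [hv r, T.apply_symm_apply]

/-- Two labellings of a polytope. -/
theorem lab_two (hP : IsPolytope 4 rk) {L₁ L₂ : N → Finset (Fin 4) → P} (h₁ : Lab rk L₁)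
    (h₂ : Lab rk L₂) : ∃ (x : N) (π : Equiv.Perm (Fin 4)), ∀ r (S : Finset (Fin 4)),
      L₁ r S = L₂ (x * act π r) (S.map π.toEmbedding) := by
  obtain ⟨x, T, hxT, hT⟩ := h₂.faceRk hP (k := 0) (h₁.fr 1).rank
  have hT0 : T = ∅ := Finset.card_eq_zero.1 hT
  subst hT0
  obtain ⟨π, hπ⟩ := fr_perm hP (h₂.fr x) (h₁.fr 1) hxT.symm
  refine ⟨x, π, fun r => ?_⟩
  refine ind_right (p := fun r => ∀ S : Finset (Fin 4),
    L₁ r S = L₂ (x * act π r) (S.map π.toEmbedding)) r ?_ ?_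
  · rw [map_one, mul_one]
    exact hπ
  · intro r i ih
    have c1 := h₁.cr r i
    have c2 : Cr rk i (fun S => L₂ (x * act π r) (S.map π.toEmbedding))
        (fun S => L₂ (x * act π (r * c i)) (S.map π.toEmbedding)) := by
      have h1 := (h₂.cr (x * act π r) (π i)).perm
      rwa [mul_assoc, ← act_c, ← map_mul] at h1
    have h3 : L₁ r = fun S : Finset (Fin 4) => L₂ (x * act π r) (S.map π.toEmbedding) :=
      funext ih
    rw [← h3] at c2
    have h4 := cr_unique hP (h₁.fr r) c1 c2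
    intro S
    exact congrFun h4 S

end

/-! ### Distances -/

section

variable {M : Par}

/-- The distance along three edges of a 2-face. -/
noncomputable def D3 (s p a : ℝ) : ℝ :=
  -(((2 + 4 * s * s) - 4 * s * (-s - 2 * s * (p ^ 2 + s ^ 2)) - 4 * s * (2 * p * (1 / 2 +
    s * (s - p) + 4 * s * p * a) - (s + p) / 2 * (2 + 4 * s * s) +
      2 * (-s - 2 * s * (p ^ 2 + s ^ 2)) * (p ^ 2 + s ^ 2))) / 2)

theorem D3_inj {s p a a' : ℝ} (hs : 0 < s) (hp : 0 < p) (h : D3 s p a = D3 s p a') : a = a' := by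
  unfold D3 at h
  have h1 : (16 * s ^ 2 * p ^ 2) * (a - a') = 0 := by
    linear_combination h
  have h2 : 16 * s ^ 2 * p ^ 2 ≠ 0 := by positivity
  have h3 := (mul_eq_zero.1 h1).resolve_left h2
  linarith

theorem QQ_bt (u t : N) : QQ (bt M u).1 (bt M (u * t)).1 = QQ (g M (sg u) t oH).1 oo := by
  rw [bt_mul, bt, QQ_g, QQ_comm]
  rfl

theorem dist1 (ε : ℤˣ) (i : Fin 4) : QQ (g M ε (c i) oH).1 oo = -(1 + 2 * M.s ^ 2) := by
  rw [g_c]
  show QQ (cv M i ε oo) oo = _
  rw [QQ_oo, sm_cv, sm_oo, ht_oo]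
  ring

theorem dist3 (ε : ℤˣ) {i j : Fin 4} (h : i ≠ j) :
    QQ (g M ε (c i * (c j * c i)) oH).1 oo = D3 M.s M.p M.a := by
  rw [g_c_mul, g_c_mul, g_c, neg_neg]
  show QQ (cv M i ε (cv M j (-ε) (cv M i ε oo))) oo = _
  rw [cv_oo, QQ_oo, sm_cv, sm_cv]
  set z : Fin 4 → ℝ := fun j => oo j + 2 * M.s * nn M i j with hz
  have sz : sm z = 2 + 4 * M.s * M.s := by
    have h1 : sm z = sm oo + 2 * M.s * sm (nn M i) := by
      rw [sm_eq, sm_eq, sm_eq, hz]
      ring
    rw [h1, sm_oo, sm_nn]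
    ring
  have hjz : ht M j z = -M.s - 2 * M.s * (M.p ^ 2 + M.s ^ 2) := by
    have h1 : ht M j z = ht M j oo + 2 * M.s * ht M j (nn M i) := by
      unfold ht
      have h2 : sm z = sm oo + 2 * M.s * sm (nn M i) := by
        rw [sm_eq, sm_eq, sm_eq, hz]
        ring
      rw [h2, hz]
      ring
    rw [h1, ht_oo, ht_nn' M h.symm]
    ring
  have hiz : ht M i (cv M j (-ε) z) = 2 * M.p * (1 / 2 + M.s * (M.s - M.p) +
      4 * M.s * M.p * M.a) - (M.s + M.p) / 2 * (2 + 4 * M.s * M.s) +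
      2 * (-M.s - 2 * M.s * (M.p ^ 2 + M.s ^ 2)) * (M.p ^ 2 + M.s ^ 2) := by
    unfold cv
    rw [ht_sub, ht_nn' M h, hjz]
    obtain ⟨n1, n2, n3, n4, n5, n6⟩ := nx_ne j i h
    obtain ⟨c1, _, _⟩ := cf_rel M (-ε)
    have h1 : rot M j (-ε) z i = 1 / 2 + M.s * (M.s - M.p) + 4 * M.s * M.p * M.a := by
      rw [rot_ne M h]
      have z1 : z i = 1 / 2 + 2 * M.s * ((M.s - M.p) / 2 + 2 * M.p) := by
        rw [hz]
        show oo i + 2 * M.s * nn M i i = _
        unfold oo nn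
        rw [if_pos rfl]
      have z2 : z (nx j i) = 1 / 2 + 2 * M.s * ((M.s - M.p) / 2) := by
        rw [hz]
        show oo (nx j i) + 2 * M.s * nn M i (nx j i) = _
        unfold oo nn
        rw [if_neg n2]
        ring
      have z3 : z (nx j (nx j i)) = 1 / 2 + 2 * M.s * ((M.s - M.p) / 2) := by
        rw [hz]
        show oo (nx j (nx j i)) + 2 * M.s * nn M i (nx j (nx j i)) = _
        unfold oo nn
        rw [if_neg n4]
        ring
      rw [z1, z2, z3]
      linear_combination (1 / 2 + 2 * M.s * ((M.s - M.p) / 2)) * c1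
    have h2 : ht M i (rot M j (-ε) z) = 2 * M.p * rot M j (-ε) z i -
        (M.s + M.p) / 2 * sm (rot M j (-ε) z) := rfl
    rw [h2, h1, sm_rot, sz]
    ring
  rw [hiz, hjz, sz]
  unfold D3
  ring

theorem bt_c (i : Fin 4) : bt M (c i) = vH M i := g_c M 1 i oH

theorem Bv_U_ne (r : N) (i : Fin 4) : Bv labU (bU M) (r * c i) ≠ Bv labU (bU M) r := by
  rw [Bv_U, Bv_U]
  intro h
  have h1 := eH.injective h
  have h2 := QQ_bt (M := M) r (c i)
  rw [h1, QQ_self, dist1] at h2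
  have h3 := M.hs
  nlinarith

theorem Bv_U_ne' (r : N) (i j : Fin 4) (hij : i ≠ j) :
    Bv labU (bU M) (r * c i) ≠ Bv labU (bU M) (r * c j) := by
  rw [Bv_U, Bv_U]
  intro h
  have h1 := eH.injective h
  rw [bt_mul, bt_mul, g_c, g_c, cH_oH, cH_oH] at h1
  have h2 := g_injective M 1 r h1
  have h3 := QQ_vH M hij
  rw [h2, QQ_self] at h3
  have h4 := one_lt_kap M
  linarith

end

section

variable {P : Type} [PartialOrder P] [BoundedOrder P] {rk₀ : P → ℤ}
  {b : {v : P // rk₀ v = 0} → H3}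

/-- The parameters are determined by the polytope. -/
theorem params_eq (hP : IsPolytope 4 rk₀) (hTe : HasTetrahedralVertexFigures rk₀)
    (hf : IsFaithful rk₀ b) {M₁ M₂ : Par} {T₁ T₂ : H3 ≃ H3} (m₁ : Maps rk₀ b rk T₁ (bU M₁))
    (m₂ : Maps rk₀ b rk T₂ (bU M₂)) : M₁.s = M₂.s ∧ M₁.a = M₂.a := by
  obtain ⟨L₁, h₁, e₁⟩ := lab_of_maps hP hTe hf isPolytope labU Bv_U_ne Bv_U_ne' m₁
  obtain ⟨L₂, h₂, e₂⟩ := lab_of_maps hP hTe hf isPolytope labU Bv_U_ne Bv_U_ne' m₂
  obtain ⟨x, π, h3⟩ := lab_two hP h₁ h₂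
  have h4 : ∀ r, Bv h₁ b r = Bv h₂ b (x * act π r) := by
    intro r
    unfold Bv
    congr 1
    refine Subtype.ext ?_
    show L₁ r ∅ = L₂ (x * act π r) ∅
    rw [h3 r ∅, Finset.map_empty]
  have i₁ := (isIsom_iff T₁).1 m₁.isom
  have i₂ := (isIsom_iff T₂).1 m₂.isom
  have key : ∀ t, QQ (g M₁ 1 t oH).1 oo = QQ (g M₂ (sg x) (act π t) oH).1 oo := by
    intro t
    have k1 := i₁ (Bv h₁ b 1) (Bv h₁ b (1 * t))
    rw [e₁, e₁, Bv_U, Bv_U, lor_eH, QQ_bt, map_one] at k1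
    have k2 := i₂ (Bv h₂ b x) (Bv h₂ b (x * act π t))
    rw [e₂, e₂, Bv_U, Bv_U, lor_eH, QQ_bt] at k2
    rw [k1, k2, h4, h4, map_one, mul_one, one_mul]
  have d1 := key (c 0)
  rw [act_c, dist1, dist1] at d1
  have d3 := key (c 0 * (c 1 * c 0))
  have hπ : π 0 ≠ π 1 := fun h => absurd (π.injective h) (by decide)
  rw [map_mul, map_mul, act_c, act_c, dist3 _ (by decide), dist3 _ hπ] at d3
  have hs : M₁.s = M₂.s := by
    have h8 := M₁.hs
    have h9 := M₂.hs
    nlinarith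
  have hp : M₁.p = M₂.p := by
    have h8 := M₁.hp
    have h9 := M₂.hp
    have h10 := M₁.hsp
    have h11 := M₂.hsp
    rw [hs] at h10
    nlinarith
  refine ⟨hs, ?_⟩
  rw [← hs, ← hp] at d3
  exact D3_inj M₁.hs M₁.hp d3

end

end Pool.Agent.Lib.MP_eed79e_coT
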